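import Mathlib
import Pool.Agent.helper86.NutX.K3n18g0
import Pool.Agent.helper86.NutX.K3n18g1

set_option autoImplicit false

/-!
No 3-regular graph on 18 vertices for which `-1` is a simple eigenvalue with nowhere zero eigenvector.
-/

namespace Pool.Agent.helper86.NutX

/-- the possible types -/
def K3n18Types : List (List ℕ) := [[14, 2, 2, 0],
  [10, 4, 4, 0],
  [6, 6, 6, 0],
  [2, 8, 8, 0],
  [10, 2, 2, 4],
  [6, 4, 4, 4],
  [2, 6, 6, 4],
  [6, 2, 2, 8],
  [2, 4, 4, 8],
  [2, 2, 2, 12]]

theorem K3n18_types : ∀ N ∈ K3n18Types, NG 3 18 N := by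
  intro N hN
  simp only [K3n18Types, List.mem_cons, List.not_mem_nil, or_false] at hN
  rcases hN with rfl | rfl | rfl | rfl | rfl | rfl | rfl | rfl | rfl | rfl
  · exact K3n18t0.ng
  · exact K3n18t1.ng
  · exact K3n18t2.ng
  · exact K3n18t3.ng
  · exact K3n18t4.ng
  · exact K3n18t5.ng
  · exact K3n18t6.ng
  · exact K3n18t7.ng
  · exact K3n18t8.ng
  · exact K3n18t9.ng

theorem K3n18_enum : enum3 18 K3n18Types = true := by decide +kernel

/-- There is no 3-regular graph on 18 vertices for which `-1` is a simple eigenvalue with nowhere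
zero eigenvector. -/
theorem no_co_3_18 (B : Fin 18 → Fin 18 → Bool) (x : Fin 18 → ℝ)
    (symm : ∀ u v, B u v = B v u) (irr : ∀ v, B v v = false)
    (deg : ∀ v, (Finset.univ.filter (fun u => B v u = true)).card = 3)
    (xne : ∀ v, x v ≠ 0)
    (xker : ∀ v, x v + ∑ u, (if B v u then x u else 0) = 0)
    (simple : ∀ z : Fin 18 → ℝ, (∀ v, z v + ∑ u, (if B v u then z u else 0) = 0) →
      ∃ l : ℝ, ∀ v, z v = l * x v) : False := by
  obtain ⟨z, hz⟩ := exists_IB (by norm_num) B x symm irr deg xne xker simple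
  exact no3 (by norm_num) K3n18_enum K3n18_types B z hz

end Pool.Agent.helper86.NutX
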