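import Mathlib
import Pool.Agent.helper86.NutX.K4n11g0

set_option autoImplicit false

/-!
No 4-regular graph on 11 vertices for which `-1` is a simple eigenvalue with nowhere zero eigenvector.
-/

namespace Pool.Agent.helper86.NutX

/-- the possible types -/
def K4n11Types : List (List ℕ) := [[6, 3, 0, 2, 0],
  [7, 1, 1, 2, 0],
  [1, 6, 0, 4, 0],
  [2, 4, 1, 4, 0],
  [3, 2, 2, 4, 0],
  [4, 0, 3, 4, 0],
  [0, 1, 4, 6, 0],
  [5, 2, 0, 0, 4],
  [6, 0, 1, 0, 4],
  [0, 5, 0, 2, 4],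
  [1, 3, 1, 2, 4],
  [2, 1, 2, 2, 4],
  [0, 2, 1, 0, 8],
  [1, 0, 2, 0, 8]]

theorem K4n11_types : ∀ N ∈ K4n11Types, NG 4 11 N := by
  intro N hN
  simp only [K4n11Types, List.mem_cons, List.not_mem_nil, or_false] at hN
  rcases hN with rfl | rfl | rfl | rfl | rfl | rfl | rfl | rfl | rfl | rfl | rfl | rfl | rfl | rfl
  · exact K4n11t0.ng
  · exact K4n11t1.ng
  · exact K4n11t2.ng
  · exact K4n11t3.ng
  · exact K4n11t4.ng
  · exact K4n11t5.ng
  · exact K4n11t6.ng
  · exact K4n11t7.ng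
  · exact K4n11t8.ng
  · exact K4n11t9.ng
  · exact K4n11t10.ng
  · exact K4n11t11.ng
  · exact K4n11t12.ng
  · exact K4n11t13.ng

theorem K4n11_enum : enum4 11 K4n11Types = true := by decide +kernel

/-- There is no 4-regular graph on 11 vertices for which `-1` is a simple eigenvalue with nowhere
zero eigenvector. -/
theorem no_co_4_11 (B : Fin 11 → Fin 11 → Bool) (x : Fin 11 → ℝ)
    (symm : ∀ u v, B u v = B v u) (irr : ∀ v, B v v = false)
    (deg : ∀ v, (Finset.univ.filter (fun u => B v u = true)).card = 4)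
    (xne : ∀ v, x v ≠ 0)
    (xker : ∀ v, x v + ∑ u, (if B v u then x u else 0) = 0)
    (simple : ∀ z : Fin 11 → ℝ, (∀ v, z v + ∑ u, (if B v u then z u else 0) = 0) →
      ∃ l : ℝ, ∀ v, z v = l * x v) : False := by
  obtain ⟨z, hz⟩ := exists_IB (by norm_num) B x symm irr deg xne xker simple
  exact no4 K4n11_enum K4n11_types B z hz

end Pool.Agent.helper86.NutX
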