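import Pool.Agent.helper86.NutX.K4n14t16c0
import Pool.Agent.helper86.NutX.K4n14t16c1

set_option autoImplicit false
set_option maxRecDepth 1000000

namespace Pool.Agent.helper86.NutX.K4n14t16

theorem ng : NG 4 14 [0, 4, 2, 4, 4] := by
  refine ng_of (P := par) (by decide) pv ?_ (by decide +kernel) (by decide +kernel)
  intro idx h
  have h' : idx < 2153 := h
  by_cases c0 : idx < 6
  · exact all0 idx (by omega) (by omega)
  by_cases c1 : idx < 15
  · exact all1 idx (by omega) (by omega)
  by_cases c2 : idx < 23
  · exact all2 idx (by omega) (by omega)
  by_cases c3 : idx < 42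
  · exact all3 idx (by omega) (by omega)
  by_cases c4 : idx < 70
  · exact all4 idx (by omega) (by omega)
  by_cases c5 : idx < 97
  · exact all5 idx (by omega) (by omega)
  by_cases c6 : idx < 132
  · exact all6 idx (by omega) (by omega)
  by_cases c7 : idx < 176
  · exact all7 idx (by omega) (by omega)
  by_cases c8 : idx < 222
  · exact all8 idx (by omega) (by omega)
  by_cases c9 : idx < 265
  · exact all9 idx (by omega) (by omega)
  by_cases c10 : idx < 304
  · exact all10 idx (by omega) (by omega)
  by_cases c11 : idx < 347
  · exact all11 idx (by omega) (by omega)
  by_cases c12 : idx < 387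
  · exact all12 idx (by omega) (by omega)
  by_cases c13 : idx < 411
  · exact all13 idx (by omega) (by omega)
  by_cases c14 : idx < 446
  · exact all14 idx (by omega) (by omega)
  by_cases c15 : idx < 471
  · exact all15 idx (by omega) (by omega)
  by_cases c16 : idx < 490
  · exact all16 idx (by omega) (by omega)
  by_cases c17 : idx < 503
  · exact all17 idx (by omega) (by omega)
  by_cases c18 : idx < 515
  · exact all18 idx (by omega) (by omega)
  by_cases c19 : idx < 523
  · exact all19 idx (by omega) (by omega)
  by_cases c20 : idx < 532
  · exact all20 idx (by omega) (by omega)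
  by_cases c21 : idx < 541
  · exact all21 idx (by omega) (by omega)
  by_cases c22 : idx < 550
  · exact all22 idx (by omega) (by omega)
  by_cases c23 : idx < 566
  · exact all23 idx (by omega) (by omega)
  by_cases c24 : idx < 587
  · exact all24 idx (by omega) (by omega)
  by_cases c25 : idx < 607
  · exact all25 idx (by omega) (by omega)
  by_cases c26 : idx < 625
  · exact all26 idx (by omega) (by omega)
  by_cases c27 : idx < 642
  · exact all27 idx (by omega) (by omega)
  by_cases c28 : idx < 660
  · exact all28 idx (by omega) (by omega)
  by_cases c29 : idx < 677
  · exact all29 idx (by omega) (by omega)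
  by_cases c30 : idx < 696
  · exact all30 idx (by omega) (by omega)
  by_cases c31 : idx < 715
  · exact all31 idx (by omega) (by omega)
  by_cases c32 : idx < 732
  · exact all32 idx (by omega) (by omega)
  by_cases c33 : idx < 753
  · exact all33 idx (by omega) (by omega)
  by_cases c34 : idx < 773
  · exact all34 idx (by omega) (by omega)
  by_cases c35 : idx < 791
  · exact all35 idx (by omega) (by omega)
  by_cases c36 : idx < 810
  · exact all36 idx (by omega) (by omega)
  by_cases c37 : idx < 833
  · exact all37 idx (by omega) (by omega)
  by_cases c38 : idx < 852
  · exact all38 idx (by omega) (by omega)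
  by_cases c39 : idx < 871
  · exact all39 idx (by omega) (by omega)
  by_cases c40 : idx < 892
  · exact all40 idx (by omega) (by omega)
  by_cases c41 : idx < 914
  · exact all41 idx (by omega) (by omega)
  by_cases c42 : idx < 935
  · exact all42 idx (by omega) (by omega)
  by_cases c43 : idx < 956
  · exact all43 idx (by omega) (by omega)
  by_cases c44 : idx < 978
  · exact all44 idx (by omega) (by omega)
  by_cases c45 : idx < 999
  · exact all45 idx (by omega) (by omega)
  by_cases c46 : idx < 1021
  · exact all46 idx (by omega) (by omega)
  by_cases c47 : idx < 1040
  · exact all47 idx (by omega) (by omega)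
  by_cases c48 : idx < 1059
  · exact all48 idx (by omega) (by omega)
  by_cases c49 : idx < 1080
  · exact all49 idx (by omega) (by omega)
  by_cases c50 : idx < 1100
  · exact all50 idx (by omega) (by omega)
  by_cases c51 : idx < 1119
  · exact all51 idx (by omega) (by omega)
  by_cases c52 : idx < 1140
  · exact all52 idx (by omega) (by omega)
  by_cases c53 : idx < 1163
  · exact all53 idx (by omega) (by omega)
  by_cases c54 : idx < 1183
  · exact all54 idx (by omega) (by omega)
  by_cases c55 : idx < 1198
  · exact all55 idx (by omega) (by omega)
  by_cases c56 : idx < 1220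
  · exact all56 idx (by omega) (by omega)
  by_cases c57 : idx < 1238
  · exact all57 idx (by omega) (by omega)
  by_cases c58 : idx < 1261
  · exact all58 idx (by omega) (by omega)
  by_cases c59 : idx < 1279
  · exact all59 idx (by omega) (by omega)
  by_cases c60 : idx < 1303
  · exact all60 idx (by omega) (by omega)
  by_cases c61 : idx < 1325
  · exact all61 idx (by omega) (by omega)
  by_cases c62 : idx < 1342
  · exact all62 idx (by omega) (by omega)
  by_cases c63 : idx < 1360
  · exact all63 idx (by omega) (by omega)
  by_cases c64 : idx < 1379
  · exact all64 idx (by omega) (by omega)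
  by_cases c65 : idx < 1405
  · exact all65 idx (by omega) (by omega)
  by_cases c66 : idx < 1429
  · exact all66 idx (by omega) (by omega)
  by_cases c67 : idx < 1448
  · exact all67 idx (by omega) (by omega)
  by_cases c68 : idx < 1472
  · exact all68 idx (by omega) (by omega)
  by_cases c69 : idx < 1494
  · exact all69 idx (by omega) (by omega)
  by_cases c70 : idx < 1518
  · exact all70 idx (by omega) (by omega)
  by_cases c71 : idx < 1540
  · exact all71 idx (by omega) (by omega)
  by_cases c72 : idx < 1556
  · exact all72 idx (by omega) (by omega)
  by_cases c73 : idx < 1575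
  · exact all73 idx (by omega) (by omega)
  by_cases c74 : idx < 1596
  · exact all74 idx (by omega) (by omega)
  by_cases c75 : idx < 1616
  · exact all75 idx (by omega) (by omega)
  by_cases c76 : idx < 1643
  · exact all76 idx (by omega) (by omega)
  by_cases c77 : idx < 1680
  · exact all77 idx (by omega) (by omega)
  by_cases c78 : idx < 1717
  · exact all78 idx (by omega) (by omega)
  by_cases c79 : idx < 1754
  · exact all79 idx (by omega) (by omega)
  by_cases c80 : idx < 1790
  · exact all80 idx (by omega) (by omega)
  by_cases c81 : idx < 1828
  · exact all81 idx (by omega) (by omega)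
  by_cases c82 : idx < 1869
  · exact all82 idx (by omega) (by omega)
  by_cases c83 : idx < 1908
  · exact all83 idx (by omega) (by omega)
  by_cases c84 : idx < 1943
  · exact all84 idx (by omega) (by omega)
  by_cases c85 : idx < 1979
  · exact all85 idx (by omega) (by omega)
  by_cases c86 : idx < 2010
  · exact all86 idx (by omega) (by omega)
  by_cases c87 : idx < 2041
  · exact all87 idx (by omega) (by omega)
  by_cases c88 : idx < 2079
  · exact all88 idx (by omega) (by omega)
  by_cases c89 : idx < 2112
  · exact all89 idx (by omega) (by omega)
  exact all90 idx (by omega) (by omega)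

end Pool.Agent.helper86.NutX.K4n14t16
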