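import Pool.Agent.helper86.NutX.K4n14t2c0
import Pool.Agent.helper86.NutX.K4n14t2c1
import Pool.Agent.helper86.NutX.K4n14t2c2

set_option autoImplicit false
set_option maxRecDepth 1000000

namespace Pool.Agent.helper86.NutX.K4n14t2

theorem ng : NG 4 14 [4, 6, 0, 4, 0] := by
  refine ng_of (P := par) (by decide) pv ?_ (by decide +kernel) (by decide +kernel)
  intro idx h
  have h' : idx < 2564 := h
  by_cases c0 : idx < 8
  · exact all0 idx (by omega) (by omega)
  by_cases c1 : idx < 12
  · exact all1 idx (by omega) (by omega)
  by_cases c2 : idx < 17
  · exact all2 idx (by omega) (by omega)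
  by_cases c3 : idx < 20
  · exact all3 idx (by omega) (by omega)
  by_cases c4 : idx < 30
  · exact all4 idx (by omega) (by omega)
  by_cases c5 : idx < 38
  · exact all5 idx (by omega) (by omega)
  by_cases c6 : idx < 45
  · exact all6 idx (by omega) (by omega)
  by_cases c7 : idx < 54
  · exact all7 idx (by omega) (by omega)
  by_cases c8 : idx < 60
  · exact all8 idx (by omega) (by omega)
  by_cases c9 : idx < 68
  · exact all9 idx (by omega) (by omega)
  by_cases c10 : idx < 75
  · exact all10 idx (by omega) (by omega)
  by_cases c11 : idx < 81
  · exact all11 idx (by omega) (by omega)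
  by_cases c12 : idx < 91
  · exact all12 idx (by omega) (by omega)
  by_cases c13 : idx < 100
  · exact all13 idx (by omega) (by omega)
  by_cases c14 : idx < 114
  · exact all14 idx (by omega) (by omega)
  by_cases c15 : idx < 128
  · exact all15 idx (by omega) (by omega)
  by_cases c16 : idx < 140
  · exact all16 idx (by omega) (by omega)
  by_cases c17 : idx < 146
  · exact all17 idx (by omega) (by omega)
  by_cases c18 : idx < 160
  · exact all18 idx (by omega) (by omega)
  by_cases c19 : idx < 173
  · exact all19 idx (by omega) (by omega)
  by_cases c20 : idx < 183
  · exact all20 idx (by omega) (by omega)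
  by_cases c21 : idx < 195
  · exact all21 idx (by omega) (by omega)
  by_cases c22 : idx < 214
  · exact all22 idx (by omega) (by omega)
  by_cases c23 : idx < 227
  · exact all23 idx (by omega) (by omega)
  by_cases c24 : idx < 243
  · exact all24 idx (by omega) (by omega)
  by_cases c25 : idx < 255
  · exact all25 idx (by omega) (by omega)
  by_cases c26 : idx < 268
  · exact all26 idx (by omega) (by omega)
  by_cases c27 : idx < 292
  · exact all27 idx (by omega) (by omega)
  by_cases c28 : idx < 310
  · exact all28 idx (by omega) (by omega)
  by_cases c29 : idx < 326
  · exact all29 idx (by omega) (by omega)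
  by_cases c30 : idx < 341
  · exact all30 idx (by omega) (by omega)
  by_cases c31 : idx < 356
  · exact all31 idx (by omega) (by omega)
  by_cases c32 : idx < 376
  · exact all32 idx (by omega) (by omega)
  by_cases c33 : idx < 389
  · exact all33 idx (by omega) (by omega)
  by_cases c34 : idx < 406
  · exact all34 idx (by omega) (by omega)
  by_cases c35 : idx < 420
  · exact all35 idx (by omega) (by omega)
  by_cases c36 : idx < 443
  · exact all36 idx (by omega) (by omega)
  by_cases c37 : idx < 465
  · exact all37 idx (by omega) (by omega)
  by_cases c38 : idx < 482
  · exact all38 idx (by omega) (by omega)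
  by_cases c39 : idx < 498
  · exact all39 idx (by omega) (by omega)
  by_cases c40 : idx < 511
  · exact all40 idx (by omega) (by omega)
  by_cases c41 : idx < 529
  · exact all41 idx (by omega) (by omega)
  by_cases c42 : idx < 546
  · exact all42 idx (by omega) (by omega)
  by_cases c43 : idx < 564
  · exact all43 idx (by omega) (by omega)
  by_cases c44 : idx < 583
  · exact all44 idx (by omega) (by omega)
  by_cases c45 : idx < 599
  · exact all45 idx (by omega) (by omega)
  by_cases c46 : idx < 612
  · exact all46 idx (by omega) (by omega)
  by_cases c47 : idx < 635
  · exact all47 idx (by omega) (by omega)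
  by_cases c48 : idx < 651
  · exact all48 idx (by omega) (by omega)
  by_cases c49 : idx < 673
  · exact all49 idx (by omega) (by omega)
  by_cases c50 : idx < 694
  · exact all50 idx (by omega) (by omega)
  by_cases c51 : idx < 712
  · exact all51 idx (by omega) (by omega)
  by_cases c52 : idx < 732
  · exact all52 idx (by omega) (by omega)
  by_cases c53 : idx < 748
  · exact all53 idx (by omega) (by omega)
  by_cases c54 : idx < 768
  · exact all54 idx (by omega) (by omega)
  by_cases c55 : idx < 791
  · exact all55 idx (by omega) (by omega)
  by_cases c56 : idx < 813
  · exact all56 idx (by omega) (by omega)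
  by_cases c57 : idx < 833
  · exact all57 idx (by omega) (by omega)
  by_cases c58 : idx < 856
  · exact all58 idx (by omega) (by omega)
  by_cases c59 : idx < 876
  · exact all59 idx (by omega) (by omega)
  by_cases c60 : idx < 895
  · exact all60 idx (by omega) (by omega)
  by_cases c61 : idx < 912
  · exact all61 idx (by omega) (by omega)
  by_cases c62 : idx < 931
  · exact all62 idx (by omega) (by omega)
  by_cases c63 : idx < 948
  · exact all63 idx (by omega) (by omega)
  by_cases c64 : idx < 969
  · exact all64 idx (by omega) (by omega)
  by_cases c65 : idx < 991
  · exact all65 idx (by omega) (by omega)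
  by_cases c66 : idx < 1013
  · exact all66 idx (by omega) (by omega)
  by_cases c67 : idx < 1035
  · exact all67 idx (by omega) (by omega)
  by_cases c68 : idx < 1056
  · exact all68 idx (by omega) (by omega)
  by_cases c69 : idx < 1077
  · exact all69 idx (by omega) (by omega)
  by_cases c70 : idx < 1098
  · exact all70 idx (by omega) (by omega)
  by_cases c71 : idx < 1117
  · exact all71 idx (by omega) (by omega)
  by_cases c72 : idx < 1141
  · exact all72 idx (by omega) (by omega)
  by_cases c73 : idx < 1164
  · exact all73 idx (by omega) (by omega)
  by_cases c74 : idx < 1188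
  · exact all74 idx (by omega) (by omega)
  by_cases c75 : idx < 1208
  · exact all75 idx (by omega) (by omega)
  by_cases c76 : idx < 1238
  · exact all76 idx (by omega) (by omega)
  by_cases c77 : idx < 1259
  · exact all77 idx (by omega) (by omega)
  by_cases c78 : idx < 1289
  · exact all78 idx (by omega) (by omega)
  by_cases c79 : idx < 1313
  · exact all79 idx (by omega) (by omega)
  by_cases c80 : idx < 1338
  · exact all80 idx (by omega) (by omega)
  by_cases c81 : idx < 1367
  · exact all81 idx (by omega) (by omega)
  by_cases c82 : idx < 1399
  · exact all82 idx (by omega) (by omega)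
  by_cases c83 : idx < 1428
  · exact all83 idx (by omega) (by omega)
  by_cases c84 : idx < 1455
  · exact all84 idx (by omega) (by omega)
  by_cases c85 : idx < 1489
  · exact all85 idx (by omega) (by omega)
  by_cases c86 : idx < 1520
  · exact all86 idx (by omega) (by omega)
  by_cases c87 : idx < 1546
  · exact all87 idx (by omega) (by omega)
  by_cases c88 : idx < 1579
  · exact all88 idx (by omega) (by omega)
  by_cases c89 : idx < 1615
  · exact all89 idx (by omega) (by omega)
  by_cases c90 : idx < 1645
  · exact all90 idx (by omega) (by omega)
  by_cases c91 : idx < 1678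
  · exact all91 idx (by omega) (by omega)
  by_cases c92 : idx < 1713
  · exact all92 idx (by omega) (by omega)
  by_cases c93 : idx < 1753
  · exact all93 idx (by omega) (by omega)
  by_cases c94 : idx < 1788
  · exact all94 idx (by omega) (by omega)
  by_cases c95 : idx < 1821
  · exact all95 idx (by omega) (by omega)
  by_cases c96 : idx < 1851
  · exact all96 idx (by omega) (by omega)
  by_cases c97 : idx < 1877
  · exact all97 idx (by omega) (by omega)
  by_cases c98 : idx < 1904
  · exact all98 idx (by omega) (by omega)
  by_cases c99 : idx < 1931
  · exact all99 idx (by omega) (by omega)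
  by_cases c100 : idx < 1963
  · exact all100 idx (by omega) (by omega)
  by_cases c101 : idx < 1991
  · exact all101 idx (by omega) (by omega)
  by_cases c102 : idx < 2020
  · exact all102 idx (by omega) (by omega)
  by_cases c103 : idx < 2050
  · exact all103 idx (by omega) (by omega)
  by_cases c104 : idx < 2082
  · exact all104 idx (by omega) (by omega)
  by_cases c105 : idx < 2116
  · exact all105 idx (by omega) (by omega)
  by_cases c106 : idx < 2147
  · exact all106 idx (by omega) (by omega)
  by_cases c107 : idx < 2174
  · exact all107 idx (by omega) (by omega)
  by_cases c108 : idx < 2204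
  · exact all108 idx (by omega) (by omega)
  by_cases c109 : idx < 2243
  · exact all109 idx (by omega) (by omega)
  by_cases c110 : idx < 2289
  · exact all110 idx (by omega) (by omega)
  by_cases c111 : idx < 2332
  · exact all111 idx (by omega) (by omega)
  by_cases c112 : idx < 2386
  · exact all112 idx (by omega) (by omega)
  by_cases c113 : idx < 2434
  · exact all113 idx (by omega) (by omega)
  by_cases c114 : idx < 2475
  · exact all114 idx (by omega) (by omega)
  by_cases c115 : idx < 2516
  · exact all115 idx (by omega) (by omega)
  by_cases c116 : idx < 2559
  · exact all116 idx (by omega) (by omega)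
  exact all117 idx (by omega) (by omega)

end Pool.Agent.helper86.NutX.K4n14t2
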