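import Pool.Agent.helper86.NutX.K4n14t7c0
import Pool.Agent.helper86.NutX.K4n14t7c1

set_option autoImplicit false
set_option maxRecDepth 1000000

namespace Pool.Agent.helper86.NutX.K4n14t7

theorem ng : NG 4 14 [1, 5, 2, 6, 0] := by
  refine ng_of (P := par) (by decide) pv ?_ (by decide +kernel) (by decide +kernel)
  intro idx h
  have h' : idx < 1505 := h
  by_cases c0 : idx < 6
  · exact all0 idx (by omega) (by omega)
  by_cases c1 : idx < 12
  · exact all1 idx (by omega) (by omega)
  by_cases c2 : idx < 21
  · exact all2 idx (by omega) (by omega)
  by_cases c3 : idx < 26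
  · exact all3 idx (by omega) (by omega)
  by_cases c4 : idx < 38
  · exact all4 idx (by omega) (by omega)
  by_cases c5 : idx < 52
  · exact all5 idx (by omega) (by omega)
  by_cases c6 : idx < 62
  · exact all6 idx (by omega) (by omega)
  by_cases c7 : idx < 89
  · exact all7 idx (by omega) (by omega)
  by_cases c8 : idx < 112
  · exact all8 idx (by omega) (by omega)
  by_cases c9 : idx < 126
  · exact all9 idx (by omega) (by omega)
  by_cases c10 : idx < 145
  · exact all10 idx (by omega) (by omega)
  by_cases c11 : idx < 160
  · exact all11 idx (by omega) (by omega)
  by_cases c12 : idx < 170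
  · exact all12 idx (by omega) (by omega)
  by_cases c13 : idx < 181
  · exact all13 idx (by omega) (by omega)
  by_cases c14 : idx < 201
  · exact all14 idx (by omega) (by omega)
  by_cases c15 : idx < 222
  · exact all15 idx (by omega) (by omega)
  by_cases c16 : idx < 249
  · exact all16 idx (by omega) (by omega)
  by_cases c17 : idx < 274
  · exact all17 idx (by omega) (by omega)
  by_cases c18 : idx < 284
  · exact all18 idx (by omega) (by omega)
  by_cases c19 : idx < 303
  · exact all19 idx (by omega) (by omega)
  by_cases c20 : idx < 329
  · exact all20 idx (by omega) (by omega)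
  by_cases c21 : idx < 352
  · exact all21 idx (by omega) (by omega)
  by_cases c22 : idx < 374
  · exact all22 idx (by omega) (by omega)
  by_cases c23 : idx < 400
  · exact all23 idx (by omega) (by omega)
  by_cases c24 : idx < 430
  · exact all24 idx (by omega) (by omega)
  by_cases c25 : idx < 469
  · exact all25 idx (by omega) (by omega)
  by_cases c26 : idx < 500
  · exact all26 idx (by omega) (by omega)
  by_cases c27 : idx < 531
  · exact all27 idx (by omega) (by omega)
  by_cases c28 : idx < 562
  · exact all28 idx (by omega) (by omega)
  by_cases c29 : idx < 595
  · exact all29 idx (by omega) (by omega)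
  by_cases c30 : idx < 612
  · exact all30 idx (by omega) (by omega)
  by_cases c31 : idx < 632
  · exact all31 idx (by omega) (by omega)
  by_cases c32 : idx < 659
  · exact all32 idx (by omega) (by omega)
  by_cases c33 : idx < 682
  · exact all33 idx (by omega) (by omega)
  by_cases c34 : idx < 707
  · exact all34 idx (by omega) (by omega)
  by_cases c35 : idx < 729
  · exact all35 idx (by omega) (by omega)
  by_cases c36 : idx < 768
  · exact all36 idx (by omega) (by omega)
  by_cases c37 : idx < 798
  · exact all37 idx (by omega) (by omega)
  by_cases c38 : idx < 837
  · exact all38 idx (by omega) (by omega)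
  by_cases c39 : idx < 863
  · exact all39 idx (by omega) (by omega)
  by_cases c40 : idx < 886
  · exact all40 idx (by omega) (by omega)
  by_cases c41 : idx < 910
  · exact all41 idx (by omega) (by omega)
  by_cases c42 : idx < 935
  · exact all42 idx (by omega) (by omega)
  by_cases c43 : idx < 963
  · exact all43 idx (by omega) (by omega)
  by_cases c44 : idx < 998
  · exact all44 idx (by omega) (by omega)
  by_cases c45 : idx < 1035
  · exact all45 idx (by omega) (by omega)
  by_cases c46 : idx < 1073
  · exact all46 idx (by omega) (by omega)
  by_cases c47 : idx < 1116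
  · exact all47 idx (by omega) (by omega)
  by_cases c48 : idx < 1152
  · exact all48 idx (by omega) (by omega)
  by_cases c49 : idx < 1185
  · exact all49 idx (by omega) (by omega)
  by_cases c50 : idx < 1223
  · exact all50 idx (by omega) (by omega)
  by_cases c51 : idx < 1262
  · exact all51 idx (by omega) (by omega)
  by_cases c52 : idx < 1291
  · exact all52 idx (by omega) (by omega)
  by_cases c53 : idx < 1348
  · exact all53 idx (by omega) (by omega)
  by_cases c54 : idx < 1388
  · exact all54 idx (by omega) (by omega)
  by_cases c55 : idx < 1446
  · exact all55 idx (by omega) (by omega)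
  by_cases c56 : idx < 1499
  · exact all56 idx (by omega) (by omega)
  exact all57 idx (by omega) (by omega)

end Pool.Agent.helper86.NutX.K4n14t7
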