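import Mathlib
import Pool.Agent.helper86.NutX.K4n14t2
import Pool.Agent.helper86.NutX.K4n14t7
import Pool.Agent.helper86.NutX.K4n14t16
import Pool.Agent.helper86.NutX.K4n14g0
import Pool.Agent.helper86.NutX.K4n14g1

set_option autoImplicit false

/-!
No 4-regular graph on 14 vertices for which `-1` is a simple eigenvalue with nowhere zero eigenvector.
-/

namespace Pool.Agent.helper86.NutX

/-- the possible types -/
def K4n14Types : List (List ℕ) := [[9, 3, 0, 2, 0],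
  [10, 1, 1, 2, 0],
  [4, 6, 0, 4, 0],
  [5, 4, 1, 4, 0],
  [6, 2, 2, 4, 0],
  [7, 0, 3, 4, 0],
  [0, 7, 1, 6, 0],
  [1, 5, 2, 6, 0],
  [2, 3, 3, 6, 0],
  [3, 1, 4, 6, 0],
  [0, 0, 6, 8, 0],
  [8, 2, 0, 0, 4],
  [9, 0, 1, 0, 4],
  [3, 5, 0, 2, 4],
  [4, 3, 1, 2, 4],
  [5, 1, 2, 2, 4],
  [0, 4, 2, 4, 4],
  [1, 2, 3, 4, 4],
  [2, 0, 4, 4, 4],
  [2, 4, 0, 0, 8],
  [3, 2, 1, 0, 8],
  [4, 0, 2, 0, 8],
  [0, 1, 3, 2, 8]]

theorem K4n14_types : ∀ N ∈ K4n14Types, NG 4 14 N := by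
  intro N hN
  simp only [K4n14Types, List.mem_cons, List.not_mem_nil, or_false] at hN
  rcases hN with rfl | rfl | rfl | rfl | rfl | rfl | rfl | rfl | rfl | rfl | rfl | rfl | rfl | rfl | rfl | rfl | rfl | rfl | rfl | rfl | rfl | rfl | rfl
  · exact K4n14t0.ng
  · exact K4n14t1.ng
  · exact K4n14t2.ng
  · exact K4n14t3.ng
  · exact K4n14t4.ng
  · exact K4n14t5.ng
  · exact K4n14t6.ng
  · exact K4n14t7.ng
  · exact K4n14t8.ng
  · exact K4n14t9.ng
  · exact K4n14t10.ng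
  · exact K4n14t11.ng
  · exact K4n14t12.ng
  · exact K4n14t13.ng
  · exact K4n14t14.ng
  · exact K4n14t15.ng
  · exact K4n14t16.ng
  · exact K4n14t17.ng
  · exact K4n14t18.ng
  · exact K4n14t19.ng
  · exact K4n14t20.ng
  · exact K4n14t21.ng
  · exact K4n14t22.ng

theorem K4n14_enum : enum4 14 K4n14Types = true := by decide +kernel

/-- There is no 4-regular graph on 14 vertices for which `-1` is a simple eigenvalue with nowhere
zero eigenvector. -/
theorem no_co_4_14 (B : Fin 14 → Fin 14 → Bool) (x : Fin 14 → ℝ)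
    (symm : ∀ u v, B u v = B v u) (irr : ∀ v, B v v = false)
    (deg : ∀ v, (Finset.univ.filter (fun u => B v u = true)).card = 4)
    (xne : ∀ v, x v ≠ 0)
    (xker : ∀ v, x v + ∑ u, (if B v u then x u else 0) = 0)
    (simple : ∀ z : Fin 14 → ℝ, (∀ v, z v + ∑ u, (if B v u then z u else 0) = 0) →
      ∃ l : ℝ, ∀ v, z v = l * x v) : False := by
  obtain ⟨z, hz⟩ := exists_IB (by norm_num) B x symm irr deg xne xker simple
  exact no4 K4n14_enum K4n14_types B z hz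

end Pool.Agent.helper86.NutX
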