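import Mathlib

set_option autoImplicit false

/-!
Certificate checker for the nonexistence of small regular graphs whose closed adjacency matrix has a
one-dimensional kernel spanned by a vector without zero entries (for MP_a38f8e_co).

Everything here is written with raw operations on natural numbers so that the kernel evaluates it
quickly. Vectors are packed with 12 bits per entry. `E` is the packed matrix `1 + adjacency` of the
partial graph, `R` packs the missing degrees (inner + 64 * cross).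
-/

namespace Pool.Agent.helper86.NutX

/-- constants of a search -/
structure Par where
  /-- number of vertices -/
  n : ℕ
  /-- row width -/
  RW : ℕ
  /-- `2 ^ RW` -/
  X : ℕ
  /-- `RW * (n - 1)` -/
  RN : ℕ
  /-- multiplier spreading a compact vector -/
  SPR : ℕ
  /-- mask of a spread vector -/
  MSK : ℕ
  /-- `4096 ^ (n - 1)` -/
  BN : ℕ
  /-- `X * 4096 - 1` -/
  XB : ℕ
  /-- missing degrees at the start -/
  KL : ℕ
  /-- class codes -/
  KC : ℕ
  /-- identity matrix -/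
  E0 : ℕ
  /-- all ones -/
  ON : ℕ
  /-- 63 times all ones -/
  M63 : ℕ
  /-- 2047 times all ones -/
  K2 : ℕ
  /-- coefficients of the second linear relation -/
  CV : ℕ
  /-- even side -/
  SM0 : ℕ
  /-- odd side -/
  SM1 : ℕ
  /-- table -/
  TAB : ℕ
  /-- number of table entries -/
  TN : ℕ
  /-- width of a table entry -/
  TW : ℕ
  /-- `2 ^ TW` -/
  TM : ℕ
  /-- `2 ^ (5 n)` -/
  P5 : ℕ
  /-- `17 + 5 n` -/
  W5 : ℕ
  /-- `2 ^ (7 n)` -/
  P7 : ℕ
  /-- `7 n` -/
  W7 : ℕ

/-- Boolean branching -/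
def bi (b t e : Bool) : Bool := @Bool.rec (fun _ => Bool) e t b

/-- branching for numbers -/
def bn (b : Bool) (t e : ℕ) : ℕ := @Bool.rec (fun _ => ℕ) e t b

/-- digit `i` of the packed vector `X` -/
def dg (X i : ℕ) : ℕ :=
  Nat.mod (Nat.shiftRight X (Nat.mul (nat_lit 12) i)) (nat_lit 4096)

/-- unit vector -/
def uv (i : ℕ) : ℕ := Nat.shiftLeft (nat_lit 1) (Nat.mul (nat_lit 12) i)

/-- row `i` of the packed matrix `E` -/
def rowF (P : Par) (E i : ℕ) : ℕ := Nat.mod (Nat.shiftRight E (Nat.mul P.RW i)) P.X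

/-- is `(i, j)` an edge of `E` -/
def edgeB (n E i j : ℕ) : Bool :=
  Nat.beq (Nat.mod (Nat.shiftRight E (Nat.mul (nat_lit 12) (Nat.add (Nat.mul n i) j)))
    (nat_lit 2)) (nat_lit 1)

/-- add the edge `(i, j)` to `E` -/
def addE (n E i j : ℕ) : ℕ :=
  Nat.add (Nat.add E (uv (Nat.add (Nat.mul n i) j))) (uv (Nat.add (Nat.mul n j) i))

/-- update of the missing degrees -/
def subR (R i j val : ℕ) : ℕ := Nat.sub (Nat.sub R (Nat.mul val (uv i))) (Nat.mul val (uv j))

/-- spread vector -/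
def wv (P : Par) (c : ℕ) : ℕ := Nat.land (Nat.mul (Nat.mod c P.P7) P.SPR) P.MSK

/-- linear combination of the rows -/
def sv (P : Par) (E W : ℕ) : ℕ := Nat.mod (Nat.shiftRight (Nat.mul E W) P.RN) P.X

/-- the vector of coefficients -/
def yv (P : Par) (W : ℕ) : ℕ := Nat.mod (Nat.mul W P.BN) P.XB

/-- is the support of `Y` contained in the set of complete vertices -/
def okY (P : Par) (R Y : ℕ) : Bool :=
  Nat.beq (Nat.land Y (Nat.mul (Nat.land (Nat.shiftRight (Nat.add R P.K2) (nat_lit 11)) P.ON)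
    (nat_lit 4095))) (nat_lit 0)

/-- parity certificate; `T` is the linear combination, `m` the power of two -/
def par1 (P : Par) (T m : ℕ) : Bool :=
  bi (Nat.beq (Nat.land T (Nat.mul P.ON (Nat.sub (Nat.shiftLeft (nat_lit 1) m) (nat_lit 1)))) (nat_lit 0))
    (Nat.beq (Nat.mod (Nat.mod (Nat.land (Nat.shiftRight T m) P.SM1) (nat_lit 4095)) (nat_lit 2))
      (nat_lit 1)) false

/-- parity certificate: op 1, m (3), al (8), be (8), vector (7 n) -/
def node1 (P : Par) (E R s : ℕ) (k : ℕ → Bool) : Bool :=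
  (fun W => bi (okY P R (yv P W))
    (bi (par1 P (Nat.add (Nat.add (sv P E W) (Nat.mul (Nat.mod (Nat.shiftRight s (nat_lit 6)) (nat_lit 256)) P.ON))
        (Nat.mul (Nat.mod (Nat.shiftRight s (nat_lit 14)) (nat_lit 256)) P.CV))
        (Nat.mod (Nat.shiftRight s (nat_lit 3)) (nat_lit 8)))
      (k (Nat.shiftRight (Nat.shiftRight s (nat_lit 22)) P.W7)) false) false)
    (wv P (Nat.shiftRight s (nat_lit 22)))

/-- comparison of two linear combinations -/
def fin2 (P : Par) (s S1 S2 : ℕ) : Bool :=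
  Nat.beq (Nat.add (Nat.add S1 (Nat.mul (Nat.mod (Nat.shiftRight s (nat_lit 16)) (nat_lit 256)) P.ON))
      (Nat.mul (Nat.mod (Nat.shiftRight s (nat_lit 24)) (nat_lit 256)) P.CV))
    (Nat.add (Nat.add (Nat.add S2 (Nat.mul (Nat.mod (Nat.shiftRight s (nat_lit 32)) (nat_lit 256)) P.ON))
      (Nat.mul (Nat.mod (Nat.shiftRight s (nat_lit 40)) (nat_lit 256)) P.CV))
      (Nat.mul (Nat.mod (Nat.shiftRight s (nat_lit 8)) (nat_lit 256))
        (uv (Nat.mod (Nat.shiftRight s (nat_lit 3)) (nat_lit 32)))))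

/-- certificate for a zero entry: op 2, a (5), c (8), al1 be1 al2 be2 (8 each), vectors (7 n each) -/
def node2 (P : Par) (E R s : ℕ) (k : ℕ → Bool) : Bool :=
  (fun W1 W2 => bi (okY P R (yv P W1)) (bi (okY P R (yv P W2))
    (bi (fin2 P s (sv P E W1) (sv P E W2))
      (bi (Nat.ble (Nat.succ (Nat.mod (Nat.shiftRight s (nat_lit 3)) (nat_lit 32))) P.n)
        (bi (Nat.ble (nat_lit 1) (Nat.mod (Nat.shiftRight s (nat_lit 8)) (nat_lit 256)))
          (k (Nat.shiftRight (Nat.shiftRight (Nat.shiftRight s (nat_lit 48)) P.W7) P.W7))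
          false) false) false) false) false)
    (wv P (Nat.shiftRight s (nat_lit 48)))
    (wv P (Nat.shiftRight (Nat.shiftRight s (nat_lit 48)) P.W7))

/-- local kernel vector: op 3, f (5), vectors (7 n each) -/
def node3 (P : Par) (E R s : ℕ) (k : ℕ → Bool) : Bool :=
  (fun W1 W2 f => bi (okY P R (yv P W1)) (bi (okY P R (yv P W2))
    (bi (Nat.beq (sv P E W1) (sv P E W2)) (bi (Nat.beq (yv P W1) (yv P W2)) false
      (bi (Nat.ble (Nat.succ f) P.n) (bi (Nat.beq (dg (yv P W1) f) (nat_lit 0))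
        (bi (Nat.beq (dg (yv P W2) f) (nat_lit 0))
          (k (Nat.shiftRight (Nat.shiftRight (Nat.shiftRight s (nat_lit 8)) P.W7) P.W7))
          false) false) false)) false) false) false)
    (wv P (Nat.shiftRight s (nat_lit 8)))
    (wv P (Nat.shiftRight (Nat.shiftRight s (nat_lit 8)) P.W7))
    (Nat.mod (Nat.shiftRight s (nat_lit 3)) (nat_lit 32))

/-- image of `i` under the packed permutation `Q` -/
def pm (Q i : ℕ) : ℕ := Nat.mod (Nat.shiftRight Q (Nat.mul (nat_lit 5) i)) (nat_lit 32)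

/-- step of `permF` -/
def permS (P : Par) (i : ℕ) (ih : ℕ → Bool) (acc p : ℕ) : Bool :=
  bi (Nat.ble (Nat.succ p) P.n)
    (bi (Nat.beq (Nat.mod (Nat.shiftRight acc p) (nat_lit 2)) (nat_lit 0))
      (bi (Nat.beq (dg P.KC p) (dg P.KC i))
        (ih (Nat.lor acc (Nat.shiftLeft (nat_lit 1) p))) false) false) false

/-- check that `Q` maps `{0, …, i-1}` injectively to `{0, …, n-1}`, respecting classes -/
def permF (P : Par) (Q i : ℕ) : ℕ → Bool :=
  @Nat.rec (fun _ => ℕ → Bool) (fun _ => true) (fun i ih acc => permS P i ih acc (pm Q i)) i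

/-- step of `edgesF` -/
def edgesS (n E Q L : ℕ) (ih : ℕ → Bool) : Bool :=
  bi (edgeB n E (pm Q (Nat.mod L (nat_lit 32)))
    (pm Q (Nat.mod (Nat.shiftRight L (nat_lit 5)) (nat_lit 32))))
    (ih (Nat.shiftRight L (nat_lit 10))) false

/-- check that all edges of the edge list `L` are mapped by `Q` to edges of `E` -/
def edgesF (n E Q f : ℕ) : ℕ → Bool :=
  @Nat.rec (fun _ => ℕ → Bool) (fun L => Nat.beq L (nat_lit 0))
    (fun _ ih L => bi (Nat.beq L (nat_lit 0)) true (edgesS n E Q L ih)) f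

/-- reference to a table entry: op 5, idx (14), Q (5 n) -/
def node5 (P : Par) (cur E s : ℕ) (k : ℕ → Bool) : Bool :=
  (fun idx Q => bi (Nat.ble (Nat.succ cur) idx) (bi (Nat.ble (Nat.succ idx) P.TN)
    (bi (permF P Q P.n (nat_lit 0))
      (bi (edgesF P.n E Q (nat_lit 31) (Nat.mod (Nat.shiftRight P.TAB (Nat.mul P.TW idx)) P.TM))
        (k (Nat.shiftRight s P.W5)) false) false) false) false)
    (Nat.mod (Nat.shiftRight s (nat_lit 3)) (nat_lit 16384))
    (Nat.mod (Nat.shiftRight s (nat_lit 17)) P.P5)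

/-- bit `j` of a mask -/
def mb (cand j : ℕ) : Bool :=
  Nat.beq (Nat.mod (Nat.shiftRight cand (Nat.mul (nat_lit 12) j)) (nat_lit 2)) (nat_lit 1)

/-- twin `j'` of `j` -/
def twinS (P : Par) (E cand j j' s : ℕ) (lp : ℕ → ℕ → Bool) : Bool :=
  bi (mb cand j')
    (bi (Nat.beq (dg P.KC j') (dg P.KC j))
      (bi (Nat.beq (Nat.add (rowF P E j') (uv j)) (Nat.add (rowF P E j) (uv j')))
        (bi (Nat.ble (Nat.succ j') P.n) (lp cand s) false) false) false) false

/-- treatment of the candidate `j`; `cand` is the mask of the remaining candidates -/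
def lpT (P : Par) (ih : ℕ → ℕ → ℕ → (ℕ → Bool) → Bool) (E R v val : ℕ) (lp : ℕ → ℕ → Bool)
    (s j cand : ℕ) : Bool :=
  bi (Nat.beq (Nat.mod s (nat_lit 8)) (nat_lit 4))
    (twinS P E cand j (Nat.mod (Nat.shiftRight s (nat_lit 3)) (nat_lit 32))
      (Nat.shiftRight s (nat_lit 8)) lp)
    (ih (addE P.n E v j) (subR R v j val) s (lp cand))

/-- step of the loop over the candidates -/
def lpS (P : Par) (ih : ℕ → ℕ → ℕ → (ℕ → Bool) → Bool) (E R v val : ℕ) (lp : ℕ → ℕ → Bool)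
    (s j cand : ℕ) : Bool :=
  bi (mb cand j) (bi (Nat.ble (Nat.succ j) P.n)
    (lpT P ih E R v val lp s j (Nat.xor cand (uv j))) false) false

/-- loop over the candidates -/
def lpF (P : Par) (ih : ℕ → ℕ → ℕ → (ℕ → Bool) → Bool) (E R v val : ℕ) (k : ℕ → Bool) (f : ℕ) :
    ℕ → ℕ → Bool :=
  @Nat.rec (fun _ => ℕ → ℕ → Bool) (fun cand s => bi (Nat.beq cand (nat_lit 0)) (k s) false)
    (fun _ lp cand s => bi (Nat.beq cand (nat_lit 0)) (k s)
      (lpS P ih E R v val lp (Nat.shiftRight s (nat_lit 5)) (Nat.mod s (nat_lit 32)) cand)) f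

/-- candidates: `F` the missing degrees of the right kind, `M` the mask of the right side -/
def candF (P : Par) (F M w : ℕ) : ℕ :=
  Nat.xor (Nat.lor (Nat.land (Nat.shiftRight (Nat.add F P.K2) (nat_lit 11)) M) w) w

/-- branching at vertex `v`; `kd = 0` inner edges, `kd = 1` cross edges -/
def brS (P : Par) (ih : ℕ → ℕ → ℕ → (ℕ → Bool) → Bool) (E R s : ℕ) (k : ℕ → Bool)
    (kd v F : ℕ) : Bool :=
  bi (Nat.ble (Nat.succ v) P.n) (bi (Nat.ble (nat_lit 1) (dg F v))
    (lpF P ih E R v (bn (Nat.beq kd (nat_lit 0)) (nat_lit 1) (nat_lit 64)) k P.n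
      (candF P F (bn (Nat.beq (dg P.SM1 v) kd) P.SM0 P.SM1) (rowF P E v))
      (Nat.shiftRight s (nat_lit 9))) false) false

/-- branch node: op 0, kd (1), v (5) -/
def node0 (P : Par) (ih : ℕ → ℕ → ℕ → (ℕ → Bool) → Bool) (E R s : ℕ) (k : ℕ → Bool) : Bool :=
  (fun kd => brS P ih E R s k kd (Nat.mod (Nat.shiftRight s (nat_lit 4)) (nat_lit 32))
    (Nat.land (Nat.shiftRight R (Nat.mul (nat_lit 6) kd)) P.M63))
    (Nat.mod (Nat.shiftRight s (nat_lit 3)) (nat_lit 2))

/-- dispatch -/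
def stp (P : Par) (cur : ℕ) (ih : ℕ → ℕ → ℕ → (ℕ → Bool) → Bool) (E R s : ℕ) (k : ℕ → Bool)
    (op : ℕ) : Bool :=
  bi (Nat.beq op (nat_lit 1)) (node1 P E R s k)
    (bi (Nat.beq op (nat_lit 0)) (node0 P ih E R s k)
      (bi (Nat.beq op (nat_lit 2)) (node2 P E R s k)
        (bi (Nat.beq op (nat_lit 3)) (node3 P E R s k) (node5 P cur E s k))))

/-- The search. -/
def runF (P : Par) (cur fuel : ℕ) : ℕ → ℕ → ℕ → (ℕ → Bool) → Bool :=
  @Nat.rec (fun _ => ℕ → ℕ → ℕ → (ℕ → Bool) → Bool) (fun _ _ _ _ => false)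
    (fun _ ih E R s k => stp P cur ih E R s k (Nat.mod s (nat_lit 8))) fuel

/-- step of `buildF` -/
def buildS (P : Par) (L E R : ℕ) (k : ℕ → ℕ → Bool) (ih : ℕ → ℕ → ℕ → (ℕ → ℕ → Bool) → Bool)
    (i j : ℕ) : Bool :=
  bi (Nat.ble (Nat.succ i) P.n) (bi (Nat.ble (Nat.succ j) P.n)
    (bi (edgeB P.n E i j) false
      (ih (Nat.shiftRight L (nat_lit 10)) (addE P.n E i j)
        (subR R i j (bn (Nat.beq (dg P.SM1 i) (dg P.SM1 j)) (nat_lit 1) (nat_lit 64))) k)) false) false

/-- build the state of the edge list `L` -/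
def buildF (P : Par) (f : ℕ) : ℕ → ℕ → ℕ → (ℕ → ℕ → Bool) → Bool :=
  @Nat.rec (fun _ => ℕ → ℕ → ℕ → (ℕ → ℕ → Bool) → Bool)
    (fun _ _ _ _ => false)
    (fun _ ih L E R k => bi (Nat.beq L (nat_lit 0)) (k E R)
      (buildS P L E R k ih (Nat.mod L (nat_lit 32))
        (Nat.mod (Nat.shiftRight L (nat_lit 5)) (nat_lit 32))))
    f

/-- check of a table entry -/
def entryF (P : Par) (cur s : ℕ) : Bool :=
  buildF P (nat_lit 31) (Nat.mod (Nat.shiftRight P.TAB (Nat.mul P.TW cur)) P.TM) P.E0 P.KL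
    (fun E R => runF P cur (nat_lit 31) E R s (fun _ => true))

/-- check of consecutive table entries -/
def allF (P : Par) (l : List ℕ) : ℕ → Bool :=
  @List.rec ℕ (fun _ => ℕ → Bool) (fun _ => true)
    (fun s _ ih cur => bi (entryF P cur s) (ih (Nat.succ cur)) false) l

end Pool.Agent.helper86.NutX
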