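import Mathlib
import Pool.Agent.helper86.NutX.Run

set_option autoImplicit false

/-!
Digit lemmas for packed vectors.
-/

namespace Pool.Agent.helper86.NutX

open Finset

/-- packed sum in base `b` -/
def pkb (b n : ℕ) (f : ℕ → ℕ) : ℕ := ∑ i ∈ range n, f i * b ^ i

/-- packed sum in base 4096 -/
abbrev pk (n : ℕ) (f : ℕ → ℕ) : ℕ := pkb 4096 n f

lemma pkb_lt (b n : ℕ) (f : ℕ → ℕ) (hf : ∀ i < n, f i < b) : pkb b n f < b ^ n := by
  induction n with
  | zero => simp [pkb]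
  | succ n ih =>
    have h1 := ih fun i hi => hf i (by omega)
    have h2 := hf n (by omega)
    unfold pkb at h1 ⊢
    rw [sum_range_succ, pow_succ]
    calc _ < b ^ n + f n * b ^ n := by omega
      _ = (f n + 1) * b ^ n := by ring
      _ ≤ b * b ^ n := Nat.mul_le_mul_right _ h2
      _ = b ^ n * b := by ring

lemma pkb_add (b a m : ℕ) (f : ℕ → ℕ) :
    pkb b (a + m) f = pkb b a f + b ^ a * pkb b m (fun k => f (a + k)) := by
  unfold pkb
  rw [sum_range_add, mul_sum]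
  congr 1
  refine sum_congr rfl fun k _ => ?_
  rw [pow_add]; ring

lemma pkb_blk (b : ℕ) (n a m : ℕ) (f : ℕ → ℕ) (hf : ∀ i < n, f i < b) (h : a + m ≤ n) :
    pkb b n f / b ^ a % b ^ m = pkb b m (fun k => f (a + k)) := by
  obtain ⟨r, rfl⟩ := Nat.exists_eq_add_of_le h
  have hb : 0 < b ∨ a + m + r = 0 := by
    rcases Nat.eq_zero_or_pos (a + m + r) with h0 | h0
    · exact Or.inr h0
    · exact Or.inl (lt_of_le_of_lt (Nat.zero_le _) (hf 0 h0))
  rcases hb with hb | h0
  · rw [add_assoc, pkb_add, pkb_add b m r]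
    have h1 := pkb_lt b a f fun i hi => hf i (by omega)
    rw [Nat.add_mul_div_left _ _ (Nat.pos_of_ne_zero (by positivity)), Nat.div_eq_of_lt h1, zero_add,
      Nat.add_mul_mod_self_left, Nat.mod_eq_of_lt]
    exact pkb_lt b m _ fun i hi => hf _ (by omega)
  · have : a = 0 ∧ m = 0 ∧ r = 0 := by omega
    obtain ⟨rfl, rfl, rfl⟩ := this
    simp [pkb, Nat.mod_one]

lemma pkb_dig (b : ℕ) (n i : ℕ) (f : ℕ → ℕ) (hf : ∀ i < n, f i < b) (h : i < n) :
    pkb b n f / b ^ i % b = f i := by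
  have := pkb_blk b n i 1 f hf (by omega)
  rw [pow_one] at this
  rw [this]
  simp [pkb]

lemma pkb_congr (b n : ℕ) (f g : ℕ → ℕ) (h : ∀ i < n, f i = g i) : pkb b n f = pkb b n g := by
  unfold pkb
  exact sum_congr rfl fun i hi => by rw [h i (mem_range.1 hi)]

lemma pkb_inj (b n : ℕ) (f g : ℕ → ℕ) (hf : ∀ i < n, f i < b) (hg : ∀ i < n, g i < b)
    (h : pkb b n f = pkb b n g) : ∀ i < n, f i = g i := by
  intro i hi
  rw [← pkb_dig b n i f hf hi, h, pkb_dig b n i g hg hi]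

lemma pkb_ge (b n i : ℕ) (f : ℕ → ℕ) (hf : ∀ i < n, f i < b) (h : n ≤ i) (hb : 0 < b) :
    pkb b n f / b ^ i = 0 := by
  apply Nat.div_eq_of_lt
  exact lt_of_lt_of_le (pkb_lt b n f hf) (Nat.pow_le_pow_right hb h)

/-- bits of a packed sum -/
lemma tb (w n : ℕ) (f : ℕ → ℕ) (hf : ∀ i < n, f i < 2 ^ w) (i t : ℕ) (ht : t < w) :
    (pkb (2 ^ w) n f).testBit (w * i + t) = (decide (i < n) && (f i).testBit t) := by
  have h1 : (pkb (2 ^ w) n f).testBit (w * i + t)
      = (pkb (2 ^ w) n f / (2 ^ w) ^ i).testBit t := by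
    rw [← pow_mul, Nat.testBit_div_two_pow, add_comm]
  rw [h1]
  by_cases hi : i < n
  · have h2 : (pkb (2 ^ w) n f / (2 ^ w) ^ i).testBit t
        = (pkb (2 ^ w) n f / (2 ^ w) ^ i % 2 ^ w).testBit t := by
      rw [Nat.testBit_mod_two_pow]; simp [ht]
    rw [h2, pkb_dig _ _ _ _ hf hi]
    simp [hi]
  · rw [pkb_ge _ _ _ _ hf (by omega) (by positivity)]
    simp [hi]

lemma b4096 : (4096 : ℕ) = 2 ^ 12 := by norm_num

lemma tb12 (n : ℕ) (f : ℕ → ℕ) (hf : ∀ i < n, f i < 4096) (i t : ℕ) (ht : t < 12) :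
    (pk n f).testBit (12 * i + t) = (decide (i < n) && (f i).testBit t) := by
  have := tb 12 n f (by intro i hi; have := hf i hi; norm_num; omega) i t ht
  rwa [← b4096] at this

lemma eq_of_bits (x y : ℕ) (h : ∀ i t, t < 12 → x.testBit (12 * i + t) = y.testBit (12 * i + t)) :
    x = y := by
  apply Nat.eq_of_testBit_eq
  intro p
  have := h (p / 12) (p % 12) (Nat.mod_lt _ (by norm_num))
  rwa [Nat.div_add_mod] at this

lemma pk_land (n : ℕ) (f g : ℕ → ℕ) (hf : ∀ i < n, f i < 4096) (hg : ∀ i < n, g i < 4096) :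
    pk n f &&& pk n g = pk n (fun i => f i &&& g i) := by
  apply eq_of_bits
  intro i t ht
  rw [Nat.testBit_land, tb12 _ _ hf _ _ ht, tb12 _ _ hg _ _ ht, tb12 _ _ _ _ _ ht]
  · rw [Nat.testBit_land]
    cases decide (i < n) <;> simp
  · intro i hi
    exact lt_of_le_of_lt Nat.and_le_left (hf i hi)

/-- mask of the low `m` bits of every entry shifted by `m'` -/
lemma pk_shift_land (n s : ℕ) (f g : ℕ → ℕ) (hf : ∀ i < n, f i < 4096) (w : ℕ)
    (hg : ∀ i < n, g i < 2 ^ w) (hw : s + w ≤ 12) :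
    (pk n f >>> s) &&& pk n g = pk n (fun i => (f i >>> s) &&& g i) := by
  have hg' : ∀ i < n, g i < 4096 := fun i hi => lt_of_lt_of_le (hg i hi) (by
    calc 2 ^ w ≤ 2 ^ 12 := Nat.pow_le_pow_right (by norm_num) (by omega)
      _ = 4096 := by norm_num)
  apply eq_of_bits
  intro i t ht
  rw [Nat.testBit_land, tb12 _ _ hg' _ _ ht, tb12 _ _ _ _ _ ht]
  · rw [Nat.testBit_land, Nat.testBit_shiftRight, Nat.testBit_shiftRight]
    by_cases hi : i < n
    · by_cases htw : t < w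
      · have : s + (12 * i + t) = 12 * i + (s + t) := by ring
        rw [this, tb12 _ _ hf _ _ (by omega)]
        simp [hi]
      · have : (g i).testBit t = false := by
          apply Nat.testBit_lt_two_pow
          exact lt_of_lt_of_le (hg i hi) (Nat.pow_le_pow_right (by norm_num) (by omega))
        simp [this]
    · simp [hi]
  · intro i hi
    exact lt_of_le_of_lt Nat.and_le_right (hg' i hi)

lemma pk_add (n : ℕ) (f g : ℕ → ℕ) : pk n f + pk n g = pk n (fun i => f i + g i) := by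
  unfold pk pkb
  rw [← sum_add_distrib]
  exact sum_congr rfl fun i _ => by ring

lemma pk_mul (n c : ℕ) (f : ℕ → ℕ) : c * pk n f = pk n (fun i => c * f i) := by
  unfold pk pkb
  rw [mul_sum]
  exact sum_congr rfl fun i _ => by ring

lemma pk_single (n a c : ℕ) (ha : a < n) : c * 4096 ^ a = pk n (fun i => if i = a then c else 0) := by
  unfold pk pkb
  rw [sum_eq_single a]
  · simp
  · intro i _ hi; simp [hi]
  · intro h; exact absurd (mem_range.2 ha) h

lemma pk_sub (n : ℕ) (f g : ℕ → ℕ) (h : ∀ i < n, g i ≤ f i) :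
    pk n f - pk n g = pk n (fun i => f i - g i) := by
  have : pk n (fun i => f i - g i) + pk n g = pk n f := by
    rw [pk_add]
    exact pkb_congr _ _ _ _ fun i hi => by have := h i hi; omega
  omega

/-! ### raw functions -/

lemma dg_eq (X i : ℕ) : dg X i = X / 4096 ^ i % 4096 := by
  unfold dg
  show X >>> (12 * i) % 4096 = _
  rw [Nat.shiftRight_eq_div_pow, pow_mul]
  norm_num

lemma dg_pk (n i : ℕ) (f : ℕ → ℕ) (hf : ∀ i < n, f i < 4096) (h : i < n) : dg (pk n f) i = f i := by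
  rw [dg_eq]; exact pkb_dig _ _ _ _ hf h

lemma uv_eq (i : ℕ) : uv i = 4096 ^ i := by
  unfold uv
  show 1 <<< (12 * i) = _
  rw [Nat.shiftLeft_eq, one_mul, pow_mul]
  norm_num

lemma uv_pk (n a : ℕ) (ha : a < n) : uv a = pk n (fun i => if i = a then 1 else 0) := by
  rw [uv_eq, ← one_mul (4096 ^ a)]; exact pk_single n a 1 ha

lemma testBit_iff (x i : ℕ) : x.testBit i = true ↔ x / 2 ^ i % 2 = 1 := by
  rw [Nat.testBit_eq_decide_div_mod_eq]; simp

lemma nbeq {a b : ℕ} : Nat.beq a b = true ↔ a = b :=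
  ⟨Nat.eq_of_beq_eq_true, fun h => by subst h; exact Nat.beq_refl a⟩

lemma nble {a b : ℕ} : Nat.ble a b = true ↔ a ≤ b :=
  ⟨Nat.le_of_ble_eq_true, Nat.ble_eq_true_of_le⟩

lemma nbeqf {a b : ℕ} : Nat.beq a b = false ↔ a ≠ b := by
  rw [← Bool.not_eq_true, nbeq]

lemma mb_iff (c j : ℕ) : mb c j = true ↔ c.testBit (12 * j) = true := by
  unfold mb
  show Nat.beq (c >>> (12 * j) % 2) 1 = true ↔ _
  rw [nbeq, testBit_iff, Nat.shiftRight_eq_div_pow]

lemma edgeB_iff (n E i j : ℕ) : edgeB n E i j = true ↔ E / 4096 ^ (n * i + j) % 2 = 1 := by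
  unfold edgeB
  show Nat.beq (E >>> (12 * (n * i + j)) % 2) 1 = true ↔ _
  rw [nbeq, Nat.shiftRight_eq_div_pow, pow_mul]
  norm_num

@[simp] lemma bi_true (t e : Bool) : bi true t e = t := rfl
@[simp] lemma bi_false (t e : Bool) : bi false t e = e := rfl

lemma bi_and {b t : Bool} (h : bi b t false = true) : b = true ∧ t = true := by
  cases b
  · simp at h
  · exact ⟨rfl, h⟩

end Pool.Agent.helper86.NutX
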