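import Mathlib
import Pool.Agent.helper86.NutX.Dig

set_option autoImplicit false

/-!
Semantics of the certificate checker, first part: graphs, valid constants, linear combinations.
-/

namespace Pool.Agent.helper86.NutX

open Finset

/-- number of neighbours of `i` on its own side -/
def cin (n : ℕ) (sd : ℕ → ℕ) (A : ℕ → ℕ → Bool) (i : ℕ) : ℕ :=
  ∑ j ∈ range n, if A i j = true ∧ sd i = sd j then 1 else 0

/-- number of neighbours of `i` on the other side -/
def ccr (n : ℕ) (sd : ℕ → ℕ) (A : ℕ → ℕ → Bool) (i : ℕ) : ℕ :=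
  ∑ j ∈ range n, if A i j = true ∧ sd i ≠ sd j then 1 else 0

/-- entries of `1 + A` -/
def ee (A : ℕ → ℕ → Bool) (i j : ℕ) : ℕ := (if A i j = true then 1 else 0) + (if i = j then 1 else 0)

/-- A graph with kernel vector of the given type. -/
structure Good (n : ℕ) (kin kcr sd c : ℕ → ℕ) (g : ℕ → ℕ → Bool) (z : ℕ → ℤ) : Prop where
  symm : ∀ i < n, ∀ j < n, g i j = g j i
  irr : ∀ i < n, g i i = false
  ker : ∀ i < n, z i + ∑ j ∈ range n, (if g i j = true then z j else 0) = 0
  ne : ∀ i < n, z i ≠ 0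
  simple : ∀ y : ℕ → ℤ, (∀ i < n, y i + ∑ j ∈ range n, (if g i j = true then y j else 0) = 0) →
    (∀ i < n, y i = 0) ∨ (∀ i < n, y i ≠ 0)
  par : ∀ i < n, z i % 2 = sd i
  hin : ∀ i < n, kin i = cin n sd g i
  hcr : ∀ i < n, kcr i = ccr n sd g i
  s0 : ∑ j ∈ range n, z j = 0
  s1 : ∑ j ∈ range n, (c j : ℤ) * z j = 0

/-- Validity of the constants. -/
structure PV (P : Par) (kin kcr sd c : ℕ → ℕ) : Prop where
  n2 : 2 ≤ P.n
  n18 : P.n ≤ 18
  hRW : P.RW = 12 * P.n
  hX : P.X = 2 ^ (12 * P.n)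
  hRN : P.RN = P.RW * (P.n - 1)
  hMSK : P.MSK = pkb P.X P.n (fun _ => 127)
  hBN : P.BN = 4096 ^ (P.n - 1)
  hXB : P.XB = P.X * 4096 - 1
  hKL : P.KL = pk P.n (fun i => kin i + 64 * kcr i)
  hKC : P.KC = pk P.n (fun i => kin i + 64 * kcr i + 1024 * sd i)
  hE0 : P.E0 = pk (P.n * P.n) (fun k => if k / P.n = k % P.n then 1 else 0)
  hON : P.ON = pk P.n (fun _ => 1)
  hM63 : P.M63 = pk P.n (fun _ => 63)
  hK2 : P.K2 = pk P.n (fun _ => 2047)
  hCV : P.CV = pk P.n c
  hSM0 : P.SM0 = pk P.n (fun i => 1 - sd i)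
  hSM1 : P.SM1 = pk P.n sd
  bin : ∀ i < P.n, kin i < 64
  bcr : ∀ i < P.n, kcr i < 16
  bsd : ∀ i < P.n, sd i ≤ 1
  bc : ∀ i < P.n, c i ≤ 2
  hc : ∀ i < P.n, ∀ j < P.n, kin i = kin j → kcr i = kcr j → sd i = sd j → c i = c j

/-- The state `(E, R)` represents the partial graph `A`. -/
structure St (P : Par) (sd : ℕ → ℕ) (E R : ℕ) (A : ℕ → ℕ → Bool) : Prop where
  symm : ∀ i < P.n, ∀ j < P.n, A i j = A j i
  irr : ∀ i < P.n, A i i = false
  hE : E = pk (P.n * P.n) (fun k => ee A (k / P.n) (k % P.n))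
  hR : R = P.KL - pk P.n (fun i => cin P.n sd A i + 64 * ccr P.n sd A i)

/-- `A` is contained in `g`. -/
def Sub (n : ℕ) (A g : ℕ → ℕ → Bool) : Prop := ∀ i < n, ∀ j < n, A i j = true → g i j = true

lemma ee_le (n : ℕ) (A : ℕ → ℕ → Bool) (irr : ∀ i < n, A i i = false) (i j : ℕ) (hi : i < n) :
    ee A i j ≤ 1 := by
  unfold ee
  by_cases h : i = j
  · subst h; simp [irr i hi]
  · simp only [h, if_false, add_zero]; split_ifs <;> simp

lemma sum_mul_range (n m : ℕ) (f : ℕ → ℕ) :
    ∑ k ∈ range (n * m), f k = ∑ v ∈ range m, ∑ j ∈ range n, f (n * v + j) := by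
  induction m with
  | zero => simp
  | succ m ih => rw [Nat.mul_succ, sum_range_add, ih, sum_range_succ]

/-- the matrix as a sum of rows -/
lemma mat_rows (n : ℕ) (a : ℕ → ℕ → ℕ) :
    pk (n * n) (fun k => a (k / n) (k % n)) = pkb (4096 ^ n) n (fun v => pk n (a v)) := by
  unfold pk pkb
  rw [sum_mul_range]
  refine sum_congr rfl fun v hv => ?_
  rw [sum_mul]
  refine sum_congr rfl fun j hj => ?_
  rw [mem_range] at hj hv
  have hn : 0 < n := by omega
  have h1 : (n * v + j) / n = v := by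
    rw [Nat.mul_add_div hn, Nat.div_eq_of_lt hj, add_zero]
  have h2 : (n * v + j) % n = j := by
    rw [Nat.mul_add_mod, Nat.mod_eq_of_lt hj]
  show a ((n * v + j) / n) ((n * v + j) % n) * 4096 ^ (n * v + j) = _
  rw [h1, h2, pow_add, pow_mul]
  ring

section

variable {P : Par} {kin kcr sd c : ℕ → ℕ} (hP : PV P kin kcr sd c)

include hP

lemma X_eq : P.X = 4096 ^ P.n := by
  rw [hP.hX, pow_mul]; norm_num

lemma row_eq {E R : ℕ} {A : ℕ → ℕ → Bool} (hS : St P sd E R A) (v : ℕ) (hv : v < P.n) :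
    rowF P E v = pk P.n (ee A v) := by
  unfold rowF
  show E >>> (P.RW * v) % P.X = _
  rw [Nat.shiftRight_eq_div_pow, hP.hRW, pow_mul, ← hP.hX, X_eq hP, hS.hE,
    mat_rows P.n (ee A)]
  apply pkb_dig _ _ _ _ _ hv
  intro i hi
  exact pkb_lt _ _ _ fun j _ => lt_of_le_of_lt (ee_le _ _ hS.irr i j hi) (by norm_num)

omit hP in
lemma edge_iff {E R : ℕ} {A : ℕ → ℕ → Bool} (hS : St P sd E R A) (i j : ℕ) (hi : i < P.n)
    (hj : j < P.n) : edgeB P.n E i j = true ↔ (A i j = true ∨ i = j) := by
  rw [edgeB_iff, hS.hE]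
  have hk : P.n * i + j < P.n * P.n := by
    calc P.n * i + j < P.n * i + P.n := by omega
      _ = P.n * (i + 1) := by ring
      _ ≤ P.n * P.n := Nat.mul_le_mul_left _ hi
  have hn : 0 < P.n := by omega
  have h1 : (P.n * i + j) / P.n = i := by
    rw [Nat.mul_add_div hn, Nat.div_eq_of_lt hj, add_zero]
  have h2 : (P.n * i + j) % P.n = j := by
    rw [Nat.mul_add_mod, Nat.mod_eq_of_lt hj]
  have h3 : pk (P.n * P.n) (fun k => ee A (k / P.n) (k % P.n)) / 4096 ^ (P.n * i + j) % 4096
      = ee A i j := by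
    rw [pkb_dig _ _ _ _ _ hk]
    · simp only [h1, h2]
    · intro k hk
      refine lt_of_le_of_lt (ee_le _ _ hS.irr _ _ ?_) (by norm_num)
      exact Nat.div_lt_of_lt_mul hk
  have h4 := ee_le _ _ hS.irr i j hi
  have h5 : pk (P.n * P.n) (fun k => ee A (k / P.n) (k % P.n)) / 4096 ^ (P.n * i + j) % 2
      = ee A i j := by
    have := Nat.mod_mod_of_dvd (pk (P.n * P.n) (fun k => ee A (k / P.n) (k % P.n)) /
      4096 ^ (P.n * i + j)) (show 2 ∣ 4096 by norm_num)
    rw [h3] at this
    omega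
  rw [h5]
  unfold ee
  by_cases hA : A i j = true
  · have : i ≠ j := by rintro rfl; rw [hS.irr i hi] at hA; simp at hA
    simp [hA, this]
  · rw [Bool.not_eq_true] at hA
    by_cases h : i = j
    · subst h; simp [hA]
    · simp [hA, h]

end

/-! ### spread vectors -/

/-- coefficients of the spread vector -/
def wd (P : Par) (W t : ℕ) : ℕ := W / P.X ^ t % P.X

/-- coefficient of vertex `v` -/
def yy (P : Par) (W v : ℕ) : ℕ := wd P W (P.n - 1 - v)

lemma digits_sum (b n W : ℕ) (h : W < b ^ n) : W = pkb b n (fun t => W / b ^ t % b) := by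
  induction n generalizing W with
  | zero => simp [pkb] at *; omega
  | succ n ih =>
    have hb : 0 < b := by
      rcases Nat.eq_zero_or_pos b with rfl | h0
      · simp at h
      · exact h0
    have h1 := ih (W / b) (by rw [pow_succ] at h; exact Nat.div_lt_of_lt_mul (by linarith [mul_comm (b^n) b]))
    have h2 : pkb b (n + 1) (fun t => W / b ^ t % b) = W % b + b * pkb b n (fun t => W / b / b ^ t % b) := by
      rw [add_comm n 1, pkb_add]
      simp only [pow_one]
      congr 1
      · simp [pkb]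
      · congr 1
        apply pkb_congr
        intro i _
        rw [Nat.div_div_eq_div_mul, ← pow_succ', add_comm 1 i]
    rw [h2, ← h1]
    exact (Nat.mod_add_div W b).symm

section

variable {P : Par} {kin kcr sd c : ℕ → ℕ} (hP : PV P kin kcr sd c)

include hP

lemma wv_le (s : ℕ) (t : ℕ) : wd P (wv P s) t ≤ 127 := by
  set W := wv P s with hW
  have hmask : ∀ p, W.testBit p = true → P.MSK.testBit p = true := by
    intro p hp
    rw [hW] at hp
    unfold wv at hp
    change ((s % P.P7 * P.SPR) &&& P.MSK).testBit p = true at hp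
    rw [Nat.testBit_land, Bool.and_eq_true] at hp
    exact hp.2
  have : wd P W t < 2 ^ 7 := by
    apply Nat.lt_pow_two_of_testBit
    intro q hq
    unfold wd
    rw [hP.hX, Nat.testBit_mod_two_pow, ← pow_mul, Nat.testBit_div_two_pow]
    by_cases hq2 : q < 12 * P.n
    · by_contra hcon
      rw [Bool.not_eq_false, Bool.and_eq_true] at hcon
      have h1 := hmask _ hcon.2
      rw [hP.hMSK, hP.hX, add_comm, tb (12 * P.n) P.n (fun _ => 127) _ t q hq2] at h1
      · rw [Bool.and_eq_true] at h1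
        have : (127 : ℕ).testBit q = false := by
          apply Nat.testBit_lt_two_pow
          calc 127 < 2 ^ 7 := by norm_num
            _ ≤ 2 ^ q := Nat.pow_le_pow_right (by norm_num) hq
        rw [this] at h1
        simp at h1
      · intro i _
        calc 127 < 2 ^ 7 := by norm_num
          _ ≤ 2 ^ (12 * P.n) := Nat.pow_le_pow_right (by norm_num) (by have := hP.n2; omega)
    · simp [hq2]
  omega

lemma wv_sum (s : ℕ) : wv P s = pkb P.X P.n (wd P (wv P s)) := by
  apply digits_sum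
  have h1 : wv P s ≤ P.MSK := by
    unfold wv
    exact Nat.and_le_right
  refine lt_of_le_of_lt h1 ?_
  rw [hP.hMSK]
  apply pkb_lt
  intro i _
  rw [hP.hX]
  calc 127 < 2 ^ 7 := by norm_num
    _ ≤ 2 ^ (12 * P.n) := Nat.pow_le_pow_right (by norm_num) (by have := hP.n2; omega)

lemma yy_le (s v : ℕ) : yy P (wv P s) v ≤ 127 := wv_le hP s _

lemma yv_eq (s : ℕ) : yv P (wv P s) = pk P.n (yy P (wv P s)) := by
  unfold yv
  show wv P s * P.BN % P.XB = _
  have hn := hP.n2
  have hXB : P.XB + 1 = P.X * 4096 := by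
    rw [hP.hXB, X_eq hP]
    have : 0 < 4096 ^ P.n * 4096 := by positivity
    omega
  have h1 : ∀ t, (P.X * 4096) ^ t ≡ 1 [MOD P.XB] := by
    intro t
    have : P.X * 4096 ≡ 1 [MOD P.XB] := by
      rw [← hXB]
      show (P.XB + 1) % P.XB = 1 % P.XB
      simp
    simpa using this.pow t
  have h2 : wv P s * P.BN ≡ pk P.n (yy P (wv P s)) [MOD P.XB] := by
    conv_lhs => rw [wv_sum hP s]
    have h3 : pk P.n (yy P (wv P s)) = ∑ t ∈ range P.n, wd P (wv P s) t * 4096 ^ (P.n - 1 - t) := by
      unfold pk pkb yy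
      rw [← sum_range_reflect]
      refine sum_congr rfl fun i hi => ?_
      rw [mem_range] at hi
      congr 2
      omega
    rw [h3]
    unfold pkb
    rw [sum_mul]
    have h4 : ∀ (m : ℕ), m ≤ P.n → ∑ i ∈ range m, wd P (wv P s) i * P.X ^ i * P.BN ≡
        ∑ t ∈ range m, wd P (wv P s) t * 4096 ^ (P.n - 1 - t) [MOD P.XB] := by
      intro m hm
      induction m with
      | zero => simp [Nat.ModEq.refl]
      | succ m ih =>
        rw [sum_range_succ, sum_range_succ]
        refine Nat.ModEq.add (ih (by omega)) ?_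
        have h5 : wd P (wv P s) m * P.X ^ m * P.BN
            = wd P (wv P s) m * 4096 ^ (P.n - 1 - m) * (P.X * 4096) ^ m := by
          rw [hP.hBN, mul_pow]
          have : 4096 ^ (P.n - 1) = 4096 ^ (P.n - 1 - m) * 4096 ^ m := by
            rw [← pow_add]; congr 1; omega
          rw [this]; ring
        rw [h5]
        conv_rhs => rw [← mul_one (wd P (wv P s) m * 4096 ^ (P.n - 1 - m))]
        exact Nat.ModEq.mul_left _ (h1 m)
    exact h4 _ le_rfl
  have h3 : pk P.n (yy P (wv P s)) < P.XB := by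
    have h4 : pk P.n (yy P (wv P s)) < 4096 ^ P.n := pkb_lt _ _ _ fun i _ =>
      lt_of_le_of_lt (yy_le hP s i) (by norm_num)
    have h5 : P.X = 4096 ^ P.n := X_eq hP
    have h6 : 0 < 4096 ^ P.n := by positivity
    have h7 : P.XB = 4096 ^ P.n * 4096 - 1 := by rw [hP.hXB, h5]
    omega
  have := h2
  unfold Nat.ModEq at this
  rw [this, Nat.mod_eq_of_lt h3]

/-- the linear combination of the rows of `1 + A` with coefficients `y` -/
def sg (n : ℕ) (A : ℕ → ℕ → Bool) (y : ℕ → ℕ) (j : ℕ) : ℕ := ∑ v ∈ range n, y v * ee A v j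

omit hP in
lemma sg_le (n : ℕ) (A : ℕ → ℕ → Bool) (irr : ∀ i < n, A i i = false) (y : ℕ → ℕ)
    (hy : ∀ v < n, y v ≤ 127) (hn : n ≤ 18) (j : ℕ) : sg n A y j ≤ 2286 := by
  unfold sg
  calc ∑ v ∈ range n, y v * ee A v j ≤ ∑ v ∈ range n, 127 := by
        refine sum_le_sum fun v hv => ?_
        rw [mem_range] at hv
        have h1 := hy v hv
        have h2 := ee_le n A irr v j hv
        calc y v * ee A v j ≤ 127 * 1 := Nat.mul_le_mul h1 h2
          _ = 127 := by norm_num
    _ = n * 127 := by simp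
    _ ≤ 18 * 127 := Nat.mul_le_mul_right _ hn
    _ = 2286 := by norm_num

lemma sv_eq {E R : ℕ} {A : ℕ → ℕ → Bool} (hS : St P sd E R A) (s : ℕ) :
    sv P E (wv P s) = pk P.n (sg P.n A (yy P (wv P s))) := by
  unfold sv
  show (E * wv P s) >>> P.RN % P.X = _
  set n := P.n with hn
  have hn2 : 2 ≤ n := hP.n2
  rw [Nat.shiftRight_eq_div_pow, hP.hRN, hP.hRW, pow_mul, ← hP.hX]
  set W := wv P s with hW
  have hXe : P.X = 4096 ^ n := X_eq hP
  have hE : E = pkb P.X n (fun v => pk n (ee A v)) := by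
    rw [hS.hE, hXe]; exact mat_rows n (ee A)
  set C : ℕ → ℕ := fun k => ∑ p ∈ (range n ×ˢ range n).filter (fun p => p.1 + p.2 = k),
    pk n (ee A p.1) * wd P W p.2 with hC
  have hprod : E * W = pkb P.X (2 * n) C := by
    have hWs : W = pkb P.X n (wd P W) := wv_sum hP s
    conv_lhs => rw [hE, hWs]
    unfold pkb
    rw [sum_mul_sum, ← sum_product']
    rw [← sum_fiberwise_of_maps_to (s := range n ×ˢ range n) (t := range (2 * n))
      (g := fun p => p.1 + p.2)]
    · refine sum_congr rfl fun k _ => ?_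
      rw [hC]
      simp only
      rw [sum_mul]
      refine sum_congr rfl fun p hp => ?_
      rw [mem_filter] at hp
      rw [← hp.2, pow_add]
      ring
    · intro p hp
      rw [mem_product, mem_range, mem_range] at hp
      rw [mem_range]; omega
  have hCfilter : ∀ k, C k = ∑ v ∈ range n, if k < v + n ∧ v ≤ k then pk n (ee A v) * wd P W (k - v) else 0 := by
    intro k
    rw [hC]
    simp only
    rw [sum_filter, sum_product]
    refine sum_congr rfl fun v hv => ?_
    rw [mem_range] at hv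
    split_ifs with h
    · rw [sum_eq_single (k - v)]
      · have : v + (k - v) = k := by omega
        simp [this]
      · intro t _ ht
        have : v + t ≠ k := by omega
        simp [this]
      · intro h'
        rw [mem_range] at h'
        omega
    · apply sum_eq_zero
      intro t ht
      rw [mem_range] at ht
      have : v + t ≠ k := by omega
      simp [this]
  have hCpk : ∀ k, C k = pk n (fun j => ∑ v ∈ range n, if k < v + n ∧ v ≤ k then
      wd P W (k - v) * ee A v j else 0) := by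
    intro k
    rw [hCfilter]
    unfold pk pkb
    simp_rw [sum_mul]
    rw [sum_comm]
    refine sum_congr rfl fun v _ => ?_
    split_ifs with h
    · refine sum_congr rfl fun j _ => ?_
      ring
    · simp
  have hClt : ∀ k < 2 * n, C k < P.X := by
    intro k _
    rw [hCpk, hXe]
    apply pkb_lt
    intro j _
    calc ∑ v ∈ range n, (if k < v + n ∧ v ≤ k then wd P W (k - v) * ee A v j else 0)
        ≤ ∑ v ∈ range n, 127 := by
          refine sum_le_sum fun v hv => ?_
          rw [mem_range] at hv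
          split_ifs
          · calc wd P W (k - v) * ee A v j ≤ 127 * 1 :=
                Nat.mul_le_mul (wv_le hP s _) (ee_le _ _ hS.irr v j hv)
              _ = 127 := by norm_num
          · norm_num
      _ = n * 127 := by simp
      _ ≤ 18 * 127 := Nat.mul_le_mul_right _ hP.n18
      _ < 4096 := by norm_num
  rw [hprod, pkb_dig _ _ _ _ hClt (by omega), hCpk]
  apply pkb_congr
  intro j _
  unfold sg
  refine sum_congr rfl fun v hv => ?_
  rw [mem_range] at hv
  rw [if_pos (by omega)]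
  rfl

end

end Pool.Agent.helper86.NutX
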