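import Mathlib
import Pool.Agent.helper86.NutX.Sem

set_option autoImplicit false

/-!
Soundness of the pruning certificates.
-/

namespace Pool.Agent.helper86.NutX

open Finset

lemma cin_mono (n : ℕ) (sd : ℕ → ℕ) (A g : ℕ → ℕ → Bool) (h : Sub n A g) (i : ℕ) (hi : i < n) :
    cin n sd A i ≤ cin n sd g i := by
  unfold cin
  refine sum_le_sum fun j hj => ?_
  have := h i hi j (mem_range.1 hj)
  split_ifs with h1 h2 <;> simp_all

lemma ccr_mono (n : ℕ) (sd : ℕ → ℕ) (A g : ℕ → ℕ → Bool) (h : Sub n A g) (i : ℕ) (hi : i < n) :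
    ccr n sd A i ≤ ccr n sd g i := by
  unfold ccr
  refine sum_le_sum fun j hj => ?_
  have := h i hi j (mem_range.1 hj)
  split_ifs with h1 h2 <;> simp_all

lemma cin_lt (n : ℕ) (sd : ℕ → ℕ) (A g : ℕ → ℕ → Bool) (h : Sub n A g) (i j : ℕ) (hi : i < n)
    (hj : j < n) (hA : A i j = false) (hg : g i j = true) (hs : sd i = sd j) :
    cin n sd A i < cin n sd g i := by
  unfold cin
  refine sum_lt_sum (fun j hj => ?_) ⟨j, mem_range.2 hj, ?_⟩
  · have := h i hi j (mem_range.1 hj)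
    split_ifs with h1 h2 <;> simp_all
  · simp [hA, hg, hs]

lemma ccr_lt (n : ℕ) (sd : ℕ → ℕ) (A g : ℕ → ℕ → Bool) (h : Sub n A g) (i j : ℕ) (hi : i < n)
    (hj : j < n) (hA : A i j = false) (hg : g i j = true) (hs : sd i ≠ sd j) :
    ccr n sd A i < ccr n sd g i := by
  unfold ccr
  refine sum_lt_sum (fun j hj => ?_) ⟨j, mem_range.2 hj, ?_⟩
  · have := h i hi j (mem_range.1 hj)
    split_ifs with h1 h2 <;> simp_all
  · simp [hA, hg, hs]

lemma complete_eq (n : ℕ) (sd : ℕ → ℕ) (A g : ℕ → ℕ → Bool) (h : Sub n A g) (i : ℕ) (hi : i < n)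
    (h1 : cin n sd A i = cin n sd g i) (h2 : ccr n sd A i = ccr n sd g i) :
    ∀ j < n, A i j = g i j := by
  intro j hj
  by_contra hne
  have hA : A i j = false := by
    by_contra hc
    rw [Bool.not_eq_false] at hc
    exact hne (by rw [hc, h i hi j hj hc])
  have hg : g i j = true := by
    rw [hA] at hne
    cases hgg : g i j
    · exact absurd hgg.symm hne
    · rfl
  by_cases hs : sd i = sd j
  · exact absurd h1 (ne_of_lt (cin_lt n sd A g h i j hi hj hA hg hs))
  · exact absurd h2 (ne_of_lt (ccr_lt n sd A g h i j hi hj hA hg hs))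

section

variable {P : Par} {kin kcr sd c : ℕ → ℕ} (hP : PV P kin kcr sd c)

/-- missing degrees -/
def rr (n : ℕ) (kin kcr sd : ℕ → ℕ) (A : ℕ → ℕ → Bool) (i : ℕ) : ℕ :=
  (kin i - cin n sd A i) + 64 * (kcr i - ccr n sd A i)

include hP

lemma rr_le (A : ℕ → ℕ → Bool) (i : ℕ) (hi : i < P.n) : rr P.n kin kcr sd A i ≤ 1023 := by
  unfold rr
  have h1 := hP.bin i hi
  have h2 := hP.bcr i hi
  omega

lemma R_pk {E R : ℕ} {A g : ℕ → ℕ → Bool} {z : ℕ → ℤ} (hS : St P sd E R A)
    (hg : Good P.n kin kcr sd c g z) (hsub : Sub P.n A g) :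
    R = pk P.n (rr P.n kin kcr sd A) := by
  rw [hS.hR, hP.hKL, pk_sub]
  · apply pkb_congr
    intro i hi
    unfold rr
    have h1 := cin_mono P.n sd A g hsub i hi
    have h2 := ccr_mono P.n sd A g hsub i hi
    rw [← hg.hin i hi] at h1
    rw [← hg.hcr i hi] at h2
    omega
  · intro i hi
    have h1 := cin_mono P.n sd A g hsub i hi
    have h2 := ccr_mono P.n sd A g hsub i hi
    rw [← hg.hin i hi] at h1
    rw [← hg.hcr i hi] at h2
    omega

lemma rr_zero {A g : ℕ → ℕ → Bool} {z : ℕ → ℤ}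
    (hg : Good P.n kin kcr sd c g z) (hsub : Sub P.n A g) (i : ℕ) (hi : i < P.n)
    (h : rr P.n kin kcr sd A i = 0) : ∀ j < P.n, A i j = g i j := by
  unfold rr at h
  have h1 := cin_mono P.n sd A g hsub i hi
  have h2 := ccr_mono P.n sd A g hsub i hi
  rw [← hg.hin i hi] at h1
  rw [← hg.hcr i hi] at h2
  apply complete_eq P.n sd A g hsub i hi
  · rw [← hg.hin i hi]; omega
  · rw [← hg.hcr i hi]; omega

/-- mask of the entries at least one -/
lemma ge_mask (r m : ℕ → ℕ) (hr : ∀ i < P.n, r i ≤ 2048) (hm : ∀ i < P.n, m i ≤ 1) :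
    Nat.land (Nat.shiftRight (Nat.add (pk P.n r) P.K2) 11) (pk P.n m)
      = pk P.n (fun i => if 1 ≤ r i then m i else 0) := by
  show ((pk P.n r + P.K2) >>> 11) &&& pk P.n m = _
  rw [hP.hK2, pk_add, pk_shift_land P.n 11 _ _ _ 1]
  · apply pkb_congr
    intro i hi
    have h1 := hr i hi
    have h2 := hm i hi
    have h3 : (r i + 2047) >>> 11 = if 1 ≤ r i then 1 else 0 := by
      rw [Nat.shiftRight_eq_div_pow]
      split_ifs with h
      · have : (r i + 2047) / 2 ^ 11 = 1 := by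
          apply Nat.div_eq_of_lt_le <;> norm_num <;> omega
        exact this
      · apply Nat.div_eq_of_lt; norm_num; omega
    rw [h3]
    split_ifs
    · interval_cases (m i) <;> rfl
    · simp
  · intro i hi
    have h1 := hm i hi
    norm_num; omega
  · norm_num
  · intro i hi
    have := hr i hi
    omega

lemma okY_sound {R : ℕ} {y r : ℕ → ℕ} (hR : R = pk P.n r) (hr : ∀ i < P.n, r i ≤ 1023)
    (hy : ∀ i < P.n, y i ≤ 127) (h : okY P R (pk P.n y) = true) :
    ∀ v < P.n, y v ≠ 0 → r v = 0 := by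
  unfold okY at h
  rw [nbeq, hP.hON, hR, ge_mask hP r _ (fun i hi => by have := hr i hi; omega) (fun _ _ => le_rfl)]
    at h
  have h2 : Nat.mul (pk P.n fun i => if 1 ≤ r i then 1 else 0) 4095
      = pk P.n (fun i => if 1 ≤ r i then 4095 else 0) := by
    show (pk P.n fun i => if 1 ≤ r i then 1 else 0) * 4095 = _
    rw [mul_comm, pk_mul]
    apply pkb_congr
    intro i _
    split_ifs <;> rfl
  rw [h2] at h
  change pk P.n y &&& pk P.n (fun i => if 1 ≤ r i then 4095 else 0) = 0 at h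
  rw [pk_land] at h
  · intro v hv hyv
    by_contra hrv
    have h3 : pk P.n (fun i => y i &&& if 1 ≤ r i then 4095 else 0) = pk P.n (fun _ => 0) := by
      rw [h]; simp [pkb]
    have h4 := pkb_inj 4096 P.n _ _ (by
      intro i hi
      exact lt_of_le_of_lt Nat.and_le_left (by have := hy i hi; omega)) (by intros; norm_num) h3 v hv
    rw [if_pos (by omega)] at h4
    have h5 : y v &&& 4095 = y v := by
      have : (4095 : ℕ) = 2 ^ 12 - 1 := by norm_num
      rw [this, Nat.and_two_pow_sub_one_eq_mod]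
      apply Nat.mod_eq_of_lt
      have := hy v hv
      norm_num; omega
    rw [h5] at h4
    exact hyv h4
  · intro i hi
    have := hy i hi
    omega
  · intro i _
    split_ifs <;> norm_num

omit hP in
lemma ee_sum (n : ℕ) (A : ℕ → ℕ → Bool) (z : ℕ → ℤ) (v : ℕ) (hv : v < n) :
    ∑ j ∈ range n, (ee A v j : ℤ) * z j = z v + ∑ j ∈ range n, (if A v j = true then z j else 0) := by
  unfold ee
  push_cast
  simp_rw [add_mul, ite_mul, one_mul, zero_mul]
  rw [sum_add_distrib, add_comm]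
  congr 1
  rw [sum_ite_eq]
  simp [hv]

omit hP in
lemma rel {n : ℕ} {A g : ℕ → ℕ → Bool} {z : ℕ → ℤ}
    (hg : Good n kin kcr sd c g z) (y : ℕ → ℕ)
    (hy : ∀ v < n, y v ≠ 0 → ∀ j < n, A v j = g v j) :
    ∑ j ∈ range n, (sg n A y j : ℤ) * z j = 0 := by
  unfold sg
  push_cast
  simp_rw [sum_mul]
  rw [sum_comm]
  apply sum_eq_zero
  intro v hv
  rw [mem_range] at hv
  by_cases h : y v = 0
  · simp [h]
  · simp_rw [mul_assoc]
    rw [← mul_sum, ee_sum n A z v hv]
    have h1 : ∑ j ∈ range n, (if A v j = true then z j else 0)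
        = ∑ j ∈ range n, (if g v j = true then z j else 0) := by
      refine sum_congr rfl fun j hj => ?_
      rw [hy v hv h j (mem_range.1 hj)]
    rw [h1, hg.ker v hv, mul_zero]

/-- parity certificate -/
lemma par1_sound {T : ℕ} {τ : ℕ → ℕ} {z : ℕ → ℤ} (hT : T = pk P.n τ) (hτ : ∀ i < P.n, τ i < 4096)
    (m : ℕ) (hm : m < 8) (h : par1 P T m = true)
    (hz : ∑ j ∈ range P.n, (τ j : ℤ) * z j = 0) (hpar : ∀ i < P.n, z i % 2 = sd i) : False := by
  unfold par1 at h
  obtain ⟨h1, h2⟩ := bi_and h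
  rw [nbeq] at h1 h2
  have hpow : (1 : ℕ) <<< m = 2 ^ m := by rw [Nat.shiftLeft_eq, one_mul]
  have hdiv : ∀ j < P.n, 2 ^ m ∣ τ j := by
    change T &&& (P.ON * (1 <<< m - 1)) = 0 at h1
    rw [hpow, hP.hON, mul_comm, pk_mul, hT, pk_land] at h1
    · intro j hj
      have h3 : pk P.n (fun i => τ i &&& ((2 ^ m - 1) * 1)) = pk P.n (fun _ => 0) := by
        rw [h1]; simp [pkb]
      have h4 := pkb_inj 4096 P.n _ _ (by
        intro i hi
        exact lt_of_le_of_lt Nat.and_le_left (hτ i hi)) (by intros; norm_num) h3 j hj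
      rw [mul_one, Nat.and_two_pow_sub_one_eq_mod] at h4
      exact Nat.dvd_of_mod_eq_zero h4
    · exact hτ
    · intro i _
      have : 2 ^ m ≤ 2 ^ 7 := Nat.pow_le_pow_right (by norm_num) (by omega)
      norm_num at this ⊢
      omega
  -- quotients
  set q : ℕ → ℕ := fun j => τ j / 2 ^ m with hq
  have hqz : ∑ j ∈ range P.n, (q j : ℤ) * z j = 0 := by
    have h3 : (2 ^ m : ℤ) * ∑ j ∈ range P.n, (q j : ℤ) * z j = 0 := by
      rw [← hz, mul_sum]
      refine sum_congr rfl fun j hj => ?_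
      rw [mem_range] at hj
      have : (τ j : ℤ) = 2 ^ m * q j := by
        have := Nat.mul_div_cancel' (hdiv j hj)
        rw [hq]; exact_mod_cast this.symm
      rw [this]; ring
    rcases mul_eq_zero.1 h3 with h4 | h4
    · exact absurd h4 (by positivity)
    · exact h4
  have hpar2 : (∑ j ∈ range P.n, q j * sd j) % 2 = 0 := by
    have h3 : ((∑ j ∈ range P.n, q j * sd j : ℕ) : ℤ) % 2 = (∑ j ∈ range P.n, (q j : ℤ) * z j) % 2 := by
      push_cast
      rw [Finset.sum_int_mod, Finset.sum_int_mod (range P.n) 2 (fun j => (q j : ℤ) * z j)]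
      congr 1
      refine sum_congr rfl fun j hj => ?_
      rw [mem_range] at hj
      rw [Int.mul_emod, Int.mul_emod (q j : ℤ) (z j), ← hpar j hj, Int.emod_emod_of_dvd _ (dvd_refl 2)]
    rw [hqz] at h3
    omega
  -- the popcount
  change ((T >>> m) &&& P.SM1) % 4095 % 2 = 1 at h2
  rw [hT, hP.hSM1, pk_shift_land P.n m _ _ hτ 1 (by
    intro i hi; have := hP.bsd i hi; norm_num; omega) (by omega)] at h2
  set χ : ℕ → ℕ := fun i => (τ i >>> m) &&& sd i with hχ
  have hχ2 : ∀ i < P.n, χ i ≤ 1 ∧ χ i % 2 = (q i * sd i) % 2 := by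
    intro i hi
    have h3 := hP.bsd i hi
    rw [hχ, hq]
    simp only
    rw [Nat.shiftRight_eq_div_pow]
    interval_cases (sd i)
    · simp
    · rw [Nat.and_one_is_mod, mul_one]
      omega
  have h3 : pk P.n χ % 4095 = ∑ i ∈ range P.n, χ i := by
    have h4 : pk P.n χ ≡ ∑ i ∈ range P.n, χ i [MOD 4095] := by
      unfold pk pkb
      have h5 : ∀ i, χ i * 4096 ^ i ≡ χ i [MOD 4095] := by
        intro i
        have : 4096 ^ i ≡ 1 [MOD 4095] := by
          have h6 : (4096 : ℕ) ≡ 1 [MOD 4095] := by decide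
          simpa using h6.pow i
        simpa using Nat.ModEq.mul_left (χ i) this
      have h7 : ∀ k, ∑ i ∈ range k, χ i * 4096 ^ i ≡ ∑ i ∈ range k, χ i [MOD 4095] := by
        intro k
        induction k with
        | zero => simp [Nat.ModEq.refl]
        | succ k ih => rw [sum_range_succ, sum_range_succ]; exact ih.add (h5 k)
      exact h7 _
    have h8 : ∑ i ∈ range P.n, χ i ≤ 18 := by
      calc ∑ i ∈ range P.n, χ i ≤ ∑ i ∈ range P.n, 1 := sum_le_sum fun i hi => (hχ2 i (mem_range.1 hi)).1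
        _ = P.n := by simp
        _ ≤ 18 := hP.n18
    unfold Nat.ModEq at h4
    rw [h4]
    apply Nat.mod_eq_of_lt
    omega
  have h4 : (∑ i ∈ range P.n, χ i) % 2 = (∑ j ∈ range P.n, q j * sd j) % 2 := by
    rw [Finset.sum_nat_mod, Finset.sum_nat_mod (range P.n) 2 (fun j => q j * sd j)]
    congr 1
    refine sum_congr rfl fun i hi => ?_
    exact (hχ2 i (mem_range.1 hi)).2
  rw [h3, h4, hpar2] at h2
  norm_num at h2

lemma node1_sound {E R s : ℕ} {k : ℕ → Bool} {A : ℕ → ℕ → Bool} (hS : St P sd E R A)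
    (h : node1 P E R s k = true) :
    (∃ s', k s' = true) ∧ ∀ g z, Good P.n kin kcr sd c g z → ¬ Sub P.n A g := by
  unfold node1 at h
  obtain ⟨h1, h2⟩ := bi_and h
  obtain ⟨h3, h4⟩ := bi_and h2
  refine ⟨⟨_, h4⟩, ?_⟩
  intro g z hg hsub
  set s' := Nat.shiftRight s 22 with hs'
  set y := yy P (wv P s') with hy
  have hR := R_pk hP hS hg hsub
  rw [yv_eq hP] at h1
  have hc := okY_sound hP hR (rr_le hP A) (fun i _ => yy_le hP s' i) h1
  have hrel := rel (A := A) hg y (fun v hv hyv => rr_zero hP hg hsub v hv (hc v hv hyv))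
  rw [sv_eq hP hS, hP.hON, hP.hCV] at h3
  set al := Nat.mod (Nat.shiftRight s 6) 256 with hal
  set be := Nat.mod (Nat.shiftRight s 14) 256 with hbe
  have hal2 : al < 256 := Nat.mod_lt _ (by norm_num)
  have hbe2 : be < 256 := Nat.mod_lt _ (by norm_num)
  have hT : Nat.add (Nat.add (pk P.n (sg P.n A y)) (Nat.mul al (pk P.n fun _ => 1)))
      (Nat.mul be (pk P.n c)) = pk P.n (fun j => sg P.n A y j + al * 1 + be * c j) := by
    show pk P.n (sg P.n A y) + al * (pk P.n fun _ => 1) + be * pk P.n c = _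
    rw [pk_mul, pk_mul, pk_add, pk_add]
  refine par1_sound hP hT ?_ _ (Nat.mod_lt _ (by norm_num)) h3 ?_ hg.par
  · intro i hi
    have h5 := sg_le P.n A hS.irr y (fun v _ => yy_le hP s' v) hP.n18 i
    have h6 : be * c i ≤ 255 * 2 := Nat.mul_le_mul (by omega) (hP.bc i hi)
    omega
  · push_cast
    simp_rw [add_mul, mul_one]
    rw [sum_add_distrib, sum_add_distrib, hrel, ← mul_sum, hg.s0]
    simp_rw [mul_assoc]
    rw [← mul_sum, hg.s1]
    simp

lemma node2_sound {E R s : ℕ} {k : ℕ → Bool} {A : ℕ → ℕ → Bool} (hS : St P sd E R A)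
    (h : node2 P E R s k = true) :
    (∃ s', k s' = true) ∧ ∀ g z, Good P.n kin kcr sd c g z → ¬ Sub P.n A g := by
  unfold node2 at h
  obtain ⟨h1, h⟩ := bi_and h
  obtain ⟨h2, h⟩ := bi_and h
  obtain ⟨h3, h⟩ := bi_and h
  obtain ⟨h4, h⟩ := bi_and h
  obtain ⟨h5, h⟩ := bi_and h
  refine ⟨⟨_, h⟩, ?_⟩
  intro g z hg hsub
  rw [nble] at h4 h5
  set s1 := Nat.shiftRight s 48 with hs1
  set s2 := Nat.shiftRight s1 P.W7 with hs2
  have hR := R_pk hP hS hg hsub
  rw [yv_eq hP] at h1 h2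
  have hc1 := okY_sound hP hR (rr_le hP A) (fun i _ => yy_le hP s1 i) h1
  have hc2 := okY_sound hP hR (rr_le hP A) (fun i _ => yy_le hP s2 i) h2
  have hr1 := rel (A := A) hg _ (fun v hv hyv => rr_zero hP hg hsub v hv (hc1 v hv hyv))
  have hr2 := rel (A := A) hg _ (fun v hv hyv => rr_zero hP hg hsub v hv (hc2 v hv hyv))
  set y1 := yy P (wv P s1) with hy1
  set y2 := yy P (wv P s2) with hy2
  unfold fin2 at h3
  rw [sv_eq hP hS, sv_eq hP hS, hP.hON, hP.hCV, nbeq] at h3
  set a := Nat.mod (Nat.shiftRight s 3) 32 with ha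
  set cc := Nat.mod (Nat.shiftRight s 8) 256 with hcc
  set al1 := Nat.mod (Nat.shiftRight s 16) 256 with hal1
  set be1 := Nat.mod (Nat.shiftRight s 24) 256 with hbe1
  set al2 := Nat.mod (Nat.shiftRight s 32) 256 with hal2
  set be2 := Nat.mod (Nat.shiftRight s 40) 256 with hbe2
  have b0 : cc < 256 := Nat.mod_lt _ (by norm_num)
  have b1 : al1 < 256 := Nat.mod_lt _ (by norm_num)
  have b2 : be1 < 256 := Nat.mod_lt _ (by norm_num)
  have b3 : al2 < 256 := Nat.mod_lt _ (by norm_num)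
  have b4 : be2 < 256 := Nat.mod_lt _ (by norm_num)
  change pk P.n (sg P.n A y1) + al1 * (pk P.n fun _ => 1) + be1 * pk P.n c
    = pk P.n (sg P.n A y2) + al2 * (pk P.n fun _ => 1) + be2 * pk P.n c + cc * uv a at h3
  rw [uv_eq, pk_single P.n a cc h4, pk_mul, pk_mul, pk_mul, pk_mul, pk_add, pk_add, pk_add, pk_add,
    pk_add] at h3
  have h6 := pkb_inj 4096 P.n _ _ (by
    intro i hi
    have h5 := sg_le P.n A hS.irr y1 (fun v _ => yy_le hP s1 v) hP.n18 i
    have h6 : be1 * c i ≤ 255 * 2 := Nat.mul_le_mul (by omega) (hP.bc i hi)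
    omega) (by
    intro i hi
    have h5 := sg_le P.n A hS.irr y2 (fun v _ => yy_le hP s2 v) hP.n18 i
    have h6 : be2 * c i ≤ 255 * 2 := Nat.mul_le_mul (by omega) (hP.bc i hi)
    split_ifs <;> omega) h3
  have h7 : ∑ j ∈ range P.n, ((sg P.n A y1 j + al1 * 1 + be1 * c j : ℕ) : ℤ) * z j
      = ∑ j ∈ range P.n, ((sg P.n A y2 j + al2 * 1 + be2 * c j + (if j = a then cc else 0) : ℕ) : ℤ) * z j := by
    refine sum_congr rfl fun j hj => ?_
    rw [h6 j (mem_range.1 hj)]
  push_cast at h7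
  simp_rw [add_mul, mul_one, mul_assoc] at h7
  rw [sum_add_distrib, sum_add_distrib, sum_add_distrib, sum_add_distrib, sum_add_distrib, hr1, hr2,
    ← mul_sum, ← mul_sum, ← mul_sum, ← mul_sum, hg.s0, hg.s1] at h7
  simp only [mul_zero, add_zero, zero_add, ite_mul, zero_mul] at h7
  rw [sum_ite_eq' (range P.n) a (fun j => (cc : ℤ) * z j)] at h7
  rw [if_pos (mem_range.2 h4)] at h7
  have h8 := hg.ne a h4
  rcases mul_eq_zero.1 h7.symm with h9 | h9
  · have : (1 : ℤ) ≤ cc := by exact_mod_cast h5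
    omega
  · exact h8 h9

lemma node3_sound {E R s : ℕ} {k : ℕ → Bool} {A : ℕ → ℕ → Bool} (hS : St P sd E R A)
    (h : node3 P E R s k = true) :
    (∃ s', k s' = true) ∧ ∀ g z, Good P.n kin kcr sd c g z → ¬ Sub P.n A g := by
  unfold node3 at h
  obtain ⟨h1, h⟩ := bi_and h
  obtain ⟨h2, h⟩ := bi_and h
  obtain ⟨h3, h⟩ := bi_and h
  set s1 := Nat.shiftRight s 8 with hs1
  set s2 := Nat.shiftRight s1 P.W7 with hs2
  set f := Nat.mod (Nat.shiftRight s 3) 32 with hf
  have h4 : Nat.beq (yv P (wv P s1)) (yv P (wv P s2)) = false ∧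
      bi (Nat.ble (Nat.succ f) P.n) (bi (Nat.beq (dg (yv P (wv P s1)) f) 0)
        (bi (Nat.beq (dg (yv P (wv P s2)) f) 0)
          (k (Nat.shiftRight (Nat.shiftRight (Nat.shiftRight s 8) P.W7) P.W7))
          false) false) false = true := by
    cases hb : Nat.beq (yv P (wv P s1)) (yv P (wv P s2))
    · rw [hb] at h; exact ⟨rfl, h⟩
    · rw [hb] at h; simp at h
  obtain ⟨h4, h⟩ := h4
  obtain ⟨h5, h⟩ := bi_and h
  obtain ⟨h6, h⟩ := bi_and h
  obtain ⟨h7, h⟩ := bi_and h
  refine ⟨⟨_, h⟩, ?_⟩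
  intro g z hg hsub
  have hR := R_pk hP hS hg hsub
  rw [yv_eq hP] at h1 h2
  have hc1 := okY_sound hP hR (rr_le hP A) (fun i _ => yy_le hP s1 i) h1
  have hc2 := okY_sound hP hR (rr_le hP A) (fun i _ => yy_le hP s2 i) h2
  rw [nbeq, sv_eq hP hS, sv_eq hP hS] at h3
  rw [nbeqf, yv_eq hP, yv_eq hP] at h4
  rw [nble] at h5
  have hb1 : ∀ i < P.n, yy P (wv P s1) i < 4096 := fun i _ =>
    lt_of_le_of_lt (yy_le hP s1 i) (by norm_num)
  have hb2 : ∀ i < P.n, yy P (wv P s2) i < 4096 := fun i _ =>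
    lt_of_le_of_lt (yy_le hP s2 i) (by norm_num)
  rw [nbeq, yv_eq hP, dg_pk _ _ _ hb1 h5] at h6
  rw [nbeq, yv_eq hP, dg_pk _ _ _ hb2 h5] at h7
  set y1 := yy P (wv P s1) with hy1
  set y2 := yy P (wv P s2) with hy2
  have h8 := pkb_inj 4096 P.n _ _ (by
    intro i _
    exact lt_of_le_of_lt (sg_le P.n A hS.irr y1 (fun v _ => yy_le hP s1 v) hP.n18 i) (by norm_num))
    (by
    intro i _
    exact lt_of_le_of_lt (sg_le P.n A hS.irr y2 (fun v _ => yy_le hP s2 v) hP.n18 i) (by norm_num)) h3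
  have key : ∀ i < P.n, ((y1 i : ℤ) - y2 i) + ∑ j ∈ range P.n,
      (if g i j = true then ((y1 j : ℤ) - y2 j) else 0) = 0 := by
    intro i hi
    have h9 : ∑ j ∈ range P.n, (if g i j = true then ((y1 j : ℤ) - y2 j) else 0)
        = ∑ j ∈ range P.n, (if A j i = true then ((y1 j : ℤ) - y2 j) else 0) := by
      refine sum_congr rfl fun j hj => ?_
      rw [mem_range] at hj
      by_cases hz1 : y1 j = 0
      · by_cases hz2 : y2 j = 0
        · simp [hz1, hz2]
        · rw [rr_zero hP hg hsub j hj (hc2 j hj hz2) i hi, hg.symm i hi j hj]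
      · rw [rr_zero hP hg hsub j hj (hc1 j hj hz1) i hi, hg.symm i hi j hj]
    rw [h9]
    have h10 : ∀ y : ℕ → ℕ, (sg P.n A y i : ℤ) = y i + ∑ j ∈ range P.n,
        (if A j i = true then (y j : ℤ) else 0) := by
      intro y
      unfold sg ee
      push_cast
      simp_rw [mul_add, mul_ite, mul_one, mul_zero]
      rw [sum_add_distrib, add_comm]
      congr 1
      rw [sum_ite_eq' (range P.n) i (fun j => (y j : ℤ))]
      simp [hi]
    have h11 := h10 y1
    have h12 := h10 y2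
    rw [h8 i hi] at h11
    rw [h11] at h12
    have h13 : ∑ j ∈ range P.n, (if A j i = true then ((y1 j : ℤ) - y2 j) else 0)
        = ∑ j ∈ range P.n, (if A j i = true then (y1 j : ℤ) else 0)
          - ∑ j ∈ range P.n, (if A j i = true then (y2 j : ℤ) else 0) := by
      rw [← sum_sub_distrib]
      refine sum_congr rfl fun j _ => ?_
      split_ifs <;> simp
    rw [h13]
    linarith
  rcases hg.simple (fun j => (y1 j : ℤ) - y2 j) key with h9 | h9
  · apply h4
    apply pkb_congr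
    intro i hi
    have := h9 i hi
    omega
  · apply h9 f h5
    rw [h6, h7]; simp

end

end Pool.Agent.helper86.NutX
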