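import Mathlib
import Pool.Agent.helper86.NutX.Cert

set_option autoImplicit false

/-!
Soundness of the search.
-/

namespace Pool.Agent.helper86.NutX

open Finset

/-- relabelling -/
lemma Good.relabel {n : ℕ} {kin kcr sd c : ℕ → ℕ} {g : ℕ → ℕ → Bool} {z : ℕ → ℤ}
    (hg : Good n kin kcr sd c g z) (π : ℕ → ℕ) (hlt : ∀ i < n, π i < n)
    (hinj : ∀ i < n, ∀ j < n, π i = π j → i = j)
    (h1 : ∀ i < n, kin (π i) = kin i) (h2 : ∀ i < n, kcr (π i) = kcr i)
    (h3 : ∀ i < n, sd (π i) = sd i) (h4 : ∀ i < n, c (π i) = c i) :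
    Good n kin kcr sd c (fun i j => g (π i) (π j)) (fun i => z (π i)) := by
  classical
  have hmaps : Set.MapsTo π (range n : Set ℕ) (range n) := fun i hi => by
    simp only [coe_range, Set.mem_Iio] at hi ⊢
    exact hlt i hi
  have hinjOn : Set.InjOn π (range n : Set ℕ) := fun i hi j hj h => by
    simp only [coe_range, Set.mem_Iio] at hi hj
    exact hinj i hi j hj h
  have hsurj : Set.SurjOn π (range n : Set ℕ) (range n) :=
    Finset.surjOn_of_injOn_of_card_le π hmaps hinjOn le_rfl
  have hsum : ∀ {M : Type} [AddCommMonoid M] (F : ℕ → M),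
      ∑ j ∈ range n, F (π j) = ∑ j ∈ range n, F j := by
    intro M _ F
    exact sum_nbij π (fun i hi => hmaps hi) hinjOn hsurj (fun i _ => rfl)
  have hρ : ∀ i, ∃ j, i < n → j < n ∧ π j = i := by
    intro i
    by_cases hi : i < n
    · obtain ⟨j, hj, hji⟩ := hsurj (show i ∈ (range n : Set ℕ) by simpa using hi)
      exact ⟨j, fun _ => ⟨by simpa using hj, hji⟩⟩
    · exact ⟨0, fun h => absurd h hi⟩
  choose ρ hρ using hρ
  have hρπ : ∀ j < n, ρ (π j) = j := fun j hj =>
    hinj _ (hρ _ (hlt j hj)).1 _ hj (hρ _ (hlt j hj)).2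
  refine ⟨?_, ?_, ?_, ?_, ?_, ?_, ?_, ?_, ?_, ?_⟩
  · intro i hi j hj
    exact hg.symm _ (hlt i hi) _ (hlt j hj)
  · intro i hi
    exact hg.irr _ (hlt i hi)
  · intro i hi
    have := hg.ker (π i) (hlt i hi)
    rw [← hsum (fun j => if g (π i) j = true then z j else 0)] at this
    exact this
  · intro i hi
    exact hg.ne _ (hlt i hi)
  · intro y hy
    have h5 := hg.simple (fun i => y (ρ i)) (by
      intro i hi
      have h6 := hy (ρ i) (hρ i hi).1
      simp only [(hρ i hi).2] at h6
      rw [← hsum (fun j => if g i j = true then y (ρ j) else 0)]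
      have h7 : ∑ j ∈ range n, (if g i (π j) = true then y (ρ (π j)) else 0)
          = ∑ j ∈ range n, (if g i (π j) = true then y j else 0) := by
        refine sum_congr rfl fun j hj => ?_
        rw [hρπ j (mem_range.1 hj)]
      rw [h7]
      exact h6)
    rcases h5 with h5 | h5
    · left
      intro i hi
      have := h5 (π i) (hlt i hi)
      simp only [hρπ i hi] at this
      exact this
    · right
      intro i hi
      have := h5 (π i) (hlt i hi)
      simp only [hρπ i hi] at this
      exact this
  · intro i hi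
    rw [hg.par _ (hlt i hi), h3 i hi]
  · intro i hi
    rw [← h1 i hi, hg.hin _ (hlt i hi)]
    unfold cin
    rw [← hsum (fun j => if g (π i) j = true ∧ sd (π i) = sd j then 1 else 0)]
    refine sum_congr rfl fun j hj => ?_
    rw [h3 i hi, h3 j (mem_range.1 hj)]
  · intro i hi
    rw [← h2 i hi, hg.hcr _ (hlt i hi)]
    unfold ccr
    rw [← hsum (fun j => if g (π i) j = true ∧ sd (π i) ≠ sd j then 1 else 0)]
    refine sum_congr rfl fun j hj => ?_
    rw [h3 i hi, h3 j (mem_range.1 hj)]
  · rw [hsum z]; exact hg.s0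
  · have := hg.s1
    rw [← hsum (fun j => (c j : ℤ) * z j)] at this
    rw [← this]
    refine sum_congr rfl fun j hj => ?_
    rw [h4 j (mem_range.1 hj)]

/-- edges of an edge list -/
def edl : ℕ → ℕ → List (ℕ × ℕ)
  | 0, _ => []
  | f + 1, L => if L = 0 then [] else (L % 32, (L / 32) % 32) :: edl f (L / 1024)

/-- table entry -/
def tabL (P : Par) (idx : ℕ) : ℕ := Nat.mod (Nat.shiftRight P.TAB (Nat.mul P.TW idx)) P.TM

/-- some good graph contains the graph of the edge list `L` -/
def EmbT (n : ℕ) (kin kcr sd c : ℕ → ℕ) (L : ℕ) : Prop :=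
  ∃ g z, Good n kin kcr sd c g z ∧
    ∀ p ∈ edl 31 L, p.1 < n → p.2 < n → p.1 ≠ p.2 → g p.1 p.2 = true

/-- add an edge -/
def addA (A : ℕ → ℕ → Bool) (i j : ℕ) (a b : ℕ) : Bool :=
  A a b || (decide (a = i) && decide (b = j)) || (decide (a = j) && decide (b = i))

section

variable {P : Par} {kin kcr sd c : ℕ → ℕ} (hP : PV P kin kcr sd c)

include hP

lemma kc_eq {i j : ℕ} (hi : i < P.n) (hj : j < P.n) (h : dg P.KC i = dg P.KC j) :
    kin i = kin j ∧ kcr i = kcr j ∧ sd i = sd j ∧ c i = c j := by
  rw [hP.hKC, dg_pk, dg_pk] at h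
  · have a1 := hP.bin i hi
    have a2 := hP.bcr i hi
    have a3 := hP.bsd i hi
    have b1 := hP.bin j hj
    have b2 := hP.bcr j hj
    have b3 := hP.bsd j hj
    have h1 : kin i = kin j := by omega
    have h2 : kcr i = kcr j := by omega
    have h3 : sd i = sd j := by omega
    exact ⟨h1, h2, h3, hP.hc i hi j hj h1 h2 h3⟩
  all_goals first
    | assumption
    | (intro t ht
       have a1 := hP.bin t ht
       have a2 := hP.bcr t ht
       have a3 := hP.bsd t ht
       omega)

omit hP in
lemma add_state {E R : ℕ} {A : ℕ → ℕ → Bool} (hS : St P sd E R A) {i j : ℕ} (hi : i < P.n)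
    (hj : j < P.n) (hij : i ≠ j) (hA : A i j = false) (val : ℕ)
    (hval : val = if sd i = sd j then 1 else 64) :
    St P sd (addE P.n E i j) (subR R i j val) (addA A i j) := by
  have hAji : A j i = false := by rw [← hS.symm i hi j hj]; exact hA
  refine ⟨?_, ?_, ?_, ?_⟩
  · intro a ha b hb
    unfold addA
    rw [hS.symm a ha b hb]
    cases A b a <;> cases decide (a = i) <;> cases decide (b = j) <;> cases decide (a = j) <;>
      cases decide (b = i) <;> rfl
  · intro a ha
    unfold addA
    rw [hS.irr a ha]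
    by_cases h1 : a = i
    · subst h1; simp [hij]
    · simp [h1]
  · unfold addE
    show E + uv (P.n * i + j) + uv (P.n * j + i) = _
    have hn : 0 < P.n := by omega
    have lt1 : ∀ a < P.n, ∀ b < P.n, P.n * a + b < P.n * P.n := by
      intro a ha b hb
      calc P.n * a + b < P.n * a + P.n := by omega
        _ = P.n * (a + 1) := by ring
        _ ≤ P.n * P.n := Nat.mul_le_mul_left _ ha
    rw [uv_pk _ _ (lt1 i hi j hj), uv_pk _ _ (lt1 j hj i hi), hS.hE, pk_add, pk_add]
    apply pkb_congr
    intro k hk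
    have hdm := Nat.div_add_mod k P.n
    set a := k / P.n with ha
    set b := k % P.n with hb
    have hb' : b < P.n := Nat.mod_lt _ hn
    have e1 : (k = P.n * i + j) ↔ (a = i ∧ b = j) := by
      constructor
      · intro h
        rw [ha, hb, h]
        constructor
        · rw [Nat.mul_add_div hn, Nat.div_eq_of_lt hj, add_zero]
        · rw [Nat.mul_add_mod, Nat.mod_eq_of_lt hj]
      · rintro ⟨h1, h2⟩
        rw [← hdm, h1, h2]
    have e2 : (k = P.n * j + i) ↔ (a = j ∧ b = i) := by
      constructor
      · intro h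
        rw [ha, hb, h]
        constructor
        · rw [Nat.mul_add_div hn, Nat.div_eq_of_lt hi, add_zero]
        · rw [Nat.mul_add_mod, Nat.mod_eq_of_lt hi]
      · rintro ⟨h1, h2⟩
        rw [← hdm, h1, h2]
    simp only [e1, e2]
    unfold ee addA
    by_cases c1 : a = i ∧ b = j
    · obtain ⟨c1a, c1b⟩ := c1
      rw [c1a, c1b]
      simp [hA, hij]
    · by_cases c2 : a = j ∧ b = i
      · obtain ⟨c2a, c2b⟩ := c2
        rw [c2a, c2b]
        simp [hAji, hij, hij.symm]
      · have d1 : (decide (a = i) && decide (b = j)) = false := by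
          rw [← Bool.decide_and]; simpa using c1
        have d2 : (decide (a = j) && decide (b = i)) = false := by
          rw [← Bool.decide_and]; simpa using c2
        rw [d1, d2, if_neg c1, if_neg c2]
        simp
  · unfold subR
    show R - val * uv i - val * uv j = _
    rw [hS.hR, uv_eq, uv_eq, pk_single P.n i val hi, pk_single P.n j val hj, Nat.sub_sub,
      Nat.sub_sub, pk_add, pk_add]
    congr 1
    apply pkb_congr
    intro a ha
    have key : ∀ (q : ℕ → ℕ → Prop) [∀ a b, Decidable (q a b)], (∀ a b, q a b ↔ q b a) →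
        ∑ x ∈ range P.n, (if addA A i j a x = true ∧ q a x then 1 else 0)
        = ∑ x ∈ range P.n, (if A a x = true ∧ q a x then 1 else 0)
          + ((if a = i ∧ q i j then 1 else 0) + (if a = j ∧ q i j then 1 else 0)) := by
      intro q _ hq
      have h1 : ∀ x ∈ range P.n, (if addA A i j a x = true ∧ q a x then 1 else 0)
          = (if A a x = true ∧ q a x then 1 else 0)
            + ((if x = j then (if a = i ∧ q i j then 1 else 0) else 0)
              + (if x = i then (if a = j ∧ q i j then 1 else 0) else 0)) := by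
        intro x hx
        unfold addA
        by_cases hx1 : x = j
        · subst hx1
          by_cases ha1 : a = i
          · subst ha1
            by_cases hqq : q a x
            · simp [hA, hij, hij.symm, hqq]
            · simp [hA, hij, hij.symm, hqq]
          · by_cases hq1 : A a x = true ∧ q a x <;> simp [ha1, hij.symm]
        · by_cases hx2 : x = i
          · subst hx2
            by_cases ha1 : a = j
            · subst ha1
              have hqq' := hq a x
              by_cases hqq : q x a
              · have hqq2 := hqq'.2 hqq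
                simp [hAji, hij, hij.symm, hqq, hqq2]
              · have hqq2 : ¬ q a x := fun h => hqq (hqq'.1 h)
                simp [hAji, hij, hij.symm, hqq, hqq2]
            · simp [ha1, hij]
          · simp [hx1, hx2]
      rw [sum_congr rfl h1, sum_add_distrib, sum_add_distrib]
      congr 1
      rw [sum_ite_eq' (range P.n) j, sum_ite_eq' (range P.n) i]
      simp [hi, hj]
    have k1 := key (fun a b => sd a = sd b) (fun a b => ⟨Eq.symm, Eq.symm⟩)
    have k2 := key (fun a b => sd a ≠ sd b) (fun a b => ⟨Ne.symm, Ne.symm⟩)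
    unfold cin ccr
    rw [k1, k2, hval]
    by_cases hs : sd i = sd j
    · simp only [hs, and_true, ne_eq, not_true_eq_false, and_false, if_false, add_zero, if_true]
      ring
    · simp only [hs, and_false, ne_eq, not_false_eq_true, and_true, if_false, zero_add]
      split_ifs <;> ring

omit hP in
lemma sub_add {n : ℕ} {A g : ℕ → ℕ → Bool} (h : Sub n A g) {i j : ℕ} (h1 : g i j = true)
    (h2 : g j i = true) : Sub n (addA A i j) g := by
  intro a ha b hb hab
  unfold addA at hab
  rw [Bool.or_eq_true, Bool.or_eq_true, Bool.and_eq_true, Bool.and_eq_true] at hab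
  rcases hab with (hab | ⟨h3, h4⟩) | ⟨h3, h4⟩
  · exact h a ha b hb hab
  · simp only [decide_eq_true_eq] at h3 h4
    rw [h3, h4]; exact h1
  · simp only [decide_eq_true_eq] at h3 h4
    rw [h3, h4]; exact h2

/-- what a successful run of a continuation style function says -/
def Dead (P : Par) (kin kcr sd c : ℕ → ℕ) (A : ℕ → ℕ → Bool) : Prop :=
  ∀ g z, Good P.n kin kcr sd c g z → ¬ Sub P.n A g

/-- soundness of the recursive call -/
def IhOk (P : Par) (kin kcr sd c : ℕ → ℕ) (ih : ℕ → ℕ → ℕ → (ℕ → Bool) → Bool) : Prop :=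
  ∀ E R s k A, St P sd E R A → ih E R s k = true → (∃ s', k s' = true) ∧ Dead P kin kcr sd c A

lemma twin_dead {A : ℕ → ℕ → Bool} (hsymm : ∀ i < P.n, ∀ j < P.n, A i j = A j i)
    {v j j' : ℕ} (hj : j < P.n) (hj' : j' < P.n) (hvj : v ≠ j) (hvj' : v ≠ j')
    (hc : dg P.KC j' = dg P.KC j) (hrow : ∀ x < P.n, A j' x = A j x)
    (h : ∀ g z, Good P.n kin kcr sd c g z → Sub P.n A g → g v j' = true → False) :
    ∀ g z, Good P.n kin kcr sd c g z → Sub P.n A g → g v j = true → False := by
  intro g z hg hsub hgv
  obtain ⟨e1, e2, e3, e4⟩ := kc_eq hP hj' hj hc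
  set π : ℕ → ℕ := fun x => if x = j then j' else if x = j' then j else x with hπ
  have hπlt : ∀ i < P.n, π i < P.n := by
    intro i hi; rw [hπ]; simp only; split_ifs <;> assumption
  have hππ : ∀ x, π (π x) = x := by
    intro x; rw [hπ]; simp only
    by_cases h1 : x = j
    · subst h1
      by_cases h2 : j' = x
      · simp [h2]
      · simp [h2]
    · by_cases h2 : x = j'
      · simp [h2]
      · simp [h1, h2]
  have hcls : ∀ (F : ℕ → ℕ), F j' = F j → ∀ i < P.n, F (π i) = F i := by
    intro F hF i _
    rw [hπ]; simp only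
    split_ifs with h1 h2
    · rw [h1, hF]
    · rw [h2, hF]
    · rfl
  have hg' := hg.relabel π hπlt (fun a _ b _ hab => by rw [← hππ a, hab, hππ b])
    (hcls kin e1) (hcls kcr e2) (hcls sd e3) (hcls c e4)
  have hrow2 : ∀ a < P.n, ∀ b < P.n, A (π a) b = A a b := by
    intro a ha b hb
    rw [hπ]; simp only
    split_ifs with h1 h2
    · rw [h1, hrow b hb]
    · rw [h2, hrow b hb]
    · rfl
  refine h _ _ hg' ?_ ?_
  · intro a ha b hb hab
    apply hsub _ (hπlt a ha) _ (hπlt b hb)
    rw [hrow2 a ha _ (hπlt b hb), hsymm a ha _ (hπlt b hb), hrow2 b hb a ha, hsymm b hb a ha]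
    exact hab
  · show g (π v) (π j') = true
    have h1 : π v = v := by rw [hπ]; simp only; rw [if_neg hvj, if_neg hvj']
    have h2 : π j' = j := by
      rw [hπ]; simp only
      split_ifs with h3
      · exact h3
      · rfl
    rw [h1, h2]; exact hgv

lemma lp_sound {ih : ℕ → ℕ → ℕ → (ℕ → Bool) → Bool} (hih : IhOk P kin kcr sd c ih)
    {E R v val : ℕ} {k : ℕ → Bool} {A : ℕ → ℕ → Bool} (hS : St P sd E R A) (hv : v < P.n)
    (f : ℕ) : ∀ (cand s : ℕ),
      (∀ j < P.n, cand.testBit (12 * j) = true → A v j = false ∧ v ≠ j ∧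
        val = if sd v = sd j then 1 else 64) →
      lpF P ih E R v val k f cand s = true →
      (∃ s', k s' = true) ∧ ∀ j < P.n, cand.testBit (12 * j) = true →
        ∀ g z, Good P.n kin kcr sd c g z → Sub P.n A g → g v j = true → False := by
  induction f with
  | zero =>
    intro cand s _ h
    change bi (Nat.beq cand 0) (k s) false = true at h
    obtain ⟨h1, h2⟩ := bi_and h
    rw [nbeq] at h1
    subst h1
    exact ⟨⟨_, h2⟩, fun j _ hj => by simp at hj⟩
  | succ f lih =>
    intro cand s hc h
    change bi (Nat.beq cand 0) (k s) (lpS P ih E R v val (lpF P ih E R v val k f)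
      (Nat.shiftRight s 5) (Nat.mod s 32) cand) = true at h
    cases hb : Nat.beq cand 0
    · rw [hb, bi_false] at h
      set j0 := Nat.mod s 32 with hj0
      set s1 := Nat.shiftRight s 5 with hs1
      unfold lpS at h
      obtain ⟨h1, h⟩ := bi_and h
      obtain ⟨h2, h⟩ := bi_and h
      rw [mb_iff] at h1
      rw [nble] at h2
      have hj0n : j0 < P.n := h2
      set cand' := Nat.xor cand (uv j0) with hcand'
      have hbit : ∀ j, cand'.testBit (12 * j) = (cand.testBit (12 * j) && decide (j ≠ j0)) := by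
        intro j
        rw [hcand']
        change (cand ^^^ uv j0).testBit (12 * j) = _
        have huv : uv j0 = 2 ^ (12 * j0) := by
          rw [uv_eq, pow_mul]; norm_num
        rw [Nat.testBit_xor, huv, Nat.testBit_two_pow]
        by_cases hjj : j = j0
        · subst hjj; simp [h1]
        · have : ¬ (12 * j0 = 12 * j) := by omega
          simp [hjj, this]
      have hc' : ∀ j < P.n, cand'.testBit (12 * j) = true → A v j = false ∧ v ≠ j ∧
          val = if sd v = sd j then 1 else 64 := by
        intro j hj hjb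
        rw [hbit, Bool.and_eq_true] at hjb
        exact hc j hj hjb.1
      obtain ⟨hA0, hvj0, hval0⟩ := hc j0 hj0n h1
      unfold lpT at h
      -- conclusion from the rest of the loop and the entry j0
      have fin : ((∃ s', k s' = true) ∧ ∀ j < P.n, cand'.testBit (12 * j) = true →
          ∀ g z, Good P.n kin kcr sd c g z → Sub P.n A g → g v j = true → False) →
          (∀ g z, Good P.n kin kcr sd c g z → Sub P.n A g → g v j0 = true → False) →
          (∃ s', k s' = true) ∧ ∀ j < P.n, cand.testBit (12 * j) = true →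
          ∀ g z, Good P.n kin kcr sd c g z → Sub P.n A g → g v j = true → False := by
        rintro ⟨r1, r2⟩ r3
        refine ⟨r1, fun j hj hjb => ?_⟩
        by_cases hjj : j = j0
        · subst hjj; exact r3
        · exact r2 j hj (by rw [hbit, hjb]; simp [hjj])
      cases hb2 : Nat.beq (Nat.mod s1 8) 4
      · -- recursive call
        rw [hb2, bi_false] at h
        have hS' := add_state hS hv hj0n hvj0 hA0 val hval0
        obtain ⟨⟨s2, h3⟩, h4⟩ := hih _ _ _ _ _ hS' h
        refine fin (lih cand' s2 hc' h3) ?_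
        intro g z hg hsub hgv
        exact h4 g z hg (sub_add hsub hgv (by rw [← hg.symm v hv j0 hj0n]; exact hgv))
      · -- twin
        rw [hb2, bi_true] at h
        set j' := Nat.mod (Nat.shiftRight s1 3) 32 with hj'
        unfold twinS at h
        obtain ⟨h3, h⟩ := bi_and h
        obtain ⟨h4, h⟩ := bi_and h
        obtain ⟨h5, h⟩ := bi_and h
        rw [mb_iff] at h3
        rw [nbeq] at h4 h5
        obtain ⟨h6, h⟩ := bi_and h
        rw [nble] at h6
        have hj'n : j' < P.n := h6
        have r := lih cand' _ hc' h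
        obtain ⟨hA1, hvj1, -⟩ := hc' j' hj'n h3
        refine fin r ?_
        refine twin_dead hP hS.symm hj0n hj'n hvj0 hvj1 h4 ?_ (r.2 j' hj'n h3)
        intro x hx
        rw [row_eq hP hS j' hj'n, row_eq hP hS j0 hj0n, uv_pk _ _ hj0n, uv_pk _ _ hj'n] at h5
        change pk P.n (ee A j') + pk P.n _ = pk P.n (ee A j0) + pk P.n _ at h5
        rw [pk_add, pk_add] at h5
        have h7 := pkb_inj 4096 P.n _ _ (by
          intro i hi
          have := ee_le _ _ hS.irr j' i hj'n
          split_ifs <;> omega) (by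
          intro i hi
          have := ee_le _ _ hS.irr j0 i hj0n
          split_ifs <;> omega) h5 x hx
        unfold ee at h7
        cases hA3 : A j' x <;> cases hA4 : A j0 x <;> simp [hA3, hA4] at h7 ⊢ <;>
          (split_ifs at h7 <;> omega)
    · rw [hb, bi_true] at h
      rw [nbeq] at hb
      subst hb
      exact ⟨⟨_, h⟩, fun j _ hj => by simp at hj⟩

/-- existence of a missing neighbour -/
lemma exists_missing {A g : ℕ → ℕ → Bool} {z : ℕ → ℤ}
    (hg : Good P.n kin kcr sd c g z) (hsub : Sub P.n A g) {v : ℕ} (hv : v < P.n) (kd : ℕ)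
    (hkd : kd < 2) (h : 1 ≤ (rr P.n kin kcr sd A v >>> (6 * kd)) &&& 63) :
    ∃ j < P.n, g v j = true ∧ A v j = false ∧ (kd = 0 ↔ sd v = sd j) := by
  classical
  have e1 := cin_mono P.n sd A g hsub v hv
  have e2 := ccr_mono P.n sd A g hsub v hv
  have b1 := hP.bin v hv
  have b2 := hP.bcr v hv
  have h63 : ∀ x : ℕ, x &&& 63 = x % 64 := fun x => Nat.and_two_pow_sub_one_eq_mod x 6
  rw [h63, Nat.shiftRight_eq_div_pow] at h
  unfold rr at h
  interval_cases kd
  · have h1 : cin P.n sd A v < cin P.n sd g v := by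
      rw [← hg.hin v hv]
      norm_num at h
      omega
    by_contra hcon
    push Not at hcon
    have : cin P.n sd g v ≤ cin P.n sd A v := by
      unfold cin
      refine sum_le_sum fun j hj => ?_
      have hj := mem_range.1 hj
      by_cases h2 : g v j = true ∧ sd v = sd j
      · have h3 : A v j = true := by
          by_contra h4
          rw [Bool.not_eq_true] at h4
          exact (hcon j hj h2.1 h4).elim (fun h5 => h5.2 h2.2) (fun h5 => h5.1 rfl)
        simp [h2, h3]
      · simp [h2]
    omega
  · have h1 : ccr P.n sd A v < ccr P.n sd g v := by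
      rw [← hg.hcr v hv]
      norm_num at h
      rw [← hg.hin v hv] at e1
      rw [← hg.hcr v hv] at e2
      by_contra hcon
      have h3 : kcr v - ccr P.n sd A v = 0 := by omega
      rw [h3] at h
      have h4 : (kin v - cin P.n sd A v + 64 * 0) / 64 = 0 := Nat.div_eq_of_lt (by omega)
      rw [h4] at h
      omega
    by_contra hcon
    push Not at hcon
    have : ccr P.n sd g v ≤ ccr P.n sd A v := by
      unfold ccr
      refine sum_le_sum fun j hj => ?_
      have hj := mem_range.1 hj
      by_cases h2 : g v j = true ∧ sd v ≠ sd j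
      · have h3 : A v j = true := by
          by_contra h4
          rw [Bool.not_eq_true] at h4
          exact (hcon j hj h2.1 h4).elim (fun h5 => absurd h5.1 one_ne_zero) (fun h5 => h2.2 h5.2)
        simp [h2, h3]
      · simp [h2]
    omega

/-- the other end of a missing edge also misses a neighbour -/
lemma missing_other {A g : ℕ → ℕ → Bool} {z : ℕ → ℤ} (hA : ∀ i < P.n, ∀ j < P.n, A i j = A j i)
    (hg : Good P.n kin kcr sd c g z) (hsub : Sub P.n A g) {v j : ℕ} (hv : v < P.n) (hj : j < P.n)
    (kd : ℕ) (hkd : kd < 2) (h1 : g v j = true) (h2 : A v j = false) (h3 : kd = 0 ↔ sd v = sd j) :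
    1 ≤ (rr P.n kin kcr sd A j >>> (6 * kd)) &&& 63 := by
  have e1 := cin_mono P.n sd A g hsub j hj
  have e2 := ccr_mono P.n sd A g hsub j hj
  have b1 := hP.bin j hj
  have b2 := hP.bcr j hj
  have h63 : ∀ x : ℕ, x &&& 63 = x % 64 := fun x => Nat.and_two_pow_sub_one_eq_mod x 6
  have g1 : g j v = true := by rw [← hg.symm v hv j hj]; exact h1
  have a1 : A j v = false := by rw [← hA v hv j hj]; exact h2
  rw [← hg.hin j hj] at e1
  rw [← hg.hcr j hj] at e2
  rw [h63, Nat.shiftRight_eq_div_pow]
  unfold rr
  interval_cases kd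
  · have hs : sd j = sd v := (h3.1 rfl).symm
    have h4 := cin_lt P.n sd A g hsub j v hj hv a1 g1 hs
    rw [← hg.hin j hj] at h4
    norm_num
    omega
  · have hs : sd j ≠ sd v := fun h => absurd (h3.2 h.symm) one_ne_zero
    have h4 := ccr_lt P.n sd A g hsub j v hj hv a1 g1 hs
    rw [← hg.hcr j hj] at h4
    norm_num
    have h5 : (kin j - cin P.n sd A j + 64 * (kcr j - ccr P.n sd A j)) / 64
        = kcr j - ccr P.n sd A j := by
      rw [Nat.add_mul_div_left _ _ (by norm_num), Nat.div_eq_of_lt (by omega), zero_add]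
    rw [h5]
    omega

lemma node0_sound {ih : ℕ → ℕ → ℕ → (ℕ → Bool) → Bool} (hih : IhOk P kin kcr sd c ih)
    {E R s : ℕ} {k : ℕ → Bool} {A : ℕ → ℕ → Bool} (hS : St P sd E R A)
    (h : node0 P ih E R s k = true) : (∃ s', k s' = true) ∧ Dead P kin kcr sd c A := by
  unfold node0 at h
  set kd := Nat.mod (Nat.shiftRight s 3) 2 with hkd
  set v := Nat.mod (Nat.shiftRight s 4) 32 with hv
  have hkd2 : kd < 2 := Nat.mod_lt _ (by norm_num)
  unfold brS at h
  obtain ⟨h1, h⟩ := bi_and h
  obtain ⟨h2, h⟩ := bi_and h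
  rw [nble] at h1 h2
  have hvn : v < P.n := h1
  set F := Nat.land (Nat.shiftRight R (Nat.mul 6 kd)) P.M63 with hF
  set M := bn (Nat.beq (dg P.SM1 v) kd) P.SM0 P.SM1 with hM
  set m : ℕ → ℕ := fun i => if sd v = kd then 1 - sd i else sd i with hm
  have hm1 : ∀ i < P.n, m i ≤ 1 := by
    intro i hi
    have := hP.bsd i hi
    rw [hm]; simp only; split_ifs <;> omega
  have hMpk : M = pk P.n m := by
    have hd : dg P.SM1 v = sd v := by
      rw [hP.hSM1, dg_pk _ _ _ (fun i hi => by have := hP.bsd i hi; omega) hvn]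
    rw [hM, hd]
    cases hb : Nat.beq (sd v) kd
    · rw [nbeqf] at hb
      show P.SM1 = _
      rw [hP.hSM1]
      apply pkb_congr
      intro i _
      rw [hm]; simp [hb]
    · rw [nbeq] at hb
      show P.SM0 = _
      rw [hP.hSM0]
      apply pkb_congr
      intro i _
      rw [hm]; simp [hb]
  -- meaning of the mask bits
  have hmk : ∀ j < P.n, m j = 1 ↔ (kd = 0 ↔ sd v = sd j) := by
    intro j hj
    have b1 := hP.bsd j hj
    have b2 := hP.bsd v hvn
    rw [hm]; simp only
    interval_cases kd <;> interval_cases (sd v) <;> interval_cases (sd j) <;> simp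
  set val := bn (Nat.beq kd 0) 1 64 with hval
  have hval2 : ∀ j < P.n, m j = 1 → val = if sd v = sd j then 1 else 64 := by
    intro j hj hmj
    rw [hmk j hj] at hmj
    rw [hval]
    interval_cases kd
    · rw [if_pos (hmj.1 rfl)]; rfl
    · rw [if_neg (fun h => absurd (hmj.2 h) one_ne_zero)]; rfl
  set cand := candF P F M (rowF P E v) with hcand
  have hrow := row_eq hP hS v hvn
  have hrowbit : ∀ j < P.n, (rowF P E v).testBit (12 * j) = (decide (A v j = true ∨ v = j)) := by
    intro j hj
    rw [hrow]
    have := tb12 P.n (ee A v) (fun i _ => lt_of_le_of_lt (ee_le _ _ hS.irr v i hvn) (by norm_num))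
      j 0 (by norm_num)
    rw [add_zero] at this
    rw [this]
    have he := ee_le _ _ hS.irr v j hvn
    unfold ee at he ⊢
    cases hA : A v j
    · by_cases hvj : v = j <;> simp [hvj, hj]
    · have : v ≠ j := by rintro rfl; rw [hS.irr v hvn] at hA; simp at hA
      simp [this, hj]
  have hcandbit : ∀ j < P.n, cand.testBit (12 * j) = true →
      A v j = false ∧ v ≠ j ∧ val = if sd v = sd j then 1 else 64 := by
    intro j hj hb
    rw [hcand] at hb
    unfold candF at hb
    change ((((F + P.K2) >>> 11 &&& M) ||| rowF P E v) ^^^ rowF P E v).testBit (12 * j) = true at hb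
    rw [Nat.testBit_xor, Nat.testBit_or, Nat.testBit_land, hrowbit j hj] at hb
    by_cases hr : A v j = true ∨ v = j
    · simp [hr] at hb
    · push Not at hr
      have hr2 : decide (A v j = true ∨ v = j) = false := by
        simp only [decide_eq_false_iff_not, not_or]; exact hr
      rw [hr2, Bool.or_false, Bool.xor_false, Bool.and_eq_true, hMpk] at hb
      have h3 := tb12 P.n m (fun i hi => by have := hm1 i hi; omega) j 0 (by norm_num)
      rw [add_zero] at h3
      rw [h3, Bool.and_eq_true] at hb
      have hmj : m j = 1 := by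
        have h4 := hm1 j hj
        have h5 := hb.2.2
        interval_cases (m j)
        · simp at h5
        · rfl
      exact ⟨by simpa using hr.1, hr.2, hval2 j hj hmj⟩
  obtain ⟨r1, r2⟩ := lp_sound hP hih hS hvn P.n cand _ hcandbit h
  refine ⟨r1, ?_⟩
  intro g z hg hsub
  have hR := R_pk hP hS hg hsub
  set fl : ℕ → ℕ := fun i => (rr P.n kin kcr sd A i >>> (6 * kd)) &&& 63 with hfl
  have hFpk : F = pk P.n fl := by
    rw [hF]
    change (R >>> (6 * kd)) &&& P.M63 = _
    rw [hR, hP.hM63, pk_shift_land P.n (6 * kd) _ _ _ 6]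
    · intro i _; norm_num
    · omega
    · intro i hi
      have := rr_le hP A i hi
      omega
  have hfl63 : ∀ i, fl i ≤ 63 := fun i => Nat.and_le_right
  rw [hFpk, dg_pk _ _ _ (fun i _ => lt_of_le_of_lt (hfl63 i) (by norm_num)) hvn] at h2
  obtain ⟨j, hj, hgj, hAj, hkj⟩ := exists_missing hP hg hsub hvn kd hkd2 h2
  have hmj : m j = 1 := (hmk j hj).2 hkj
  have hflj : 1 ≤ fl j := missing_other hP hS.symm hg hsub hvn hj kd hkd2 hgj hAj hkj
  have hvj : v ≠ j := by rintro rfl; rw [hg.irr v hvn] at hgj; simp at hgj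
  refine r2 j hj ?_ g z hg hsub hgj
  rw [hcand]
  unfold candF
  change ((((F + P.K2) >>> 11 &&& M) ||| rowF P E v) ^^^ rowF P E v).testBit (12 * j) = true
  have hgm := ge_mask hP fl m (fun i _ => by have := hfl63 i; omega) hm1
  change ((pk P.n fl + P.K2) >>> 11 &&& pk P.n m) = _ at hgm
  rw [hFpk, hMpk, hgm, Nat.testBit_xor, Nat.testBit_or, hrowbit j hj]
  have h3 := tb12 P.n (fun i => if 1 ≤ fl i then m i else 0) (fun i hi => by
    have := hm1 i hi
    split_ifs <;> omega) j 0 (by norm_num)
  rw [add_zero] at h3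
  rw [h3]
  simp [hj, hflj, hmj, hAj, hvj]

omit hP in
lemma perm_sound (Q : ℕ) (i : ℕ) : ∀ acc, permF P Q i acc = true →
    (∀ t < i, pm Q t < P.n ∧ dg P.KC (pm Q t) = dg P.KC t ∧ acc.testBit (pm Q t) = false) ∧
      ∀ t < i, ∀ u < i, pm Q t = pm Q u → t = u := by
  induction i with
  | zero => intro acc _; exact ⟨fun t ht => absurd ht (Nat.not_lt_zero _), fun t ht => absurd ht (Nat.not_lt_zero _)⟩
  | succ i ih =>
    intro acc h
    change permS P i (permF P Q i) acc (pm Q i) = true at h
    unfold permS at h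
    obtain ⟨h1, h⟩ := bi_and h
    obtain ⟨h2, h⟩ := bi_and h
    obtain ⟨h3, h⟩ := bi_and h
    rw [nble] at h1
    rw [nbeq] at h2 h3
    obtain ⟨r1, r2⟩ := ih _ h
    have hbit : acc.testBit (pm Q i) = false := by
      rw [← Bool.not_eq_true, testBit_iff]
      change acc >>> (pm Q i) % 2 = 0 at h2
      rw [Nat.shiftRight_eq_div_pow] at h2
      omega
    have hlor : ∀ x, (Nat.lor acc (Nat.shiftLeft 1 (pm Q i))).testBit x = false →
        acc.testBit x = false ∧ x ≠ pm Q i := by
      intro x hx
      change (acc ||| 1 <<< (pm Q i)).testBit x = false at hx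
      rw [Nat.testBit_or, Nat.shiftLeft_eq, one_mul, Nat.testBit_two_pow, Bool.or_eq_false_iff] at hx
      refine ⟨hx.1, fun h => ?_⟩
      simp [h] at hx
    constructor
    · intro t ht
      rcases Nat.lt_succ_iff_lt_or_eq.1 ht with h4 | h4
      · obtain ⟨a1, a2, a3⟩ := r1 t h4
        exact ⟨a1, a2, (hlor _ a3).1⟩
      · subst h4; exact ⟨h1, h3, hbit⟩
    · intro t ht u hu htu
      rcases Nat.lt_succ_iff_lt_or_eq.1 ht with h4 | h4
      · rcases Nat.lt_succ_iff_lt_or_eq.1 hu with h5 | h5
        · exact r2 t h4 u h5 htu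
        · subst h5
          exact absurd htu (hlor _ (r1 t h4).2.2).2
      · rcases Nat.lt_succ_iff_lt_or_eq.1 hu with h5 | h5
        · subst h4
          exact absurd htu.symm (hlor _ (r1 u h5).2.2).2
        · rw [h4, h5]

omit hP in
lemma edges_sound (n E Q : ℕ) (f : ℕ) : ∀ L, edgesF n E Q f L = true →
    ∀ p ∈ edl f L, edgeB n E (pm Q p.1) (pm Q p.2) = true := by
  induction f with
  | zero => intro L _ p hp; simp [edl] at hp
  | succ f ih =>
    intro L h p hp
    change bi (Nat.beq L 0) true (edgesS n E Q L (edgesF n E Q f)) = true at h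
    unfold edl at hp
    by_cases hL : L = 0
    · simp [hL] at hp
    · rw [if_neg hL] at hp
      have hb : Nat.beq L 0 = false := nbeqf.2 hL
      rw [hb, bi_false] at h
      unfold edgesS at h
      obtain ⟨h1, h2⟩ := bi_and h
      rw [List.mem_cons] at hp
      rcases hp with hp | hp
      · rw [hp]
        have e1 : Nat.mod (Nat.shiftRight L 5) 32 = (L / 32) % 32 := by
          show (L >>> 5) % 32 = _
          rw [Nat.shiftRight_eq_div_pow]
        rw [e1] at h1
        exact h1
      · apply ih _ h2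
        have e1 : Nat.shiftRight L 10 = L / 1024 := by
          show L >>> 10 = _
          rw [Nat.shiftRight_eq_div_pow]
        rw [e1]
        exact hp

lemma node5_sound {cur E R s : ℕ} {k : ℕ → Bool} {A : ℕ → ℕ → Bool} (hS : St P sd E R A)
    (htab : ∀ idx, cur < idx → idx < P.TN → ¬ EmbT P.n kin kcr sd c (tabL P idx))
    (h : node5 P cur E s k = true) : (∃ s', k s' = true) ∧ Dead P kin kcr sd c A := by
  unfold node5 at h
  set idx := Nat.mod (Nat.shiftRight s 3) 16384 with hidx
  set Q := Nat.mod (Nat.shiftRight s 17) P.P5 with hQ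
  obtain ⟨h1, h⟩ := bi_and h
  obtain ⟨h2, h⟩ := bi_and h
  obtain ⟨h3, h⟩ := bi_and h
  obtain ⟨h4, h⟩ := bi_and h
  rw [nble] at h1 h2
  refine ⟨⟨_, h⟩, ?_⟩
  intro g z hg hsub
  apply htab idx h1 h2
  obtain ⟨p1, p2⟩ := perm_sound Q P.n 0 h3
  have p4 : ∀ i < P.n, kin (pm Q i) = kin i ∧ kcr (pm Q i) = kcr i ∧ sd (pm Q i) = sd i ∧
      c (pm Q i) = c i := fun i hi => kc_eq hP (p1 i hi).1 hi (p1 i hi).2.1
  refine ⟨_, _, hg.relabel (pm Q) (fun i hi => (p1 i hi).1) p2 (fun i hi => (p4 i hi).1)
    (fun i hi => (p4 i hi).2.1) (fun i hi => (p4 i hi).2.2.1) (fun i hi => (p4 i hi).2.2.2), ?_⟩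
  intro p hp hp1 hp2 hp3
  have h5 := edges_sound P.n E Q 31 _ h4 p hp
  rw [edge_iff hS _ _ (p1 _ hp1).1 (p1 _ hp2).1] at h5
  rcases h5 with h5 | h5
  · exact hsub _ (p1 _ hp1).1 _ (p1 _ hp2).1 h5
  · exact absurd (p2 _ hp1 _ hp2 h5) hp3

lemma run_sound {cur : ℕ}
    (htab : ∀ idx, cur < idx → idx < P.TN → ¬ EmbT P.n kin kcr sd c (tabL P idx)) (fuel : ℕ) :
    IhOk P kin kcr sd c (runF P cur fuel) := by
  induction fuel with
  | zero => intro E R s k A _ h; exact absurd h (by change ¬ (false = true); simp)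
  | succ f ih =>
    intro E R s k A hS h
    change stp P cur (runF P cur f) E R s k (Nat.mod s 8) = true at h
    unfold stp at h
    cases h1 : Nat.beq (Nat.mod s 8) 1
    · rw [h1, bi_false] at h
      cases h2 : Nat.beq (Nat.mod s 8) 0
      · rw [h2, bi_false] at h
        cases h3 : Nat.beq (Nat.mod s 8) 2
        · rw [h3, bi_false] at h
          cases h4 : Nat.beq (Nat.mod s 8) 3
          · rw [h4, bi_false] at h
            exact node5_sound hP hS htab h
          · rw [h4, bi_true] at h
            exact node3_sound hP hS h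
        · rw [h3, bi_true] at h
          exact node2_sound hP hS h
      · rw [h2, bi_true] at h
        exact node0_sound hP ih hS h
    · rw [h1, bi_true] at h
      exact node1_sound hP hS h

lemma build_sound (f : ℕ) : ∀ (L E R : ℕ) (k : ℕ → ℕ → Bool) (A : ℕ → ℕ → Bool),
    St P sd E R A → buildF P f L E R k = true →
    ∃ E' R' A', St P sd E' R' A' ∧ k E' R' = true ∧
      ∀ g z, Good P.n kin kcr sd c g z → Sub P.n A g →
        (∀ p ∈ edl f L, p.1 < P.n → p.2 < P.n → p.1 ≠ p.2 → g p.1 p.2 = true) → Sub P.n A' g := by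
  induction f with
  | zero => intro L E R k A _ h; exact absurd h (by change ¬ (false = true); simp)
  | succ f ih =>
    intro L E R k A hS h
    change bi (Nat.beq L 0) (k E R) (buildS P L E R k (buildF P f) (Nat.mod L 32)
      (Nat.mod (Nat.shiftRight L 5) 32)) = true at h
    cases hb : Nat.beq L 0
    · rw [hb, bi_false] at h
      set i := Nat.mod L 32 with hi
      set j := Nat.mod (Nat.shiftRight L 5) 32 with hj
      unfold buildS at h
      obtain ⟨h1, h⟩ := bi_and h
      obtain ⟨h2, h⟩ := bi_and h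
      rw [nble] at h1 h2
      cases h3 : edgeB P.n E i j
      · rw [h3, bi_false] at h
        have h4 : ¬ (A i j = true ∨ i = j) := by
          rw [← edge_iff hS i j h1 h2, h3]; simp
        push Not at h4
        have hAij : A i j = false := by simpa using h4.1
        have hdi : ∀ x, x < P.n → dg P.SM1 x = sd x := by
          intro x hx
          rw [hP.hSM1, dg_pk _ _ _ (fun i hi => by have := hP.bsd i hi; omega) hx]
        have hS' := add_state hS h1 h2 h4.2 hAij (bn (Nat.beq (dg P.SM1 i) (dg P.SM1 j)) 1 64) (by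
          rw [hdi i h1, hdi j h2]
          cases hbb : Nat.beq (sd i) (sd j)
          · rw [nbeqf] at hbb; rw [if_neg hbb]; rfl
          · rw [nbeq] at hbb; rw [if_pos hbb]; rfl)
        obtain ⟨E', R', A', r1, r2, r3⟩ := ih _ _ _ _ _ hS' h
        refine ⟨E', R', A', r1, r2, ?_⟩
        intro g z hg hsub hedge
        have hL : L ≠ 0 := nbeqf.1 hb
        have e0 : edl (f + 1) L = (i, j) :: edl f (Nat.shiftRight L 10) := by
          conv_lhs => unfold edl
          rw [if_neg hL]
          congr 1
          · rw [hj]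
            congr 1
            show _ = (L >>> 5) % 32
            rw [Nat.shiftRight_eq_div_pow]
          · congr 1
            show _ = L >>> 10
            rw [Nat.shiftRight_eq_div_pow]
        rw [e0] at hedge
        have hgij : g i j = true := hedge (i, j) (by simp) h1 h2 h4.2
        refine r3 g z hg (sub_add hsub hgij (by rw [← hg.symm i h1 j h2]; exact hgij)) ?_
        intro p hp
        exact hedge p (List.mem_cons_of_mem _ hp)
      · rw [h3, bi_true] at h; simp at h
    · rw [hb, bi_true] at h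
      exact ⟨E, R, A, hS, h, fun g z _ hsub _ => hsub⟩

lemma start_state : St P sd P.E0 P.KL (fun _ _ => false) := by
  refine ⟨fun _ _ _ _ => rfl, fun _ _ => rfl, ?_, ?_⟩
  · rw [hP.hE0]
    apply pkb_congr
    intro k _
    simp [ee]
  · have : pk P.n (fun i => cin P.n sd (fun _ _ => false) i + 64 * ccr P.n sd (fun _ _ => false) i)
        = 0 := by
      simp [pkb, cin, ccr]
    rw [this]; rfl

lemma entry_sound {cur s : ℕ}
    (htab : ∀ idx, cur < idx → idx < P.TN → ¬ EmbT P.n kin kcr sd c (tabL P idx))
    (h : entryF P cur s = true) : ¬ EmbT P.n kin kcr sd c (tabL P cur) := by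
  unfold entryF at h
  obtain ⟨E, R, A, r1, r2, r3⟩ := build_sound (c := c) hP 31 _ _ _ _ _ (start_state hP) h
  obtain ⟨-, r4⟩ := run_sound hP htab 31 E R s _ A r1 r2
  rintro ⟨g, z, hg, hedge⟩
  exact r4 g z hg (r3 g z hg (fun i _ j _ hij => by simp at hij) hedge)

omit hP in
lemma all_sound (l : List ℕ) : ∀ cur, allF P l cur = true → ∀ t < l.length, ∃ s,
    entryF P (cur + t) s = true := by
  induction l with
  | nil => intro cur _ t ht; simp at ht
  | cons s l ih =>
    intro cur h t ht
    change bi (entryF P cur s) (allF P l (Nat.succ cur)) false = true at h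
    obtain ⟨h1, h2⟩ := bi_and h
    cases t with
    | zero => exact ⟨s, h1⟩
    | succ t =>
      obtain ⟨s', hs'⟩ := ih _ h2 t (by simpa using ht)
      refine ⟨s', ?_⟩
      have : cur + (t + 1) = Nat.succ cur + t := by omega
      rw [this]; exact hs'

/-- main soundness theorem -/
theorem no_good (hall : ∀ idx < P.TN, ∃ s, entryF P idx s = true) (h0 : 0 < P.TN)
    (hroot : tabL P 0 = 0) : ¬ ∃ g z, Good P.n kin kcr sd c g z := by
  have key : ∀ d idx, idx + d = P.TN → idx < P.TN → ¬ EmbT P.n kin kcr sd c (tabL P idx) := by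
    intro d
    induction d using Nat.strong_induction_on with
    | _ d ih =>
      intro idx hd hidx
      obtain ⟨s, hs⟩ := hall idx hidx
      refine entry_sound hP ?_ hs
      intro idx' h1 h2
      exact ih (P.TN - idx') (by omega) idx' (by omega) h2
  rintro ⟨g, z, hg⟩
  refine key P.TN 0 (by simp) h0 ⟨g, z, hg, ?_⟩
  rw [hroot]
  intro p hp
  simp [edl] at hp

end

end Pool.Agent.helper86.NutX
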