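import Mathlib
import Pool.Agent.helper86.NutX.Sound

set_option autoImplicit false

/-!
From regular graphs with a simple nowhere zero kernel vector of `1 + A` to the combinatorial data
used by the checker.
-/

namespace Pool.Agent.helper86.NutX

open Finset

/-- closed neighbourhood sum -/
def LL {n : ℕ} (g : Fin n → Fin n → Bool) (f : Fin n → ℤ) (x : Fin n) : ℤ :=
  f x + ∑ y, if g x y = true then f y else 0

/-- integral version of the situation -/
structure IB {n : ℕ} (g : Fin n → Fin n → Bool) (d : ℕ) (z : Fin n → ℤ) :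
    Prop where
  symm : ∀ x y, g x y = g y x
  irr : ∀ x, g x x = false
  reg : ∀ x, (∑ y, if g x y = true then (1 : ℕ) else 0) = d
  ker : ∀ x, LL g z x = 0
  ne : ∀ x, z x ≠ 0
  odd : ∃ x, z x % 2 = 1
  simple : ∀ y : Fin n → ℤ, (∀ x, LL g y x = 0) → (∀ x, y x = 0) ∨ (∀ x, y x ≠ 0)

section

variable {n : ℕ} {g : Fin n → Fin n → Bool} {d : ℕ} {z : Fin n → ℤ}

lemma LL_symm (hs : ∀ x y, g x y = g y x) (f h : Fin n → ℤ) :
    ∑ x, f x * LL g h x = ∑ x, h x * LL g f x := by
  unfold LL
  simp_rw [mul_add, mul_sum, sum_add_distrib]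
  congr 1
  · exact sum_congr rfl fun x _ => mul_comm _ _
  · rw [sum_comm]
    refine sum_congr rfl fun x _ => sum_congr rfl fun y _ => ?_
    rw [hs y x]
    split_ifs <;> ring

lemma LL_add (f h : Fin n → ℤ) (x : Fin n) : LL g (fun y => f y + h y) x = LL g f x + LL g h x := by
  unfold LL
  have : ∀ y, (if g x y = true then f y + h y else 0) = (if g x y = true then f y else 0)
      + (if g x y = true then h y else 0) := by intro y; split_ifs <;> simp
  simp_rw [this, sum_add_distrib]
  ring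

lemma LL_mul (c : ℤ) (f : Fin n → ℤ) (x : Fin n) : LL g (fun y => c * f y) x = c * LL g f x := by
  unfold LL
  have : ∀ y, (if g x y = true then c * f y else 0) = c * (if g x y = true then f y else 0) := by
    intro y; split_ifs <;> simp
  simp_rw [this, ← mul_sum]
  ring

lemma LL_one (h : IB g d z) (x : Fin n) : LL g (fun _ => (1 : ℤ)) x = d + 1 := by
  unfold LL
  have := h.reg x
  rw [← this]
  push_cast
  ring

/-- the side of a vertex -/
def sdV (z : Fin n → ℤ) (x : Fin n) : ℕ := (z x % 2).toNat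

lemma sdV_cast (x : Fin n) : ((sdV z x : ℕ) : ℤ) = z x % 2 := by
  unfold sdV
  exact Int.toNat_of_nonneg (Int.emod_nonneg _ (by norm_num))

lemma sdV_le (x : Fin n) : sdV z x ≤ 1 := by
  have h1 := sdV_cast (z := z) x
  have h2 := Int.emod_lt_of_pos (z x) (show (0 : ℤ) < 2 by norm_num)
  omega

/-- number of neighbours on the own side -/
def innV (g : Fin n → Fin n → Bool) (z : Fin n → ℤ) (x : Fin n) : ℕ :=
  ∑ y, if g x y = true ∧ sdV z x = sdV z y then 1 else 0

/-- number of neighbours on the other side -/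
def crV (g : Fin n → Fin n → Bool) (z : Fin n → ℤ) (x : Fin n) : ℕ :=
  ∑ y, if g x y = true ∧ sdV z x ≠ sdV z y then 1 else 0

lemma inn_add_cr (h : IB g d z) (x : Fin n) : innV g z x + crV g z x = d := by
  rw [← h.reg x]
  unfold innV crV
  rw [← sum_add_distrib]
  refine sum_congr rfl fun y _ => ?_
  by_cases h1 : g x y = true <;> by_cases h2 : sdV z x = sdV z y <;> simp [h1, h2]

lemma LL_side1 (x : Fin n) (h : sdV z x = 1) : LL g (fun y => (sdV z y : ℤ)) x
    = 1 + (innV g z x : ℤ) := by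
  unfold LL innV
  rw [Nat.cast_sum]
  refine congrArg₂ (· + ·) (by simp [h]) ?_
  refine sum_congr rfl fun y _ => ?_
  rw [h]
  have h2 := sdV_le (z := z) y
  by_cases h3 : g x y = true
  · by_cases h4 : sdV z y = 1
    · simp [h3, h4]
    · have : sdV z y = 0 := by omega
      simp [h3, this]
  · simp [h3]

lemma LL_side0 (x : Fin n) (h : sdV z x = 0) : LL g (fun y => (sdV z y : ℤ)) x
    = (crV g z x : ℤ) := by
  unfold LL crV
  rw [Nat.cast_sum]
  simp only [h, Nat.cast_zero, zero_add]
  refine sum_congr rfl fun y _ => ?_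
  have h2 := sdV_le (z := z) y
  by_cases h3 : g x y = true
  · by_cases h4 : sdV z y = 1
    · simp [h3, h4]
    · have : sdV z y = 0 := by omega
      simp [h3, this]
  · simp [h3]

/-- half of the number of odd vertices in the closed neighbourhood -/
def ccV (g : Fin n → Fin n → Bool) (z : Fin n → ℤ) (x : Fin n) : ℤ :=
  - LL g (fun y => z y / 2) x

lemma LL_side_eq (h : IB g d z) (x : Fin n) :
    LL g (fun y => (sdV z y : ℤ)) x = 2 * ccV g z x := by
  have h1 : LL g z x = LL g (fun y => (sdV z y : ℤ)) x + 2 * LL g (fun y => z y / 2) x := by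
    rw [← LL_mul, ← LL_add]
    refine congrArg (fun f => LL g f x) (funext fun y => ?_)
    rw [sdV_cast]
    have := Int.emod_add_mul_ediv (z y) 2
    linarith
  rw [h.ker x] at h1
  unfold ccV
  linarith

lemma sum_z (h : IB g d z) : ∑ x, z x = 0 := by
  have h1 : ∑ x, (1 : ℤ) * LL g z x = ∑ x, z x * LL g (fun _ => 1) x := LL_symm h.symm _ _
  have h3 : ∑ x, (1 : ℤ) * LL g z x = 0 := sum_eq_zero fun x _ => by rw [h.ker]; ring
  have h4 : ∑ x, z x * LL g (fun _ => 1) x = (∑ x, z x) * (d + 1) := by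
    rw [sum_mul]
    exact sum_congr rfl fun x _ => by rw [LL_one h]
  rw [h3, h4] at h1
  rcases mul_eq_zero.1 h1.symm with h3 | h3
  · exact h3
  · have : (0 : ℤ) ≤ d := by positivity
    omega

lemma sum_cz (h : IB g d z) : ∑ x, ccV g z x * z x = 0 := by
  have h1 : ∑ x, (sdV z x : ℤ) * LL g z x = ∑ x, z x * LL g (fun y => (sdV z y : ℤ)) x :=
    LL_symm h.symm _ _
  have h3 : ∑ x, (sdV z x : ℤ) * LL g z x = 0 := sum_eq_zero fun x _ => by rw [h.ker]; ring
  have h2 : ∑ x, z x * LL g (fun y => (sdV z y : ℤ)) x = 2 * ∑ x, ccV g z x * z x := by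
    rw [mul_sum]
    exact sum_congr rfl fun x _ => by rw [LL_side_eq h]; ring
  rw [h2, h3] at h1
  omega

lemma offdiag_even (f : Fin n → Fin n → ℤ) (hs : ∀ x y, f x y = f y x) (h0 : ∀ x, f x x = 0) :
    (∑ x, ∑ y, f x y) % 2 = 0 := by
  have h1 : ((∑ x, ∑ y, f x y : ℤ) : ZMod 2) = 0 := by
    push_cast
    rw [← Finset.sum_product']
    refine Finset.sum_involution (fun p _ => (p.2, p.1)) ?_ ?_ ?_ ?_
    · intro p _
      simp only
      rw [hs p.2 p.1]
      exact CharTwo.add_self_eq_zero _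
    · intro p _ hp hpp
      apply hp
      have : p.1 = p.2 := by
        have := congrArg Prod.fst hpp
        exact this.symm
      rw [this, h0]
      simp
    · intro p _
      simp
    · intro p _
      rfl
  have := (ZMod.intCast_zmod_eq_zero_iff_dvd _ 2).1 h1
  omega

/-- the quadratic parity relation -/
lemma quad (h : IB g d z) : (∑ x, (sdV z x : ℤ) * (ccV g z x - 1)) % 4 = 0 := by
  -- sum of z
  have e1 : ∑ x, (sdV z x : ℤ) + 2 * ∑ x, z x / 2 = 0 := by
    rw [← sum_z h, mul_sum, ← sum_add_distrib]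
    refine sum_congr rfl fun x _ => ?_
    rw [sdV_cast]
    have := Int.emod_add_mul_ediv (z x) 2
    linarith
  have e2 : ∑ x, (sdV z x : ℤ) * ccV g z x + 2 * ∑ x, (z x / 2) * ccV g z x = 0 := by
    rw [← sum_cz h, mul_sum, ← sum_add_distrib]
    refine sum_congr rfl fun x _ => ?_
    rw [sdV_cast]
    have := Int.emod_add_mul_ediv (z x) 2
    linear_combination (ccV g z x) * this
  have e4 : ∑ x, (z x / 2) * ccV g z x
        = -(∑ x, (z x / 2) * (z x / 2))
          - ∑ x, ∑ y, (if g x y = true then (z x / 2) * (z y / 2) else 0) := by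
    rw [← sum_neg_distrib, ← sum_sub_distrib]
    refine sum_congr rfl fun x _ => ?_
    unfold ccV LL
    rw [mul_neg, mul_add, mul_sum]
    have : ∀ y, (z x / 2) * (if g x y = true then z y / 2 else 0)
        = if g x y = true then (z x / 2) * (z y / 2) else 0 := by
      intro y; split_ifs <;> simp
    simp_rw [this]
    ring
  have e5 : (∑ x, ∑ y, (if g x y = true then (z x / 2) * (z y / 2) else 0)) % 2 = 0 :=
    offdiag_even (n := n) (fun x y => if g x y = true then (z x / 2) * (z y / 2) else 0)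
    (by intro x y; simp only [h.symm x y, mul_comm]) (by intro x; simp [h.irr])
  have e6 : (∑ x, (z x / 2) * (z x / 2)) % 2 = (∑ x, z x / 2) % 2 := by
    rw [Finset.sum_int_mod, Finset.sum_int_mod univ 2 (fun x => z x / 2)]
    congr 1
    refine sum_congr rfl fun x _ => ?_
    rw [Int.mul_emod]
    rcases Int.emod_two_eq_zero_or_one (z x / 2) with h7 | h7 <;> rw [h7] <;> rfl
  have e7 : ∑ x, (sdV z x : ℤ) * (ccV g z x - 1) = ∑ x, (sdV z x : ℤ) * ccV g z x
      - ∑ x, (sdV z x : ℤ) := by
    rw [← sum_sub_distrib]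
    exact sum_congr rfl fun x _ => by ring
  rw [e7]
  omega

/-- double counting of the cross edges -/
lemma cross_eq (h : IB g d z) : ∑ x, (sdV z x : ℤ) * crV g z x
    = ∑ x, (1 - (sdV z x : ℤ)) * crV g z x := by
  have h1 := LL_symm (g := g) h.symm (fun x => (sdV z x : ℤ)) (fun x => 1 - (sdV z x : ℤ))
  have h3 : ∀ x, LL g (fun x => 1 - (sdV z x : ℤ)) x = d + 1 - LL g (fun y => (sdV z y : ℤ)) x := by
    intro x
    have : (fun x => 1 - (sdV z x : ℤ)) = fun x => (1 : ℤ) + (-1) * (sdV z x : ℤ) := by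
      funext y; ring
    rw [this, LL_add, LL_mul, LL_one h]; ring
  have h4 : ∑ x, (sdV z x : ℤ) * crV g z x
      = ∑ x, (sdV z x : ℤ) * LL g (fun x => 1 - (sdV z x : ℤ)) x := by
    refine sum_congr rfl fun x _ => ?_
    have h4 := inn_add_cr h x
    have h5 := sdV_le (z := z) x
    have h6 : sdV z x = 0 ∨ sdV z x = 1 := by omega
    rcases h6 with h6 | h6
    · rw [h6]; simp
    · rw [h3, LL_side1 x h6, h6]
      have : (d : ℤ) = innV g z x + crV g z x := by exact_mod_cast h4.symm
      rw [this]; push_cast; ring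
  have h5 : ∑ x, (1 - (sdV z x : ℤ)) * LL g (fun y => (sdV z y : ℤ)) x
      = ∑ x, (1 - (sdV z x : ℤ)) * crV g z x := by
    refine sum_congr rfl fun x _ => ?_
    have h5 := sdV_le (z := z) x
    have h6 : sdV z x = 0 ∨ sdV z x = 1 := by omega
    rcases h6 with h6 | h6
    · rw [LL_side0 x h6]
    · rw [h6]; simp
  rw [h4, h1, h5]

/-- twice `cc` on the odd side -/
lemma cc1 (h : IB g d z) (x : Fin n) (hx : sdV z x = 1) :
    2 * ccV g z x = 1 + (innV g z x : ℤ) := by
  rw [← LL_side_eq h, LL_side1 x hx]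

/-- twice `cc` on the even side -/
lemma cc0 (h : IB g d z) (x : Fin n) (hx : sdV z x = 0) :
    2 * ccV g z x = (crV g z x : ℤ) := by
  rw [← LL_side_eq h, LL_side0 x hx]

end

end Pool.Agent.helper86.NutX
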