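import Mathlib
import Pool.Agent.helper86.NutX.Bridge

set_option autoImplicit false

/-!
From real kernel vectors to primitive integral kernel vectors.
-/

namespace Pool.Agent.helper86.NutX

open Finset

/-- the integral matrix `1 + A` -/
def MM {n : ℕ} (g : Fin n → Fin n → Bool) : Matrix (Fin n) (Fin n) ℤ :=
  Matrix.of fun i j => (if i = j then 1 else 0) + (if g i j = true then 1 else 0)

lemma MM_mul {n : ℕ} (g : Fin n → Fin n → Bool) (v : Fin n → ℤ) (i : Fin n) :
    (MM g).mulVec v i = LL g v i := by
  unfold MM LL Matrix.mulVec dotProduct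
  simp only [Matrix.of_apply, add_mul, sum_add_distrib, ite_mul, one_mul, zero_mul,
    sum_ite_eq, mem_univ, if_true]

lemma MM_mul_real {n : ℕ} (g : Fin n → Fin n → Bool) (v : Fin n → ℝ) (i : Fin n) :
    ((MM g).map (Int.castRingHom ℝ)).mulVec v i
      = v i + ∑ u, (if g i u = true then v u else 0) := by
  unfold MM Matrix.mulVec dotProduct
  have : ∀ j, ((Matrix.of fun i j => (if i = j then (1 : ℤ) else 0) +
      (if g i j = true then 1 else 0)).map (Int.castRingHom ℝ)) i j * v j
      = (if i = j then v j else 0) + (if g i j = true then v j else 0) := by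
    intro j
    simp only [Matrix.map_apply, Matrix.of_apply]
    split_ifs <;> simp <;> ring
  simp only [this, sum_add_distrib, sum_ite_eq, mem_univ, if_true]

theorem exists_IB {k n : ℕ} (hn : 0 < n) (B : Fin n → Fin n → Bool) (x : Fin n → ℝ)
    (symm : ∀ u v, B u v = B v u) (irr : ∀ v, B v v = false)
    (deg : ∀ v, (univ.filter (fun u => B v u = true)).card = k)
    (xne : ∀ v, x v ≠ 0)
    (xker : ∀ v, x v + ∑ u, (if B v u = true then x u else 0) = 0)
    (simple : ∀ z : Fin n → ℝ, (∀ v, z v + ∑ u, (if B v u = true then z u else 0) = 0) →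
      ∃ l : ℝ, ∀ v, z v = l * x v) : ∃ z, IB B k z := by
  have hsimp : ∀ y : Fin n → ℤ, (∀ v, LL B y v = 0) → (∀ v, y v = 0) ∨ (∀ v, y v ≠ 0) := by
    intro y hy
    obtain ⟨l, hl⟩ := simple (fun v => (y v : ℝ)) (by
      intro v
      have := congrArg (fun t : ℤ => (t : ℝ)) (hy v)
      unfold LL at this
      push_cast at this
      exact this)
    by_cases h0 : l = 0
    · left
      intro v
      have := hl v
      rw [h0, zero_mul] at this
      exact_mod_cast this
    · right
      intro v hv
      have := hl v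
      simp only [hv, Int.cast_zero] at this
      exact mul_ne_zero h0 (xne v) this.symm
  have hdet : (MM B).det = 0 := by
    have h1 : ((MM B).map (Int.castRingHom ℝ)).det = 0 := by
      rw [← Matrix.exists_mulVec_eq_zero_iff]
      refine ⟨x, ?_, ?_⟩
      · intro h
        exact xne ⟨0, hn⟩ (congrFun h _)
      · funext i
        rw [MM_mul_real, xker]; rfl
    have h2 := RingHom.map_det (Int.castRingHom ℝ) (MM B)
    have h3 : (Int.castRingHom ℝ).mapMatrix (MM B) = (MM B).map (Int.castRingHom ℝ) := rfl
    rw [h3, h1] at h2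
    have h4 : (((MM B).det : ℤ) : ℝ) = 0 := h2
    exact_mod_cast h4
  obtain ⟨v, hv0, hv⟩ := Matrix.exists_mulVec_eq_zero_iff.2 hdet
  have hLv : ∀ i, LL B v i = 0 := by
    intro i
    rw [← MM_mul, hv]; rfl
  have hvne : ∀ i, v i ≠ 0 := by
    rcases hsimp v hLv with h | h
    · exact absurd (funext h) hv0
    · exact h
  obtain ⟨z, hz, hgcd⟩ := Finset.extract_gcd (s := (univ : Finset (Fin n))) v ⟨⟨0, hn⟩, mem_univ _⟩
  have hg0 : (univ : Finset (Fin n)).gcd v ≠ 0 := by
    intro h
    have := hz ⟨0, hn⟩ (mem_univ _)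
    rw [h, zero_mul] at this
    exact hvne _ this
  refine ⟨z, symm, irr, ?_, ?_, ?_, ?_, hsimp⟩
  · intro i
    rw [← deg i, card_filter]
  · intro i
    have h1 := hLv i
    have h2 : v = fun y => (univ : Finset (Fin n)).gcd v * z y := funext fun y => hz y (mem_univ _)
    rw [h2, LL_mul] at h1
    exact (mul_eq_zero.1 h1).resolve_left hg0
  · intro i hi
    have := hz i (mem_univ _)
    rw [hi, mul_zero] at this
    exact hvne i this
  · by_contra hcon
    push Not at hcon
    have h2 : (2 : ℤ) ∣ (univ : Finset (Fin n)).gcd z := by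
      refine Finset.dvd_gcd fun i _ => ?_
      have := hcon i
      have := Int.emod_two_eq_zero_or_one (z i)
      omega
    rw [hgcd] at h2
    norm_num at h2

end Pool.Agent.helper86.NutX
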