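import Mathlib
import Pool.Agent.helper86.NutX.Real

set_option autoImplicit false

/-!
Types: counting the classes of vertices and putting the vertices into the order used by the data.
-/

namespace Pool.Agent.helper86.NutX

open Finset

/-- class of position `i` for the counts `N` -/
def cls : List ℕ → ℕ → ℕ
  | [], _ => 0
  | a :: l, i => if i < a then 0 else 1 + cls l (i - a)

/-- inner degree of a class -/
def KI (d t : ℕ) : ℕ := if t ≤ d / 2 then d - 2 * t else 2 * (t - d / 2 - 1) + 1

/-- cross degree of a class -/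
def KCR (d t : ℕ) : ℕ := d - KI d t

/-- side of a class -/
def SD (d t : ℕ) : ℕ := if t ≤ d / 2 then 0 else 1

/-- coefficient of a class -/
def CC (d t : ℕ) : ℕ := if t ≤ d / 2 then t else t - d / 2

lemma cls_count (N : List ℕ) : ∀ t, ∑ i ∈ range N.sum, (if cls N i = t then 1 else 0)
    = N.getD t 0 := by
  induction N with
  | nil => intro t; simp
  | cons a l ih =>
    intro t
    rw [List.sum_cons, sum_range_add]
    have h1 : ∀ i ∈ range a, (if cls (a :: l) i = t then 1 else 0) = if 0 = t then 1 else 0 := by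
      intro i hi
      rw [mem_range] at hi
      simp only [cls, if_pos hi]
    have h2 : ∀ i, (if cls (a :: l) (a + i) = t then 1 else 0) = if 1 + cls l i = t then 1 else 0 := by
      intro i
      have : ¬ a + i < a := by omega
      simp only [cls, if_neg this, Nat.add_sub_cancel_left]
    rw [sum_congr rfl h1, sum_congr rfl fun i _ => h2 i]
    cases t with
    | zero =>
      simp only [if_true, sum_const, card_range, smul_eq_mul, mul_one, List.getD_cons_zero]
      have : ∑ i ∈ range l.sum, (if 1 + cls l i = 0 then 1 else 0) = 0 :=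
        sum_eq_zero fun i _ => by rw [if_neg (by omega)]
      rw [this]; rfl
    | succ t =>
      have : ∀ i, (if 1 + cls l i = t + 1 then 1 else 0) = if cls l i = t then 1 else 0 := by
        intro i
        by_cases h : cls l i = t
        · rw [if_pos h, if_pos (by omega)]
        · rw [if_neg h, if_neg (by omega)]
      simp only [this, ih t, List.getD_cons_succ]
      simp

section

variable {n : ℕ} {g : Fin n → Fin n → Bool} {d : ℕ} {z : Fin n → ℤ}

/-- class of a vertex -/
def kap (g : Fin n → Fin n → Bool) (d : ℕ) (z : Fin n → ℤ) (x : Fin n) : ℕ :=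
  if sdV z x = 0 then (d - innV g z x) / 2 else d / 2 + 1 + (innV g z x - 1) / 2

/-- number of vertices of a class -/
def cnt (g : Fin n → Fin n → Bool) (d : ℕ) (z : Fin n → ℤ) (t : ℕ) : ℕ :=
  ∑ x, if kap g d z x = t then 1 else 0

lemma kap0 (h : IB g d z) (x : Fin n) (hx : sdV z x = 0) :
    kap g d z x ≤ d / 2 ∧ innV g z x = d - 2 * kap g d z x ∧ crV g z x = 2 * kap g d z x ∧
      ccV g z x = kap g d z x := by
  have h1 := cc0 h x hx
  have h2 := inn_add_cr h x
  have h3 : kap g d z x = (d - innV g z x) / 2 := by unfold kap; rw [if_pos hx]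
  omega

lemma kap1 (h : IB g d z) (x : Fin n) (hx : sdV z x = 1) :
    d / 2 + 1 ≤ kap g d z x ∧ innV g z x = 2 * (kap g d z x - d / 2 - 1) + 1 ∧
      crV g z x + innV g z x = d ∧ ccV g z x = (kap g d z x : ℤ) - (d / 2 : ℕ) := by
  have h1 := cc1 h x hx
  have h2 := inn_add_cr h x
  have h3 : kap g d z x = d / 2 + 1 + (innV g z x - 1) / 2 := by
    unfold kap; rw [if_neg (by omega)]
  omega

lemma kap_all (h : IB g d z) (x : Fin n) :
    sdV z x = SD d (kap g d z x) ∧ innV g z x = KI d (kap g d z x) ∧
    crV g z x = KCR d (kap g d z x) ∧ ccV g z x = CC d (kap g d z x) := by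
  have h5 := sdV_le (z := z) x
  have h6 : sdV z x = 0 ∨ sdV z x = 1 := by omega
  have h7 := inn_add_cr h x
  rcases h6 with h6 | h6
  · obtain ⟨h1, h2, h3, h4⟩ := kap0 h x h6
    unfold SD KCR KI CC
    rw [if_pos h1, if_pos h1, if_pos h1]
    refine ⟨h6, h2, ?_, h4⟩
    omega
  · obtain ⟨h1, h2, h3, h4⟩ := kap1 h x h6
    have h8 : ¬ kap g d z x ≤ d / 2 := by omega
    unfold SD KCR KI CC
    rw [if_neg h8, if_neg h8, if_neg h8]
    refine ⟨h6, h2, ?_, ?_⟩
    · omega
    · rw [h4, Nat.cast_sub (by omega)]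

/-- sums over vertices in terms of the counts -/
lemma sum_kap (W : ℕ → ℤ) (m : ℕ) (hm : ∀ x, kap g d z x < m) :
    ∑ x, W (kap g d z x) = ∑ t ∈ range m, (cnt g d z t : ℤ) * W t := by
  unfold cnt
  simp_rw [Nat.cast_sum, sum_mul]
  rw [sum_comm]
  refine sum_congr rfl fun x _ => ?_
  rw [sum_eq_single (kap g d z x)]
  · simp
  · intro t _ ht
    rw [if_neg (Ne.symm ht)]; simp
  · intro h
    exact absurd (mem_range.2 (hm x)) h

/-- the data for the checker -/
theorem good_of_IB (h : IB g d z) (N : List ℕ) (hn : N.sum = n)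
    (hc : ∀ t, cnt g d z t = N.getD t 0) :
    ∃ g' z', Good n (fun i => KI d (cls N i)) (fun i => KCR d (cls N i)) (fun i => SD d (cls N i))
      (fun i => CC d (cls N i)) g' z' := by
  have hn0 : 0 < n := by
    obtain ⟨x, _⟩ := h.odd
    exact Nat.lt_of_le_of_lt (Nat.zero_le _) x.2
  -- fibres
  have hfib : ∀ t, Fintype.card {i : Fin n // cls N i = t} = Fintype.card {x // kap g d z x = t} := by
    intro t
    rw [Fintype.card_subtype, Fintype.card_subtype, card_filter, card_filter]
    have h1 := cls_count N t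
    rw [hn, ← Fin.sum_univ_eq_sum_range (fun i => if cls N i = t then 1 else 0)] at h1
    rw [h1, ← hc t]
    rfl
  let σ : Fin n ≃ Fin n := Equiv.ofFiberEquiv (f := fun i : Fin n => cls N i) (g := kap g d z)
    (fun t => Fintype.equivOfCardEq (hfib t))
  have hσ : ∀ i : Fin n, kap g d z (σ i) = cls N i := by
    intro i
    exact Equiv.ofFiberEquiv_map _ i
  let τ : ℕ → Fin n := fun i => if hi : i < n then σ ⟨i, hi⟩ else ⟨0, hn0⟩
  have hτ : ∀ i : Fin n, τ i = σ i := by
    intro i
    simp only [τ, i.2, dif_pos]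
  have hτk : ∀ i < n, kap g d z (τ i) = cls N i := by
    intro i hi
    have := hσ ⟨i, hi⟩
    rw [← hτ] at this
    exact this
  have hsum : ∀ {M : Type} [AddCommMonoid M] (f : Fin n → M), ∑ j ∈ range n, f (τ j) = ∑ y, f y := by
    intro M _ f
    rw [← Fin.sum_univ_eq_sum_range (fun j => f (τ j)), ← Equiv.sum_comp σ f]
    exact sum_congr rfl fun i _ => by rw [hτ]
  refine ⟨fun i j => g (τ i) (τ j), fun i => z (τ i), ?_, ?_, ?_, ?_, ?_, ?_, ?_, ?_, ?_, ?_⟩
  · intro i _ j _
    exact h.symm _ _
  · intro i _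
    exact h.irr _
  · intro i _
    rw [hsum (fun y => if g (τ i) y = true then z y else 0)]
    exact h.ker (τ i)
  · intro i _
    exact h.ne _
  · intro y hy
    let y' : Fin n → ℤ := fun x => y (σ.symm x)
    have hy' : ∀ i < n, y' (τ i) = y i := by
      intro i hi
      have := hτ ⟨i, hi⟩
      simp only at this
      simp only [y', this, Equiv.symm_apply_apply]
    have h1 : ∀ x, LL g y' x = 0 := by
      intro x
      obtain ⟨i, rfl⟩ := σ.surjective x
      have h2 := hy i i.2
      unfold LL
      rw [← hsum, ← hτ i, hy' i i.2]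
      refine Eq.trans ?_ h2
      congr 1
      refine sum_congr rfl fun j hj => ?_
      rw [hy' j (mem_range.1 hj)]
    rcases h.simple y' h1 with h3 | h3
    · left
      intro i hi
      rw [← hy' i hi]; exact h3 _
    · right
      intro i hi
      rw [← hy' i hi]; exact h3 _
  · intro i hi
    rw [← sdV_cast, (kap_all h (τ i)).1, hτk i hi]
  · intro i hi
    unfold cin
    rw [← hτk i hi, ← (kap_all h (τ i)).2.1]
    unfold innV
    rw [← hsum]
    refine sum_congr rfl fun j hj => ?_
    rw [(kap_all h (τ i)).1, (kap_all h (τ j)).1, hτk i hi, hτk j (mem_range.1 hj)]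
  · intro i hi
    unfold ccr
    rw [← hτk i hi, ← (kap_all h (τ i)).2.2.1]
    unfold crV
    rw [← hsum]
    refine sum_congr rfl fun j hj => ?_
    rw [(kap_all h (τ i)).1, (kap_all h (τ j)).1, hτk i hi, hτk j (mem_range.1 hj)]
  · rw [hsum]
    exact sum_z h
  · rw [← sum_cz h, ← hsum]
    refine sum_congr rfl fun j hj => ?_
    rw [(kap_all h (τ j)).2.2.2, hτk j (mem_range.1 hj)]

end

end Pool.Agent.helper86.NutX
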