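import Mathlib
import Pool.Agent.helper86.NutX.Types

set_option autoImplicit false

/-!
Constraints on the counts, and the interface between the data files and the final theorems.
-/

namespace Pool.Agent.helper86.NutX

open Finset

/-- there is no graph of the type given by the counts `N` -/
def NG (d n : ℕ) (N : List ℕ) : Prop :=
  ¬ ∃ g z, Good n (fun i => KI d (cls N i)) (fun i => KCR d (cls N i)) (fun i => SD d (cls N i))
      (fun i => CC d (cls N i)) g z

/-- decidable validity of the constants -/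
def PVD (P : Par) (d n : ℕ) (N : List ℕ) : Prop :=
  P.n = n ∧ 2 ≤ n ∧ n ≤ 18 ∧ P.RW = 12 * n ∧ P.X = 2 ^ (12 * n) ∧ P.RN = P.RW * (n - 1) ∧
  P.MSK = pkb P.X n (fun _ => 127) ∧ P.BN = 4096 ^ (n - 1) ∧ P.XB = P.X * 4096 - 1 ∧
  P.KL = pk n (fun i => KI d (cls N i) + 64 * KCR d (cls N i)) ∧
  P.KC = pk n (fun i => KI d (cls N i) + 64 * KCR d (cls N i) + 1024 * SD d (cls N i)) ∧
  P.E0 = pk (n * n) (fun k => if k / n = k % n then 1 else 0) ∧
  P.ON = pk n (fun _ => 1) ∧ P.M63 = pk n (fun _ => 63) ∧ P.K2 = pk n (fun _ => 2047) ∧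
  P.CV = pk n (fun i => CC d (cls N i)) ∧ P.SM0 = pk n (fun i => 1 - SD d (cls N i)) ∧
  P.SM1 = pk n (fun i => SD d (cls N i)) ∧ (∀ i < n, CC d (cls N i) ≤ 2)

instance (P : Par) (d n : ℕ) (N : List ℕ) : Decidable (PVD P d n N) := by
  unfold PVD; infer_instance

lemma KI_le (d t : ℕ) : d ≤ 4 → CC d t ≤ 2 → KI d t ≤ 4 := by
  intro h
  unfold KI CC
  split_ifs <;> omega

lemma SD_le (d t : ℕ) : SD d t ≤ 1 := by
  unfold SD; split_ifs <;> omega

lemma CC_eq (d t t' : ℕ) (h1 : KI d t = KI d t') (h3 : SD d t = SD d t') :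
    CC d t = CC d t' := by
  unfold KI at h1
  unfold SD at h3
  unfold CC
  split_ifs at * <;> omega

lemma PV_of {P : Par} {d n : ℕ} {N : List ℕ} (hd : d ≤ 4) (h : PVD P d n N) :
    PV P (fun i => KI d (cls N i)) (fun i => KCR d (cls N i)) (fun i => SD d (cls N i))
      (fun i => CC d (cls N i)) := by
  obtain ⟨h0, h1, h2, h3, h4, h5, h6, h7, h8, h9, h10, h11, h12, h13, h14, h15, h16, h17, h18⟩ := h
  subst h0
  refine ⟨h1, h2, h3, h4, h5, h6, h7, h8, h9, h10, h11, h12, h13, h14, h15, h16, h17, ?_, ?_, ?_,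
    h18, ?_⟩
  · intro i hi
    exact lt_of_le_of_lt (KI_le d _ hd (h18 i hi)) (by norm_num)
  · intro i _
    simp only [KCR]; omega
  · intro i _
    exact SD_le _ _
  · intro i _ j _ e1 _ e3
    exact CC_eq _ _ _ e1 e3

theorem ng_of {P : Par} {d n : ℕ} {N : List ℕ} (hd : d ≤ 4) (h : PVD P d n N)
    (hall : ∀ idx < P.TN, ∃ s, entryF P idx s = true) (h0 : 0 < P.TN) (hroot : tabL P 0 = 0) :
    NG d n N := by
  have := no_good (PV_of hd h) hall h0 hroot
  rw [h.1] at this
  exact this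

/-- combining chunks -/
lemma chunk {P : Par} {l : List ℕ} {cur : ℕ} (h : allF P l cur = true) {m : ℕ} (hm : l.length = m) :
    ∀ idx, cur ≤ idx → idx < cur + m → ∃ s, entryF P idx s = true := by
  intro idx h1 h2
  have := all_sound (P := P) l cur h (idx - cur) (by omega)
  rwa [show cur + (idx - cur) = idx by omega] at this

section

variable {n : ℕ} {g : Fin n → Fin n → Bool} {d : ℕ} {z : Fin n → ℤ}

lemma kap_lt3 (h : IB g 3 z) (x : Fin n) : kap g 3 z x < 4 := by
  have h5 := sdV_le (z := z) x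
  have h6 : sdV z x = 0 ∨ sdV z x = 1 := by omega
  rcases h6 with h6 | h6
  · have := kap0 h x h6; omega
  · have := kap1 h x h6; omega

lemma kap_lt4 (h : IB g 4 z) (x : Fin n) : kap g 4 z x < 5 := by
  have h5 := sdV_le (z := z) x
  have h6 : sdV z x = 0 ∨ sdV z x = 1 := by omega
  rcases h6 with h6 | h6
  · have := kap0 h x h6; omega
  · have := kap1 h x h6; omega

lemma cnt_big (m t : ℕ) (hm : ∀ x, kap g d z x < m) (ht : m ≤ t) : cnt g d z t = 0 := by
  unfold cnt
  refine sum_eq_zero fun x _ => ?_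
  rw [if_neg]
  have := hm x
  omega

lemma cnt_sum (m : ℕ) (hm : ∀ x, kap g d z x < m) : ∑ t ∈ range m, cnt g d z t = n := by
  have := sum_kap (g := g) (z := z) (fun _ => 1) m hm
  simp only [sum_const, card_univ, Fintype.card_fin, nsmul_eq_mul, mul_one] at this
  exact_mod_cast this.symm

lemma cnt_quad (h : IB g d z) (m : ℕ) (hm : ∀ x, kap g d z x < m) :
    (∑ t ∈ range m, (cnt g d z t : ℤ) * ((SD d t : ℤ) * (CC d t - 1))) % 4 = 0 := by
  rw [← sum_kap (g := g) (z := z) (fun t => (SD d t : ℤ) * (CC d t - 1)) m hm, ← quad h]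
  congr 1
  refine sum_congr rfl fun x _ => ?_
  obtain ⟨h1, h2, h3, h4⟩ := kap_all h x
  rw [h4, h1]

lemma cnt_cross (h : IB g d z) (m : ℕ) (hm : ∀ x, kap g d z x < m) :
    ∑ t ∈ range m, (cnt g d z t : ℤ) * ((2 * (SD d t : ℤ) - 1) * KCR d t) = 0 := by
  rw [← sum_kap (g := g) (z := z) (fun t => (2 * (SD d t : ℤ) - 1) * KCR d t) m hm]
  have h5 := cross_eq h
  rw [← sub_eq_zero, ← sum_sub_distrib] at h5
  rw [← h5]
  refine sum_congr rfl fun x _ => ?_
  obtain ⟨h1, h2, h3, h4⟩ := kap_all h x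
  rw [h3, h1]
  ring

lemma cnt_hand (h : IB g d z) (m : ℕ) (hm : ∀ x, kap g d z x < m) :
    (∑ t ∈ range m, (cnt g d z t : ℤ) * ((SD d t : ℤ) * KI d t)) % 2 = 0 := by
  rw [← sum_kap (g := g) (z := z) (fun t => (SD d t : ℤ) * KI d t) m hm]
  rw [← offdiag_even (n := n) (fun x y => if g x y = true ∧ sdV z x = sdV z y then (sdV z x : ℤ) else 0)
    (by
      intro x y
      simp only [h.symm x y]
      by_cases h1 : g y x = true <;> by_cases h2 : sdV z x = sdV z y <;> simp [h1, h2, eq_comm])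
    (by intro x; simp [h.irr])]
  congr 1
  refine sum_congr rfl fun x _ => ?_
  obtain ⟨h1, h2, h3, h4⟩ := kap_all h x
  rw [← h2, ← h1]
  unfold innV
  rw [Nat.cast_sum, mul_sum]
  refine sum_congr rfl fun y _ => ?_
  split_ifs <;> simp

lemma cnt_pos (x : Fin n) : 0 < cnt g d z (kap g d z x) := by
  unfold cnt
  refine Nat.lt_of_lt_of_le Nat.zero_lt_one ?_
  calc 1 = if kap g d z x = kap g d z x then 1 else 0 := by simp
    _ ≤ _ := single_le_sum (f := fun y => if kap g d z y = kap g d z x then 1 else 0)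
      (fun i _ => Nat.zero_le _) (mem_univ x)

lemma cnt_zero (t : ℕ) (h0 : cnt g d z t = 0) (x : Fin n) : kap g d z x ≠ t := by
  intro h
  have := cnt_pos (g := g) (d := d) (z := z) x
  rw [h] at this
  omega

theorem cons4 (h : IB g 4 z) : ∃ a b c e f : ℕ, (∀ t, cnt g 4 z t = [a, b, c, e, f].getD t 0) ∧
    a + b + c + e + f = n ∧ f % 4 = 0 ∧ 3 * e + f = 2 * b + 4 * c ∧ 0 < e + f := by
  refine ⟨cnt g 4 z 0, cnt g 4 z 1, cnt g 4 z 2, cnt g 4 z 3, cnt g 4 z 4, ?_, ?_, ?_, ?_, ?_⟩
  · intro t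
    match t with
    | 0 => rfl
    | 1 => rfl
    | 2 => rfl
    | 3 => rfl
    | 4 => rfl
    | t + 5 =>
      rw [cnt_big 5 (t + 5) (kap_lt4 h) (by omega)]
      simp
  · have := cnt_sum 5 (kap_lt4 h)
    simpa [sum_range_succ] using this
  · have := cnt_quad h 5 (kap_lt4 h)
    simp [sum_range_succ, SD, CC] at this
    omega
  · have := cnt_cross h 5 (kap_lt4 h)
    simp [sum_range_succ, SD, KCR, KI] at this
    omega
  · obtain ⟨x, hx⟩ := h.odd
    have h1 : sdV z x = 1 := by
      have := sdV_cast (z := z) x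
      omega
    have h2 := kap1 h x h1
    have h3 := kap_lt4 h x
    have h4 := cnt_pos (g := g) (d := 4) (z := z) x
    have h5 : kap g 4 z x = 3 ∨ kap g 4 z x = 4 := by omega
    rcases h5 with h5 | h5 <;> rw [h5] at h4 <;> omega

theorem cons3 (h : IB g 3 z) : ∃ a b c e : ℕ, (∀ t, cnt g 3 z t = [a, b, c, e].getD t 0) ∧
    a + b + c + e = n ∧ e % 4 = 0 ∧ b = c ∧ b % 2 = 0 ∧ (b = 0 → n % 4 = 0) := by
  refine ⟨cnt g 3 z 0, cnt g 3 z 1, cnt g 3 z 2, cnt g 3 z 3, ?_, ?_, ?_, ?_, ?_, ?_⟩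
  · intro t
    match t with
    | 0 => rfl
    | 1 => rfl
    | 2 => rfl
    | 3 => rfl
    | t + 4 =>
      rw [cnt_big 4 (t + 4) (kap_lt3 h) (by omega)]
      simp
  · have := cnt_sum 4 (kap_lt3 h)
    simpa [sum_range_succ] using this
  · have := cnt_quad h 4 (kap_lt3 h)
    simp [sum_range_succ, SD, CC] at this
    omega
  · have := cnt_cross h 4 (kap_lt3 h)
    simp [sum_range_succ, SD, KCR, KI] at this
    omega
  · have h1 := cnt_quad h 4 (kap_lt3 h)
    have h2 := cnt_cross h 4 (kap_lt3 h)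
    have h3 := cnt_hand h 4 (kap_lt3 h)
    simp [sum_range_succ, SD, CC] at h1
    simp [sum_range_succ, SD, KCR, KI] at h2
    simp [sum_range_succ, SD, KI] at h3
    omega
  · intro hb
    have h1 := cnt_quad h 4 (kap_lt3 h)
    have h2 := cnt_cross h 4 (kap_lt3 h)
    have h3 := cnt_sum 4 (kap_lt3 h)
    simp [sum_range_succ, SD, CC] at h1
    simp [sum_range_succ, SD, KCR, KI] at h2
    simp [sum_range_succ] at h3
    have hc : cnt g 3 z 2 = 0 := by omega
    -- no cross edges
    have hcr : ∀ x, crV g z x = 0 := by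
      intro x
      have h5 := kap_lt3 h x
      have h6 := cnt_zero 1 hb x
      have h7 := cnt_zero 2 hc x
      rw [(kap_all h x).2.2.1]
      have : kap g 3 z x = 0 ∨ kap g 3 z x = 3 := by omega
      rcases this with h8 | h8 <;> rw [h8] <;> rfl
    have hno : ∀ x y, g x y = true → sdV z x = sdV z y := by
      intro x y hxy
      by_contra hne
      have h5 := hcr x
      unfold crV at h5
      rw [sum_eq_zero_iff] at h5
      have := h5 y (mem_univ _)
      rw [if_pos ⟨hxy, hne⟩] at this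
      omega
    have hker : ∀ x, LL g (fun y => (sdV z y : ℤ) * z y) x = 0 := by
      intro x
      have h5 := h.ker x
      have : LL g (fun y => (sdV z y : ℤ) * z y) x = (sdV z x : ℤ) * LL g z x := by
        unfold LL
        rw [mul_add, mul_sum]
        congr 1
        refine sum_congr rfl fun y _ => ?_
        by_cases hxy : g x y = true
        · simp only [hxy, if_true, hno x y hxy]
        · simp [hxy]
      rw [this, h5, mul_zero]
    obtain ⟨x, hx⟩ := h.odd
    have hx1 : sdV z x = 1 := by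
      have := sdV_cast (z := z) x
      omega
    rcases h.simple _ hker with h8 | h8
    · have := h8 x
      rw [hx1] at this
      simp only [Nat.cast_one, one_mul] at this
      exact absurd this (h.ne x)
    · have ha : cnt g 3 z 0 = 0 := by
        unfold cnt
        refine sum_eq_zero fun y _ => ?_
        rw [if_neg]
        intro hy
        have h9 := (kap_all h y).1
        rw [hy] at h9
        apply h8 y
        rw [h9]
        simp [SD]
      omega

end

/-- enumeration of the types for degree 3 -/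
def enum3 (n : ℕ) (L : List (List ℕ)) : Bool :=
  (List.range (n + 1)).all fun e => (List.range (n + 1)).all fun b =>
    !(decide (e % 4 = 0 ∧ b % 2 = 0 ∧ b ≠ 0 ∧ b + b + e ≤ n))
      || L.contains [n - (b + b + e), b, b, e]

/-- enumeration of the types for degree 4 -/
def enum4 (n : ℕ) (L : List (List ℕ)) : Bool :=
  (List.range (n + 1)).all fun f => (List.range (n + 1)).all fun e => (List.range (n + 1)).all fun c =>
    !(decide (f % 4 = 0 ∧ e % 2 = 0 ∧ e + f ≠ 0 ∧ 4 * c ≤ 3 * e + f ∧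
        (3 * e + f - 4 * c) / 2 + c + e + f ≤ n))
      || L.contains [n - ((3 * e + f - 4 * c) / 2 + c + e + f), (3 * e + f - 4 * c) / 2, c, e, f]

theorem no3 {n : ℕ} (hn : n % 4 ≠ 0) {L : List (List ℕ)} (hL : enum3 n L = true)
    (hng : ∀ N ∈ L, NG 3 n N) (g : Fin n → Fin n → Bool) (z : Fin n → ℤ) (h : IB g 3 z) :
    False := by
  obtain ⟨a, b, c, e, h1, h2, h3, h4, h5, h6⟩ := cons3 h
  subst h4
  unfold enum3 at hL
  rw [List.all_eq_true] at hL
  have hL1 := hL e (by rw [List.mem_range]; omega)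
  rw [List.all_eq_true] at hL1
  have hL2 := hL1 b (by rw [List.mem_range]; omega)
  have hb : b ≠ 0 := fun hb => hn (h6 hb)
  have hle : b + b + e ≤ n := by omega
  have ha : n - (b + b + e) = a := by omega
  rw [decide_eq_true ⟨h3, h5, hb, hle⟩, ha, Bool.not_true, Bool.false_or,
    List.contains_iff_mem] at hL2
  exact hng _ hL2 (good_of_IB h _ (by simp; omega) h1)

theorem no4 {n : ℕ} {L : List (List ℕ)} (hL : enum4 n L = true)
    (hng : ∀ N ∈ L, NG 4 n N) (g : Fin n → Fin n → Bool) (z : Fin n → ℤ) (h : IB g 4 z) :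
    False := by
  obtain ⟨a, b, c, e, f, h1, h2, h3, h4, h5⟩ := cons4 h
  unfold enum4 at hL
  rw [List.all_eq_true] at hL
  have hL1 := hL f (by rw [List.mem_range]; omega)
  rw [List.all_eq_true] at hL1
  have hL2 := hL1 e (by rw [List.mem_range]; omega)
  rw [List.all_eq_true] at hL2
  have hL3 := hL2 c (by rw [List.mem_range]; omega)
  have hb : (3 * e + f - 4 * c) / 2 = b := by omega
  have he : e % 2 = 0 := by omega
  have hef : e + f ≠ 0 := by omega
  have hle : b + c + e + f ≤ n := by omega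
  have hle2 : 4 * c ≤ 3 * e + f := by omega
  have ha : n - (b + c + e + f) = a := by omega
  rw [hb, ha, decide_eq_true ⟨h3, he, hef, hle2, hle⟩, Bool.not_true, Bool.false_or,
    List.contains_iff_mem] at hL3
  exact hng _ hL3 (good_of_IB h _ (by simp; omega) h1)

end Pool.Agent.helper86.NutX
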